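import Pool.Agent.Thompson.C2.Lift
import Pool.Agent.Thompson.C2.Coc
import Pool.Agent.Thompson.C2.Circ

set_option autoImplicit false

/-!
# The rotation by 1/2 is not a commutator in Thompson's group T
-/

namespace Pool.Agent.Thompson.C2

open Set

/-- the circle -/
abbrev Cir : Type := {z : ℝ // z ∈ Set.Ico (0 : ℝ) 1}

/-- projection to the circle -/
noncomputable def pr (t : ℝ) : Cir := ⟨Int.fract t, Int.fract_nonneg t, Int.fract_lt_one t⟩

theorem proj_pr : Proj pr where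
  iff s t := by
    constructor
    · intro h
      have h1 : Int.fract s = Int.fract t := congrArg Subtype.val h
      rw [Int.fract_eq_fract] at h1
      obtain ⟨z, hz⟩ := h1
      exact ⟨z, by linarith⟩
    · rintro ⟨n, hn⟩
      apply Subtype.ext
      change Int.fract s = Int.fract t
      rw [Int.fract_eq_fract]
      exact ⟨n, by linarith⟩
  surj z := ⟨z.1, Subtype.ext (Int.fract_eq_self.2 z.2)⟩

theorem rot_fract {R : Equiv.Perm ℝ} (h1 : ∀ x ∈ Ico (0 : ℝ) (1 / 2), R x = x + 1 / 2)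
    (h2 : ∀ x ∈ Ico (1 / 2 : ℝ) 1, R x = x - 1 / 2) (t : ℝ) :
    R (Int.fract t) = Int.fract (t + 1 / 2) := by
  have e1 := Int.floor_add_fract t
  have e3 := Int.fract_nonneg t
  have e4 := Int.fract_lt_one t
  rcases lt_or_ge (Int.fract t) (1 / 2) with h | h
  · rw [h1 _ ⟨e3, h⟩]
    symm
    rw [Int.fract_eq_iff]
    exact ⟨by linarith, by linarith, ⌊t⌋, by linarith⟩
  · rw [h2 _ ⟨h, e4⟩]
    symm
    rw [Int.fract_eq_iff]
    exact ⟨by linarith, by linarith, ⌊t⌋ + 1, by push_cast; linarith⟩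

theorem slope_pos {x : Equiv.Perm ℝ} (hx : UForm x) {a b : ℝ ≃o ℝ} (la : IsLift x a) {p1 p2 : ℝ}
    (g : Geo a b p1 p2) : 1 ≤ slope x (Int.fract p1) := by
  obtain ⟨k, c, hc, h⟩ := uform_rgi hx (Int.fract p1)
  rw [h.slope_eq]
  have hself := h.self
  have hfix : x (Int.fract p1) = Int.fract p1 := by rw [la.lift, g.ap1]
  rw [hfix] at hself
  obtain ⟨δ, hδ, h⟩ := h
  set p := Int.fract p1 with hp
  have hp1 := Int.fract_lt_one p1
  have hp0 := Int.fract_nonneg p1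
  rw [← hp] at hp1 hp0
  have hfl := Int.floor_add_fract p1
  rw [← hp] at hfl
  -- choose a small ε
  have hs : p1 < a.symm (p1 + (1 - p)) := by
    rw [← a.lt_iff_lt, a.apply_symm_apply, g.ap1]
    linarith
  obtain ⟨t, ht1, ht2⟩ := exists_between (show p1 < min (a.symm (p1 + (1 - p))) (min p2 (min (p1 + δ) (p1 + (1 - p)))) from
    lt_min hs (lt_min g.lt (lt_min (by linarith) (by linarith))))
  have t1 : t < a.symm (p1 + (1 - p)) := ht2.trans_le (min_le_left _ _)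
  have t2 : t < p2 := ht2.trans_le ((min_le_right _ _).trans (min_le_left _ _))
  have t3 : t < p1 + δ := ht2.trans_le ((min_le_right _ _).trans ((min_le_right _ _).trans (min_le_left _ _)))
  have t4 : t < p1 + (1 - p) := ht2.trans_le ((min_le_right _ _).trans ((min_le_right _ _).trans (min_le_right _ _)))
  have a1 : t < a t := g.gt t ⟨ht1, t2⟩
  have a2 : a t < p1 + (1 - p) := by
    have := a.strictMono t1
    rwa [a.apply_symm_apply] at this
  have f1 : Int.fract t = p + (t - p1) := by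
    rw [Int.fract_eq_iff]
    exact ⟨by linarith, by linarith, ⌊p1⌋, by linarith⟩
  have f2 : Int.fract (a t) = a t - ⌊p1⌋ := by
    rw [Int.fract_eq_iff]
    exact ⟨by linarith, by linarith, ⌊p1⌋, by linarith⟩
  have h3 := la.lift t
  rw [f1, f2, h _ ⟨by linarith, by linarith⟩] at h3
  -- 2^k (t - p1) > t - p1
  have h4 : t - p1 < (2 : ℝ) ^ k * (t - p1) := by linarith
  have h5 : (1 : ℝ) < (2 : ℝ) ^ k := by
    by_contra hcon
    push Not at hcon
    have : (2 : ℝ) ^ k * (t - p1) ≤ 1 * (t - p1) := mul_le_mul_of_nonneg_right hcon (by linarith)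
    linarith
  by_contra hcon
  push Not at hcon
  have h6 : k ≤ 0 := by omega
  have h7 : (2 : ℝ) ^ k ≤ 1 := zpow_le_one_of_nonpos₀ (by norm_num) h6
  linarith

theorem key {x y R : Equiv.Perm ℝ} (hx : UForm x) (hy : UForm y) (hRU : UForm R)
    (h1 : ∀ x ∈ Ico (0 : ℝ) (1 / 2), R x = x + 1 / 2) (h2 : ∀ x ∈ Ico (1 / 2 : ℝ) 1, R x = x - 1 / 2)
    {a b : ℝ ≃o ℝ} (la : IsLift x a) (lb : IsLift y b) (hrel : R * x * y = y * x) {p1 p2 : ℝ}
    (g : Geo a b p1 p2) : False := by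
  have hxI : ∀ z : ℝ, x z ∈ Ico (0 : ℝ) 1 ↔ z ∈ Ico (0 : ℝ) 1 := fun z => perm_mem_Ico hx.1
  have hyI : ∀ z : ℝ, y z ∈ Ico (0 : ℝ) 1 ↔ z ∈ Ico (0 : ℝ) 1 := fun z => perm_mem_Ico hy.1
  have hRI : ∀ z : ℝ, R z ∈ Ico (0 : ℝ) 1 ↔ z ∈ Ico (0 : ℝ) 1 := fun z => perm_mem_Ico hRU.1
  set X : Equiv.Perm Cir := x.subtypePerm hxI with hX
  set Y : Equiv.Perm Cir := y.subtypePerm hyI with hY
  set RR' : Equiv.Perm Cir := R.subtypePerm hRI with hRR
  have hXv : ∀ z : Cir, (X z).1 = x z.1 := fun z => rfl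
  have hYv : ∀ z : Cir, (Y z).1 = y z.1 := fun z => rfl
  have hRv : ∀ z : Cir, (RR' z).1 = R z.1 := fun z => rfl
  have dX : ∀ t, X (pr t) = pr (a t) := fun t => Subtype.ext (la.lift t)
  have dY : ∀ t, Y (pr t) = pr (b t) := fun t => Subtype.ext (lb.lift t)
  have dR : ∀ t, RR' (pr t) = pr (t + 1 / 2) := fun t => Subtype.ext (rot_fract h1 h2 t)
  obtain ⟨I, J, X1, X2, Z1, Z2, hD⟩ := data_of_geo proj_pr g dX dY dR
  have hs := slope_pos hx la g
  set s := slope x (Int.fract p1) with hsdef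
  -- N = 2^s - 1
  have hfix : x (Int.fract p1) = Int.fract p1 := by rw [la.lift, g.ap1]
  obtain ⟨m, hm⟩ : ∃ m : ℕ, (m : ℤ) = s := ⟨s.toNat, Int.toNat_of_nonneg (by omega)⟩
  have hm1 : 1 ≤ m := by omega
  have hNpos : 0 < 2 ^ m - 1 := by
    have : 2 ^ 1 ≤ 2 ^ m := Nat.pow_le_pow_right (by norm_num) hm1
    omega
  set N : ℕ := 2 ^ m - 1 with hN
  have hNr : (N : ℝ) = 2 ^ m - 1 := by
    rw [hN, Nat.cast_sub Nat.one_le_two_pow]
    push_cast
    ring
  have hDyp : Dy (N * Int.fract p1) := by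
    obtain ⟨k, c, hc, h⟩ := uform_rgi hx (Int.fract p1)
    have hk : s = k := h.slope_eq
    have hself := h.self
    rw [hfix, ← hk, ← hm, zpow_natCast] at hself
    have : (N : ℝ) * Int.fract p1 = -c := by rw [hNr]; linarith
    rw [this]
    exact hc.neg
  set O : Set Cir := {z : Cir | Dy (N * z.1)} with hO
  have hOinv : ∀ {σ : Equiv.Perm ℝ} (hσ : UForm σ) {S : Equiv.Perm Cir}, (∀ z : Cir, (S z).1 = σ z.1) →
      ∀ q ∈ O, S q ∈ O := by
    intro σ hσ S hS q hq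
    change Dy (N * (S q).1)
    rw [hS, dy_mul_iff hσ]
    exact hq
  have hXi : ∀ z : Cir, (X⁻¹ z).1 = (x⁻¹ : Equiv.Perm ℝ) z.1 := fun z => by
    symm
    apply pinv_eq
    rw [← hXv, ppai]
  have hYi : ∀ z : Cir, (Y⁻¹ z).1 = (y⁻¹ : Equiv.Perm ℝ) z.1 := fun z => by
    symm
    apply pinv_eq
    rw [← hYv, ppai]
  have hfin : ∀ {σ : Equiv.Perm ℝ}, UForm σ → (O ∩ Function.support fun z : Cir => coc N σ z.1).Finite := by
    intro σ hσ
    refine ((coc_finite hNpos hσ).preimage (f := fun z : Cir => z.1) Subtype.val_injective.injOn).subset ?_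
    rintro z ⟨hz, hz'⟩
    exact ⟨z.2, hz, hz'⟩
  have hcoc : ∀ q : Cir, coc N x (Y q).1 + coc N y q.1 = coc N y (X q).1 + coc N x q.1 := by
    intro q
    have e1 := coc_mul (N := N) (hRU.mul hx) hy q.1
    have e2 := coc_mul (N := N) hRU hx (y q.1)
    have e3 := coc_mul (N := N) hy hx q.1
    rw [coc_rot h1 h2 ((hxI _).2 ((hyI _).2 q.2)), zero_add] at e2
    rw [hrel] at e1
    rw [hXv, hYv]
    linarith
  have hfinal := hD.contra (O := O) hDyp (hOinv hx hXv) (hOinv hx.inv hXi) (hOinv hRU hRv) (hOinv hy hYv)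
    (hOinv hy.inv hYi) (fun z => coc N x z.1) (fun z => coc N y z.1) (hfin hx) (hfin hy) hcoc
  have hp : (pr p1).1 = Int.fract p1 := rfl
  simp only [hp, coc, hfix] at hfinal
  omega

end Pool.Agent.Thompson.C2

namespace Pool.Agent.Thompson

open C2 Set

/-- The rotation by `1/2` is not a commutator in Thompson's group `T`. -/
theorem partT_lower {R : Equiv.Perm ℝ} (h1 : ∀ x ∈ Ico (0 : ℝ) (1 / 2), R x = x + 1 / 2)
    (h2 : ∀ x ∈ Ico (1 / 2 : ℝ) 1, R x = x - 1 / 2) :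
    ∀ a ∈ TT, ∀ b ∈ TT, R ≠ a * b * a⁻¹ * b⁻¹ := by
  intro y hyT x hxT hR
  have hx := mem_VV_iff.1 (TT_le_VV hxT)
  have hy := mem_VV_iff.1 (TT_le_VV hyT)
  have hRU : UForm R := by rw [hR]; exact ((hy.mul hx).mul hy.inv).mul hx.inv
  obtain ⟨A, lA⟩ := exists_lift hxT
  obtain ⟨B, lB⟩ := exists_lift hyT
  have hrel : R * x * y = y * x := by rw [hR]; group
  have hRR : R * R = 1 := by
    ext z
    rw [Equiv.Perm.mul_apply, Equiv.Perm.one_apply]
    by_cases hz : z ∈ Ico (0 : ℝ) 1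
    · rcases lt_or_ge z (1 / 2) with h | h
      · rw [h1 z ⟨hz.1, h⟩, h2 _ ⟨by linarith [hz.1], by linarith⟩]; ring
      · rw [h2 z ⟨h, hz.2⟩, h1 _ ⟨by linarith, by linarith [hz.2]⟩]; ring
    · rw [hRU.1 z hz, hRU.1 z hz]
  have hrel' : R * y * x = x * y := by
    have : R * (R * x * y) = R * (y * x) := by rw [hrel]
    rw [← mul_assoc, ← mul_assoc, hRR, one_mul, ← mul_assoc] at this
    exact this.symm
  -- the lift of R
  have lR : IsLift R (A.symm.trans (B.symm.trans (A.trans B))) := by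
    rw [hR]
    exact ((lB.mul lA).mul lB.inv).mul lA.inv
  obtain ⟨n, hn⟩ := lift_rot h1 h2 lR
  have hBA : ∀ t, B (A t) = A (B t) + 1 / 2 + n := by
    intro t
    have := hn (A (B t))
    simpa using this
  rcases le_or_gt 0 n with h0 | h0
  · have hc : (0 : ℝ) < 1 / 2 + n := by
      have : (0 : ℝ) ≤ n := by exact_mod_cast h0
      linarith
    obtain ⟨j, k, p1, p2, g⟩ := exists_geo B A lB.comm lA.comm n hc (fun t => by rw [hBA]; ring)
    exact key hy hx hRU h1 h2 (lB.shift j) (lA.shift k) hrel' g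
  · have hc : (0 : ℝ) < 1 / 2 + ((-n - 1 : ℤ) : ℝ) := by
      have h3 : n ≤ -1 := by omega
      have : (n : ℝ) ≤ -1 := by exact_mod_cast h3
      push_cast
      linarith
    obtain ⟨j, k, p1, p2, g⟩ := exists_geo A B lA.comm lB.comm (-n - 1) hc (fun t => by
      rw [hBA]; push_cast; ring)
    exact key hx hy hRU h1 h2 (lA.shift j) (lB.shift k) hrel g

end Pool.Agent.Thompson
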