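import Pool.Agent.Thompson.VTor

set_option autoImplicit false

/-!
# Every element of V (acting on the Cantor space) is a commutator
-/

namespace Pool.Agent.Thompson.VC

open Set Filter Topology Function
open Pool.Agent.ThompsonV

theorem exists_cells {v : Equiv.Perm Om} (hv : Loc v) {z : Om}
    (hz : Function.Injective (fun i : Fin 4 => (v ^ (i : ℕ)) z)) :
    ∃ b : Fin 4 → List Bool, Dis b ∧ ∀ (i : Fin 3) y, v (app (b i.castSucc) y) = app (b i.succ) y := by
  obtain ⟨U, hU1, hU2⟩ := (Set.finite_range (fun i : Fin 4 => (v ^ (i : ℕ)) z)).t2_separation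
  have hev : ∀ᶠ x in 𝓝 z, ∀ i : Fin 4, (v ^ (i : ℕ)) x ∈ U ((v ^ (i : ℕ)) z) := by
    rw [Filter.eventually_all]
    intro i
    exact ((Loc.continuous (Loc.pow hv i)).tendsto z).eventually ((hU1 _).2.mem_nhds (hU1 _).1)
  obtain ⟨n, hn⟩ := ev_iff.1 hev
  choose u w hu huw using fun i : Fin 4 => (Loc.pow hv (i : ℕ)) z
  let N := max n (Finset.univ.sup fun i => (u i).length)
  have hN1 : n ≤ N := le_max_left _ _
  have hN2 : ∀ i, (u i).length ≤ N := fun i =>
    (Finset.le_sup (f := fun i => (u i).length) (Finset.mem_univ i)).trans (le_max_right _ _)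
  obtain ⟨s, z', rfl, hs⟩ := exists_long z N
  have ht : ∀ i, ∃ t, s = u i ++ t := fun i => pre_split (u i) s z' (hu i) (by rw [hs]; exact hN2 i)
  choose t ht using ht
  have hb : ∀ (i : Fin 4) y, (v ^ (i : ℕ)) (app s y) = app (w i ++ t i) y := by
    intro i y
    conv_lhs => rw [ht i]
    rw [app_append, huw, app_append]
  refine ⟨fun i => w i ++ t i, ?_, ?_⟩
  · intro i j x hi hj
    obtain ⟨y, rfl⟩ := (pre_iff _ _).1 hi
    obtain ⟨y', hy'⟩ := (pre_iff _ _).1 hj
    have h1 : app (w i ++ t i) y ∈ U ((v ^ (i : ℕ)) (app s z')) := by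
      rw [← hb]
      exact hn _ (fun k hk => app_agree (by omega)) i
    have h2 : app (w i ++ t i) y ∈ U ((v ^ (j : ℕ)) (app s z')) := by
      rw [hy', ← hb]
      exact hn _ (fun k hk => app_agree (by omega)) j
    by_contra hij
    have h3 : (v ^ (i : ℕ)) (app s z') ≠ (v ^ (j : ℕ)) (app s z') := fun h => hij (hz h)
    have h4 := hU2 ⟨i, rfl⟩ ⟨j, rfl⟩ h3
    exact Set.disjoint_left.1 h4 h1 h2
  · intro i y
    have h1 := hb i.castSucc y
    have h2 := hb i.succ y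
    rw [← h1, ← h2]
    simp only [Fin.val_castSucc, Fin.val_succ]
    rw [pow_succ', Equiv.Perm.mul_apply]

theorem pow_off {p q : Equiv.Perm Om} {M : Set Om} (hp : ∀ x ∈ M, p x = x) (hq : ∀ x, x ∉ M → q x = x) (n : ℕ)
    (x : Om) (hx : x ∉ M) : ((p * q) ^ n) x = (p ^ n) x ∧ (p ^ n) x ∉ M := by
  induction n with
  | zero => exact ⟨rfl, hx⟩
  | succ n ih =>
    obtain ⟨h1, h2⟩ := ih
    constructor
    · rw [pow_succ', Equiv.Perm.mul_apply (p * q), h1, Equiv.Perm.mul_apply, hq _ h2, pow_succ', Equiv.Perm.mul_apply]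
    · rw [pow_succ', Equiv.Perm.mul_apply]
      intro h
      have h3 := p.injective (hp _ h)
      rw [h3] at h
      exact h2 h

theorem pow_dvd_fix {g : Equiv.Perm Om} {k Q : ℕ} (h : k ∣ Q) {x : Om} (hx : (g ^ k) x = x) : (g ^ Q) x = x := by
  obtain ⟨j, rfl⟩ := h
  rw [pow_mul]
  induction j with
  | zero => rfl
  | succ j ih => rw [pow_succ', Equiv.Perm.mul_apply, ih, hx]

theorem pow_dvd_one {g : Equiv.Perm Om} {k Q : ℕ} (h : k ∣ Q) (hx : g ^ k = 1) : g ^ Q = 1 := by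
  obtain ⟨j, rfl⟩ := h
  rw [pow_mul, hx, one_pow]

theorem main_case {v : Equiv.Perm Om} (hv : Loc v) {b : Fin 4 → List Bool} (hb : Dis b)
    (hvb : ∀ (i : Fin 3) y, v (app (b i.castSucc) y) = app (b i.succ) y) :
    ∃ p q : Equiv.Perm Om, Loc p ∧ Loc q ∧ v = p * q * p⁻¹ * q⁻¹ := by
  classical
  let w : Fin 4 × Bool → List Bool := fun p => b p.1 ++ [p.2]
  have hw : Dis w := by
    rintro ⟨i, c⟩ ⟨j, c'⟩ x h1 h2
    have hij : i = j := hb i j x (pre_of_pre_append h1) (pre_of_pre_append h2)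
    subst hij
    obtain ⟨y, rfl⟩ := (pre_iff _ _).1 (pre_of_pre_append h1)
    have h1' := pre_append.1 h1
    have h2' := pre_append.1 h2
    rw [pre_cons] at h1' h2'
    have h3 := h1'.1
    rw [h2'.1] at h3
    simp only at h3
    rw [h3]
  have hvw : ∀ (i : Fin 3) c y, v (app (w (i.castSucc, c)) y) = app (w (i.succ, c)) y := by
    intro i c y
    show v (app (b i.castSucc ++ [c]) y) = app (b i.succ ++ [c]) y
    rw [app_append, hvb, app_append]
  have hv0 : ∀ c y, v (app (w (0, c)) y) = app (w (1, c)) y := hvw 0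
  have hv1 : ∀ c y, v (app (w (1, c)) y) = app (w (2, c)) y := hvw 1
  have hv2 : ∀ c y, v (app (w (2, c)) y) = app (w (3, c)) y := hvw 2
  -- permutations of the cells
  let C : Equiv.Perm (Fin 4) → Equiv.Perm Om := fun π => W w hw (π.prodCongr (Equiv.refl Bool)) (fun _ => 1)
  have hC : ∀ π i c y, C π (app (w (i, c)) y) = app (w (π i, c)) y := fun π i c y => W_app hw _ _ (i, c) y
  have hCout : ∀ π x, (∀ i, ¬ Pre (w i) x) → C π x = x := fun π x hx => W_out hw _ _ hx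
  have hCloc : ∀ π, Loc (C π) := fun π => W_loc hw _ (fun _ => Loc.one)
  have hCmul : ∀ π π', C π * C π' = C (π * π') := by
    intro π π'
    ext1 x
    by_cases hx : ∃ i, Pre (w i) x
    · obtain ⟨⟨i, c⟩, hi⟩ := hx
      obtain ⟨y, rfl⟩ := (pre_iff _ _).1 hi
      rw [Equiv.Perm.mul_apply, hC, hC, hC, Equiv.Perm.mul_apply]
    · push Not at hx
      rw [Equiv.Perm.mul_apply, hCout _ x hx, hCout _ x hx, hCout _ x hx]
  let κ0 : Equiv.Perm (Fin 4) := (finRotate 4)⁻¹
  let τ0 : Equiv.Perm (Fin 4) := Equiv.swap 0 3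
  let ω0 : Equiv.Perm (Fin 4) := κ0 * τ0
  have hκ0 : κ0 0 = 3 ∧ κ0 1 = 0 ∧ κ0 2 = 1 ∧ κ0 3 = 2 := by decide
  have hτ0 : τ0 0 = 3 ∧ τ0 1 = 1 ∧ τ0 2 = 2 ∧ τ0 3 = 0 := by decide
  have hω0 : ω0 0 = 2 ∧ ω0 1 = 0 ∧ ω0 2 = 1 ∧ ω0 3 = 3 := by decide
  have hκτ : C κ0 * C τ0 = C ω0 := hCmul _ _
  -- the complement of the first three cells
  let X : Set Om := {x | ∀ p : Fin 4 × Bool, p.1 ≠ 3 → ¬ Pre (w p) x}
  have hXdef : ∀ x, x ∈ X ↔ ∀ p : Fin 4 × Bool, p.1 ≠ 3 → ¬ Pre (w p) x := fun x => Iff.rfl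
  have hXc : IsClopen X := by
    have : X = ⋂ p : Fin 4 × Bool, ⋂ _ : p.1 ≠ 3, {x | Pre (w p) x}ᶜ := by
      ext x; rw [hXdef]; simp
    rw [this]
    exact isClopen_iInter_of_finite fun p => isClopen_iInter_of_finite fun _ => (pre_isClopen (w p)).compl
  have hXn : ∀ x, x ∉ X → ∃ (i : Fin 4) (c : Bool) (y : Om), (i = 0 ∨ i = 1 ∨ i = 2) ∧ x = app (w (i, c)) y := by
    intro x hx
    rw [hXdef] at hx
    push Not at hx
    obtain ⟨⟨i, c⟩, hi, hp⟩ := hx
    obtain ⟨y, rfl⟩ := (pre_iff _ _).1 hp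
    refine ⟨i, c, y, ?_, rfl⟩
    simp only at hi
    fin_cases i <;> simp_all
  have hcellX : ∀ (i : Fin 4) c y, i ≠ 3 → app (w (i, c)) y ∉ X := fun i c y hi h => h (i, c) hi (pre_app _ _)
  have hcell3 : ∀ c y, app (w (3, c)) y ∈ X := by
    intro c y p hp h
    have := hw _ _ _ h (pre_app (w (3, c)) y)
    rw [this] at hp
    exact hp rfl
  -- the first return map
  have hvh : ∀ x, x ∉ X → (C κ0 * v) x = x := by
    intro x hx
    obtain ⟨i, c, y, hi, rfl⟩ := hXn x hx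
    rw [Equiv.Perm.mul_apply]
    rcases hi with rfl | rfl | rfl
    · rw [hv0, hC, hκ0.2.1]
    · rw [hv1, hC, hκ0.2.2.1]
    · rw [hv2, hC, hκ0.2.2.2]
  obtain ⟨û, ŝ, hû, hŝ, hûT, ⟨m2, hm2, hŝm⟩, hûX, hŝX, hdec⟩ := two_torsion (Loc.mul (hCloc κ0) hv) hXc hvh
  -- finite order of τ û
  have hτinv : C τ0 * C τ0 = 1 := by
    rw [hCmul]
    have : τ0 * τ0 = 1 := by decide
    rw [this]
    ext1 x
    by_cases hx : ∃ i, Pre (w i) x
    · obtain ⟨⟨i, c⟩, hi⟩ := hx
      obtain ⟨y, rfl⟩ := (pre_iff _ _).1 hi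
      rw [hC]; rfl
    · push Not at hx
      rw [hCout _ x hx]; rfl
  have hττ : ∀ x, C τ0 (C τ0 x) = x := fun x => by rw [← Equiv.Perm.mul_apply, hτinv]; rfl
  have hC1 : ∀ π : Equiv.Perm (Fin 4), π 1 = 1 → π 2 = 2 → ∀ c y, C π (app (w (1, c)) y) = app (w (1, c)) y ∧
      C π (app (w (2, c)) y) = app (w (2, c)) y := by
    intro π h1 h2 c y
    rw [hC, hC, h1, h2]; exact ⟨rfl, rfl⟩
  have hTu : Tor (C τ0 * û) := by
    obtain ⟨m1, hm1, hûm⟩ := hûT
    have h1 : Tor (û * C τ0) := by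
      refine tor_of_bdd (K := 2 * m1) (susp_bdd (r := {x | ∃ c, Pre (w (3, c)) x}) (d := {x | ∃ c, Pre (w (0, c)) x}) ?_ ?_ ?_ ?_ ?_ hττ hm1 hûm)
      · rintro x ⟨c, hc⟩ ⟨c', hc'⟩
        have := hw _ _ _ hc hc'
        simp at this
      · rintro x ⟨c, hc⟩
        obtain ⟨y, rfl⟩ := (pre_iff _ _).1 hc
        exact hûX _ (hcellX 0 c y (by decide))
      · rintro x ⟨c, hc⟩
        obtain ⟨y, rfl⟩ := (pre_iff _ _).1 hc
        rw [hC, hτ0.2.2.2]; exact ⟨c, pre_app _ _⟩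
      · rintro x ⟨c, hc⟩
        obtain ⟨y, rfl⟩ := (pre_iff _ _).1 hc
        rw [hC, hτ0.1]; exact ⟨c, pre_app _ _⟩
      · intro x h3 h0
        by_cases hx : ∃ i, Pre (w i) x
        · obtain ⟨⟨i, c⟩, hi⟩ := hx
          obtain ⟨y, rfl⟩ := (pre_iff _ _).1 hi
          rw [hC]
          fin_cases i
          · exact absurd ⟨c, hi⟩ h0
          · exact congrArg (fun j => app (w (j, c)) y) hτ0.2.1
          · exact congrArg (fun j => app (w (j, c)) y) hτ0.2.2.1
          · exact absurd ⟨c, hi⟩ h3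
        · push Not at hx
          exact hCout _ x hx
    obtain ⟨m, hm, hmm⟩ := h1
    refine ⟨m, hm, ?_⟩
    have h2 : C τ0 * û = C τ0 * (û * C τ0) * (C τ0)⁻¹ := by group
    rw [h2, conj_pow, hmm]; group
  obtain ⟨m1, hm1, hum1⟩ := hTu
  -- exponents
  obtain ⟨H, hHdef⟩ : ∃ H, H = 3 * (m1 * m2) := ⟨_, rfl⟩
  have hH : 0 < H := by rw [hHdef]; positivity
  have hd1 : m1 ∣ 2 * H := ⟨2 * (3 * m2), by rw [hHdef]; ring⟩
  have hd2 : m2 ∣ 2 * H := ⟨2 * (3 * m1), by rw [hHdef]; ring⟩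
  have hd3 : 3 ∣ 2 * H := ⟨2 * (m1 * m2), by rw [hHdef]; ring⟩
  have hQ : 0 < 2 * H := by omega
  obtain ⟨σ, hσ, hσQ, hσper⟩ := exists_universal (2 * H) hQ
  obtain ⟨ρ, hρ, hρH, hρper⟩ := exists_universal H hH
  -- the element t
  let g : Fin 4 × Bool → Equiv.Perm Om := fun p =>
    if p = (1, false) then σ else if p = (2, false) then σ⁻¹ else if p = (1, true) then ρ else if p = (2, true) then ρ⁻¹
    else 1
  let t : Equiv.Perm Om := W w hw (Equiv.swap ((1, true) : Fin 4 × Bool) (2, true)) g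
  have htloc : Loc t := by
    refine W_loc hw _ fun p => ?_
    simp only [g]
    split_ifs
    · exact hσ
    · exact Loc.inv hσ
    · exact hρ
    · exact Loc.inv hρ
    · exact Loc.one
  have htapp := fun p y => W_app hw (Equiv.swap ((1, true) : Fin 4 × Bool) (2, true)) g p y
  have ht1F : ∀ y, t (app (w (1, false)) y) = app (w (1, false)) (σ y) := fun y => htapp (1, false) y
  have ht2F : ∀ y, t (app (w (2, false)) y) = app (w (2, false)) (σ⁻¹ y) := fun y => htapp (2, false) y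
  have ht1T : ∀ y, t (app (w (1, true)) y) = app (w (2, true)) (ρ y) := fun y => htapp (1, true) y
  have ht2T : ∀ y, t (app (w (2, true)) y) = app (w (1, true)) (ρ⁻¹ y) := fun y => htapp (2, true) y
  have ht0 : ∀ c y, t (app (w (0, c)) y) = app (w (0, c)) y := by
    intro c y
    cases c
    · exact htapp (0, false) y
    · exact htapp (0, true) y
  have ht3 : ∀ c y, t (app (w (3, c)) y) = app (w (3, c)) y := by
    intro c y
    cases c
    · exact htapp (3, false) y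
    · exact htapp (3, true) y
  have htout : ∀ x, (∀ i, ¬ Pre (w i) x) → t x = x := fun x hx => W_out hw _ _ hx
  let M : Set Om := {x | ∃ c, Pre (w (1, c)) x ∨ Pre (w (2, c)) x}
  have htM : ∀ x, x ∉ M → t x = x := by
    intro x hx
    by_cases hx' : ∃ i, Pre (w i) x
    · obtain ⟨⟨i, c⟩, hi⟩ := hx'
      obtain ⟨y, rfl⟩ := (pre_iff _ _).1 hi
      fin_cases i
      · exact ht0 c y
      · exact absurd ⟨c, Or.inl hi⟩ hx
      · exact absurd ⟨c, Or.inr hi⟩ hx
      · exact ht3 c y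
    · push Not at hx'
      exact htout x hx'
  have hpM : ∀ x ∈ M, (C τ0 * û) x = x := by
    rintro x ⟨c, hc | hc⟩
    · obtain ⟨y, rfl⟩ := (pre_iff _ _).1 hc
      rw [Equiv.Perm.mul_apply, hûX _ (hcellX 1 c y (by decide)), hC, hτ0.2.1]
    · obtain ⟨y, rfl⟩ := (pre_iff _ _).1 hc
      rw [Equiv.Perm.mul_apply, hûX _ (hcellX 2 c y (by decide)), hC, hτ0.2.2.1]
  -- the element u
  obtain ⟨u, hudef⟩ : ∃ u, u = (C τ0 * û) * t := ⟨_, rfl⟩
  have huM : ∀ x, x ∉ M → ∀ n : ℕ, (u ^ n) x = ((C τ0 * û) ^ n) x := fun x hx n => by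
    rw [hudef]; exact (pow_off hpM htM n x hx).1
  have hMcell : ∀ c y, app (w (1, c)) y ∈ M ∧ app (w (2, c)) y ∈ M := fun c y =>
    ⟨⟨c, Or.inl (pre_app _ _)⟩, ⟨c, Or.inr (pre_app _ _)⟩⟩
  have hu1F : ∀ y, u (app (w (1, false)) y) = app (w (1, false)) (σ y) := fun y => by
    rw [hudef, Equiv.Perm.mul_apply, ht1F, hpM _ (hMcell false _).1]
  have hu2F : ∀ y, u (app (w (2, false)) y) = app (w (2, false)) (σ⁻¹ y) := fun y => by
    rw [hudef, Equiv.Perm.mul_apply, ht2F, hpM _ (hMcell false _).2]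
  have hu1T : ∀ y, u (app (w (1, true)) y) = app (w (2, true)) (ρ y) := fun y => by
    rw [hudef, Equiv.Perm.mul_apply, ht1T, hpM _ (hMcell true _).2]
  have hu2T : ∀ y, u (app (w (2, true)) y) = app (w (1, true)) (ρ⁻¹ y) := fun y => by
    rw [hudef, Equiv.Perm.mul_apply, ht2T, hpM _ (hMcell true _).1]
  have huQ : u ^ (2 * H) = 1 := by
    ext1 x
    rw [Equiv.Perm.one_apply]
    by_cases hx : x ∈ M
    · obtain ⟨c, hc | hc⟩ := hx
      · obtain ⟨y, rfl⟩ := (pre_iff _ _).1 hc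
        cases c
        · rw [pow_semiconj (f := app (w (1, false))) hu1F, hσQ]; rfl
        · apply pow_dvd_fix (k := 2) ⟨H, rfl⟩
          rw [pow_two, Equiv.Perm.mul_apply, hu1T, hu2T]; simp
      · obtain ⟨y, rfl⟩ := (pre_iff _ _).1 hc
        cases c
        · rw [pow_semiconj (f := app (w (2, false))) hu2F, inv_pow, hσQ]; simp
        · apply pow_dvd_fix (k := 2) ⟨H, rfl⟩
          rw [pow_two, Equiv.Perm.mul_apply, hu2T, hu1T]; simp
    · rw [huM x hx, pow_dvd_one hd1 hum1]; rfl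
  -- the element s
  obtain ⟨s, hsdef⟩ : ∃ s, s = ŝ * (C ω0 * t) := ⟨_, rfl⟩
  have hXM : ∀ x, x ∈ X → x ∉ M := by
    rintro x hx ⟨c, hc | hc⟩
    · exact hx (1, c) (show (1 : Fin 4) ≠ 3 by decide) hc
    · exact hx (2, c) (show (2 : Fin 4) ≠ 3 by decide) hc
  have hωX : ∀ x, x ∈ X → C ω0 x = x := by
    intro x hx
    by_cases hx' : ∃ i, Pre (w i) x
    · obtain ⟨⟨i, c⟩, hi⟩ := hx'
      obtain ⟨y, rfl⟩ := (pre_iff _ _).1 hi
      fin_cases i
      · exact absurd hx (hcellX 0 c y (by decide))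
      · exact absurd hx (hcellX 1 c y (by decide))
      · exact absurd hx (hcellX 2 c y (by decide))
      · rw [hC]
        exact congrArg (fun j => app (w (j, c)) y) hω0.2.2.2
    · push Not at hx'
      exact hCout _ x hx'
  have hsX : ∀ x, x ∈ X → ∀ n : ℕ, (s ^ n) x = (ŝ ^ n) x := fun x hx n => by
    rw [hsdef]
    refine (pow_off (M := Xᶜ) (fun y hy => hŝX y hy) (fun y hy => ?_) n x (fun h => h hx)).1
    rw [Set.notMem_compl_iff] at hy
    rw [Equiv.Perm.mul_apply, htM y (hXM y hy), hωX y hy]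
  have hs0 : ∀ c y, s (app (w (0, c)) y) = app (w (2, c)) y := fun c y => by
    rw [hsdef, Equiv.Perm.mul_apply, Equiv.Perm.mul_apply, ht0, hC, hω0.1, hŝX _ (hcellX 2 c _ (by decide))]
  have hs1F : ∀ y, s (app (w (1, false)) y) = app (w (0, false)) (σ y) := fun y => by
    rw [hsdef, Equiv.Perm.mul_apply, Equiv.Perm.mul_apply, ht1F, hC, hω0.2.1, hŝX _ (hcellX 0 _ _ (by decide))]
  have hs2F : ∀ y, s (app (w (2, false)) y) = app (w (1, false)) (σ⁻¹ y) := fun y => by
    rw [hsdef, Equiv.Perm.mul_apply, Equiv.Perm.mul_apply, ht2F, hC, hω0.2.2.1, hŝX _ (hcellX 1 _ _ (by decide))]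
  have hs1T : ∀ y, s (app (w (1, true)) y) = app (w (1, true)) (ρ y) := fun y => by
    rw [hsdef, Equiv.Perm.mul_apply, Equiv.Perm.mul_apply, ht1T, hC, hω0.2.2.1, hŝX _ (hcellX 1 _ _ (by decide))]
  have hs2T : ∀ y, s (app (w (2, true)) y) = app (w (0, true)) (ρ⁻¹ y) := fun y => by
    rw [hsdef, Equiv.Perm.mul_apply, Equiv.Perm.mul_apply, ht2T, hC, hω0.2.1, hŝX _ (hcellX 0 _ _ (by decide))]
  have hs0T : ∀ y, (s ^ 2) (app (w (0, true)) y) = app (w (0, true)) (ρ⁻¹ y) := fun y => by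
    rw [pow_two, Equiv.Perm.mul_apply, hs0, hs2T]
  have hs0Tp : ∀ (k : ℕ) y, (s ^ (2 * k)) (app (w (0, true)) y) = app (w (0, true)) ((ρ⁻¹ ^ k) y) := fun k y => by
    rw [pow_mul, pow_semiconj (f := app (w (0, true))) hs0T]
  have hρi : ρ⁻¹ ^ H = 1 := by rw [inv_pow, hρH, inv_one]
  have hshift : ∀ x, (s ^ (2 * H)) (s x) = s x → (s ^ (2 * H)) x = x := by
    intro x hx
    apply s.injective
    rw [← hx]
    exact congrArg (fun f : Equiv.Perm Om => f x) ((Commute.refl s).pow_right (2 * H)).eq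
  have hsQ : s ^ (2 * H) = 1 := by
    ext1 x
    rw [Equiv.Perm.one_apply]
    have h0T : ∀ y, (s ^ (2 * H)) (app (w (0, true)) y) = app (w (0, true)) y := fun y => by
      rw [hs0Tp, hρi]; rfl
    have h0F : ∀ y, (s ^ (2 * H)) (app (w (0, false)) y) = app (w (0, false)) y := fun y => by
      apply pow_dvd_fix (k := 3) hd3
      have hp3 : ∀ x, (s ^ 3) x = s (s (s x)) := fun x => by rw [pow_succ', pow_two]; rfl
      rw [hp3, hs0, hs2F, hs1F]
      simp
    by_cases hx : x ∈ X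
    · rw [hsX x hx, pow_dvd_one hd2 hŝm]; rfl
    · obtain ⟨i, c, y, hi, rfl⟩ := hXn x hx
      rcases hi with rfl | rfl | rfl <;> cases c
      · exact h0F y
      · exact h0T y
      · apply hshift; rw [hs1F]; exact h0F _
      · rw [pow_semiconj (f := app (w (1, true))) hs1T, mul_comm, pow_mul, hρH, one_pow]; rfl
      · apply hshift; apply hshift; rw [hs2F, hs1F]; exact h0F _
      · apply hshift; rw [hs2T]; exact h0T _
  -- conjugacy
  have huloc : Loc u := by rw [hudef]; exact Loc.mul (Loc.mul (hCloc _) hû) htloc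
  have hsloc : Loc s := by rw [hsdef]; exact Loc.mul hŝ (Loc.mul (hCloc _) htloc)
  obtain ⟨y, hy, hyu⟩ := conj_of_periods huloc hsloc hQ huQ hsQ (by
    intro l
    constructor
    · rintro ⟨x, hx⟩
      have hl : l ∣ 2 * H := by
        rw [← hx]
        exact IsPeriodicPt.minimalPeriod_dvd ((per_iff _ _).2 (by rw [huQ]; rfl))
      by_cases hlH : l ∣ H
      · obtain ⟨y, hy⟩ := hρper l hlH
        exact ⟨app (w (1, true)) y, by rw [minPer_semiconj (inj_app _) hs1T, hy]⟩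
      · obtain ⟨k, rfl⟩ : 2 ∣ l := by
          by_contra h2
          have hco : Nat.Coprime l 2 := (Nat.coprime_comm.1 ((Nat.Prime.coprime_iff_not_dvd Nat.prime_two).2 h2))
          exact hlH (hco.dvd_of_dvd_mul_left hl)
        have hk : k ∣ H := Nat.dvd_of_mul_dvd_mul_left (by norm_num) hl
        obtain ⟨y, hy⟩ := hρper k hk
        refine ⟨app (w (0, true)) y, ?_⟩
        have hy' : minimalPeriod (ρ⁻¹ : Equiv.Perm Om) y = k := by rw [minPer_inv, hy]
        apply Nat.dvd_antisymm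
        · apply IsPeriodicPt.minimalPeriod_dvd
          rw [per_iff, hs0Tp]
          have := (per_iff _ _).1 (isPeriodicPt_minimalPeriod (⇑(ρ⁻¹ : Equiv.Perm Om)) y)
          rw [hy'] at this
          rw [this]
        · have h1 := (per_iff _ _).1 (isPeriodicPt_minimalPeriod (⇑s) (app (w (0, true)) y))
          obtain ⟨p, hp⟩ : ∃ p, minimalPeriod (⇑s) (app (w (0, true)) y) = p := ⟨_, rfl⟩
          rw [hp] at h1 ⊢
          rcases Nat.even_or_odd' p with ⟨j, hj | hj⟩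
          · rw [hj, hs0Tp] at h1
            have h2 := app_inj _ h1
            have h3 : IsPeriodicPt (⇑(ρ⁻¹ : Equiv.Perm Om)) j y := (per_iff _ _).2 h2
            have h4 := h3.minimalPeriod_dvd
            rw [hy'] at h4
            rw [hj]
            exact Nat.mul_dvd_mul_left 2 h4
          · exfalso
            rw [hj, pow_succ', Equiv.Perm.mul_apply, hs0Tp, hs0] at h1
            have := hw (2, true) (0, true) (app (w (0, true)) y) (by rw [← h1]; exact pre_app _ _) (pre_app _ _)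
            simp at this
    · rintro ⟨x, hx⟩
      have hl : l ∣ 2 * H := by
        rw [← hx]
        exact IsPeriodicPt.minimalPeriod_dvd ((per_iff _ _).2 (by rw [hsQ]; rfl))
      obtain ⟨y, hy⟩ := hσper l hl
      exact ⟨app (w (1, false)) y, by rw [minPer_semiconj (inj_app _) hu1F, hy]⟩)
  -- conclusion
  have hcomm : û * C ω0 = C ω0 * û := by
    have : Equiv.Perm.Disjoint û (C ω0) := by
      intro x
      by_cases hx : x ∈ X
      · exact Or.inr (hωX x hx)
      · exact Or.inl (hûX x hx)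
    exact this.commute.eq
  have hvs : v * s = u := by
    have h1 : v = (C κ0)⁻¹ * (û * ŝ⁻¹) := by rw [← hdec]; group
    have h2 : (C κ0)⁻¹ * C ω0 = C τ0 := by rw [← hκτ]; group
    calc v * s = (C κ0)⁻¹ * (û * C ω0) * t := by rw [hsdef, h1]; group
      _ = ((C κ0)⁻¹ * C ω0) * û * t := by rw [hcomm]; group
      _ = u := by rw [h2, hudef]
  refine ⟨y⁻¹, s, Loc.inv hy, hsloc, ?_⟩
  have h3 : v = u * s⁻¹ := by rw [← hvs]; group
  have h4 : u = y⁻¹ * s * y := by rw [mul_assoc, ← hyu]; group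
  rw [h3, h4]; group

/-- **Every element of Thompson's group V (acting on the Cantor space) is a commutator.** -/
theorem commutator_V {v : Equiv.Perm Om} (hv : Loc v) :
    ∃ p q : Equiv.Perm Om, Loc p ∧ Loc q ∧ v = p * q * p⁻¹ * q⁻¹ := by
  by_cases h : ∃ z, Function.Injective (fun i : Fin 4 => (v ^ (i : ℕ)) z)
  · obtain ⟨z, hz⟩ := h
    obtain ⟨b, hb, hvb⟩ := exists_cells hv hz
    exact main_case hv hb hvb
  · push Not at h
    have hT : Tor v := by
      refine tor_of_bdd (K := 3) fun x => ?_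
      have hx := h x
      simp only [Function.Injective] at hx
      push Not at hx
      obtain ⟨i, j, hij, hne⟩ := hx
      have key : ∀ i j : Fin 4, i < j → (v ^ (i : ℕ)) x = (v ^ (j : ℕ)) x → ∃ k, 0 < k ∧ k ≤ 3 ∧ (v ^ k) x = x := by
        intro i j hlt h
        have h1 : (i : ℕ) < j := hlt
        refine ⟨j - i, by omega, by omega, ?_⟩
        apply (v ^ (i : ℕ)).injective
        rw [← Equiv.Perm.mul_apply, ← pow_add, Nat.add_sub_cancel' h1.le, h]
      rcases lt_or_gt_of_ne hne with hlt | hlt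
      · exact key i j hlt hij
      · exact key j i hlt hij.symm
    obtain ⟨m, hm, hvm⟩ := hT
    exact tor_commutator hv hm hvm

end Pool.Agent.Thompson.VC
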