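import Pool.Agent.Thompson.Base
import Pool.Agent.Thompson.VMain

set_option autoImplicit false

/-!
# Every element of Thompson's group V (acting on `[0,1)`) is a commutator

Transfer from the Cantor space to the unit interval.
-/

namespace Pool.Agent.Thompson.VC

open Set Filter Topology
open Pool.Agent.ThompsonV (Om app Pre cons tl cst Loc pre_nil pre_cons pre_iff app_nil app_cons app_append app_inj
  cons_inj cons_zero tl_cons cons_tl exists_cons exists_long pre_split)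

/-- the doubling map -/
noncomputable def T2 (x : ℝ) : ℝ := if x < 1 / 2 then 2 * x else 2 * x - 1

/-- binary digits -/
noncomputable def E (x : ℝ) : Om := fun n => decide (1 / 2 ≤ T2^[n] x)

theorem T2_mem {x : ℝ} (hx : x ∈ Ico (0 : ℝ) 1) : T2 x ∈ Ico (0 : ℝ) 1 := by
  obtain ⟨h0, h1⟩ := hx
  unfold T2
  split_ifs with h
  · constructor <;> linarith
  · push Not at h
    constructor <;> linarith

theorem E_zero (x : ℝ) : E x 0 = decide (1 / 2 ≤ x) := rfl

theorem tl_E (x : ℝ) : tl (E x) = E (T2 x) := by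
  funext n
  show decide (1 / 2 ≤ T2^[n + 1] x) = decide (1 / 2 ≤ T2^[n] (T2 x))
  rw [Function.iterate_succ_apply]

/-- the increasing affine map onto the dyadic interval of a word -/
noncomputable def A : List Bool → ℝ → ℝ
  | [], x => x
  | b :: w, x => (A w x + (if b then 1 else 0)) / 2

theorem A_mem (w : List Bool) {x : ℝ} (hx : x ∈ Ico (0 : ℝ) 1) : A w x ∈ Ico (0 : ℝ) 1 := by
  induction w with
  | nil => exact hx
  | cons b w ih =>
    obtain ⟨h0, h1⟩ := ih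
    show (A w x + (if b then 1 else 0)) / 2 ∈ _
    cases b
    · simp only [Bool.false_eq_true, if_false]
      constructor <;> linarith
    · simp only [if_true]
      constructor <;> linarith

theorem E_half {b : Bool} {y : ℝ} (hy : y ∈ Ico (0 : ℝ) 1) : E ((y + (if b then 1 else 0)) / 2) = cons b (E y) := by
  obtain ⟨h0, h1⟩ := hy
  rw [← cons_tl (E ((y + (if b then 1 else 0)) / 2)), tl_E, E_zero]
  cases b
  · simp only [Bool.false_eq_true, if_false, add_zero]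
    have h2 : ¬ ((1 : ℝ) / 2 ≤ y / 2) := by linarith
    have h3 : T2 (y / 2) = y := by
      unfold T2
      rw [if_pos (by linarith)]; ring
    rw [h3, decide_eq_false h2]
  · simp only [if_true]
    have h2 : ((1 : ℝ) / 2 ≤ (y + 1) / 2) := by linarith
    have h3 : T2 ((y + 1) / 2) = y := by
      unfold T2
      rw [if_neg (by linarith)]; ring
    rw [h3, decide_eq_true h2]

theorem E_A (w : List Bool) {x : ℝ} (hx : x ∈ Ico (0 : ℝ) 1) : E (A w x) = app w (E x) := by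
  induction w with
  | nil => simp [A]
  | cons b w ih =>
    show E ((A w x + (if b then 1 else 0)) / 2) = _
    rw [E_half (A_mem w hx), ih, app_cons]

theorem half_T2 {x : ℝ} : x = (T2 x + (if E x 0 then 1 else 0)) / 2 := by
  rw [E_zero]
  unfold T2
  by_cases h : x < 1 / 2
  · have h2 : ¬ ((1 : ℝ) / 2 ≤ x) := not_le.2 h
    simp only [h, if_true, h2, decide_false, Bool.false_eq_true, if_false]
    ring
  · have h2 : ((1 : ℝ) / 2 ≤ x) := not_lt.1 h
    simp only [h, if_false, h2, decide_true, if_true]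
    ring

theorem exists_A {u : List Bool} : ∀ {x : ℝ}, x ∈ Ico (0 : ℝ) 1 → Pre u (E x) → ∃ x' ∈ Ico (0 : ℝ) 1, x = A u x' := by
  induction u with
  | nil => intro x hx _; exact ⟨x, hx, rfl⟩
  | cons b u ih =>
    intro x hx hu
    rw [pre_cons, tl_E] at hu
    obtain ⟨x', hx', h⟩ := ih (T2_mem hx) hu.2
    refine ⟨x', hx', ?_⟩
    show x = (A u x' + (if b then 1 else 0)) / 2
    rw [← h, ← hu.1]
    exact half_T2

theorem E_close (n : ℕ) : ∀ {x y : ℝ}, x ∈ Ico (0 : ℝ) 1 → y ∈ Ico (0 : ℝ) 1 → (∀ i < n, E x i = E y i) →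
    |x - y| < 1 / 2 ^ n := by
  induction n with
  | zero =>
    intro x y hx hy _
    rw [abs_lt]
    obtain ⟨h0, h1⟩ := hx
    obtain ⟨h2, h3⟩ := hy
    constructor <;> norm_num <;> linarith
  | succ n ih =>
    intro x y hx hy h
    have h1 : |T2 x - T2 y| < 1 / 2 ^ n := by
      apply ih (T2_mem hx) (T2_mem hy)
      intro i hi
      rw [← tl_E, ← tl_E]
      exact h (i + 1) (by omega)
    have h2 : x - y = (T2 x - T2 y) / 2 := by
      conv_lhs => rw [half_T2 (x := x), half_T2 (x := y), h 0 (by omega)]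
      ring
    rw [h2, abs_div, abs_two, pow_succ]
    rw [div_lt_iff₀ (by norm_num)]
    calc |T2 x - T2 y| < 1 / 2 ^ n := h1
      _ = 1 / (2 ^ n * 2) * 2 := by field_simp

theorem E_inj {x y : ℝ} (hx : x ∈ Ico (0 : ℝ) 1) (hy : y ∈ Ico (0 : ℝ) 1) (h : E x = E y) : x = y := by
  by_contra hne
  have hpos : 0 < |x - y| := abs_pos.2 (sub_ne_zero.2 hne)
  obtain ⟨n, hn⟩ := exists_pow_lt_of_lt_one hpos (show (1 / 2 : ℝ) < 1 by norm_num)
  have := E_close n hx hy (fun i _ => by rw [h])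
  rw [one_div, inv_pow, ← one_div] at hn
  linarith

theorem E_dense : Dense (E '' Ico (0 : ℝ) 1) := by
  intro y
  rw [mem_closure_iff_nhds]
  intro t ht
  obtain ⟨n, hn⟩ := ev_iff.1 (show ∀ᶠ x in 𝓝 y, x ∈ t from ht)
  obtain ⟨s, w', rfl, hs⟩ := exists_long y n
  have h0 : (0 : ℝ) ∈ Ico (0 : ℝ) 1 := ⟨le_rfl, one_pos⟩
  refine ⟨E (A s 0), hn _ fun i hi => ?_, A s 0, A_mem s h0, rfl⟩
  rw [E_A s h0]
  exact app_agree (by omega)

/-- integer attached to a word -/
def num : List Bool → ℕ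
  | [] => 0
  | b :: w => (if b then 2 ^ w.length else 0) + num w

theorem num_lt (w : List Bool) : num w < 2 ^ w.length := by
  induction w with
  | nil => simp [num]
  | cons b w ih =>
    show (if b then 2 ^ w.length else 0) + num w < 2 ^ (w.length + 1)
    rw [pow_succ]
    split_ifs <;> omega

theorem A_eq (w : List Bool) (x : ℝ) : A w x = (x + num w) / 2 ^ w.length := by
  induction w with
  | nil => simp [A, num]
  | cons b w ih =>
    show (A w x + (if b then 1 else 0)) / 2 = (x + (((if b then 2 ^ w.length else 0) + num w : ℕ) : ℝ)) / 2 ^ (w.length + 1)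
    rw [ih, pow_succ]
    cases b
    · simp only [Bool.false_eq_true, if_false]
      push_cast
      field_simp
      ring
    · simp only [if_true]
      push_cast
      field_simp
      ring

theorem exists_word (L : ℕ) : ∀ M : ℕ, M < 2 ^ L → ∃ w : List Bool, w.length = L ∧ num w = M := by
  induction L with
  | zero => intro M hM; exact ⟨[], rfl, by simp at hM; simp [num, hM]⟩
  | succ L ih =>
    intro M hM
    rw [pow_succ] at hM
    by_cases h : 2 ^ L ≤ M
    · obtain ⟨w, hw1, hw2⟩ := ih (M - 2 ^ L) (by omega)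
      refine ⟨true :: w, by simp [hw1], ?_⟩
      show (if true = true then 2 ^ w.length else 0) + num w = M
      rw [hw1, hw2]; simp; omega
    · obtain ⟨w, hw1, hw2⟩ := ih M (by omega)
      refine ⟨false :: w, by simp [hw1], ?_⟩
      show (if false = true then 2 ^ w.length else 0) + num w = M
      rw [hw2]; simp

theorem affine_word (k : ℤ) {c : ℝ} (hc : Dy c) : ∃ n, ∀ w : List Bool, n ≤ w.length →
    (2 : ℝ) ^ k * A w 0 + c ∈ Ico (0 : ℝ) 1 → ∃ w', ∀ x, (2 : ℝ) ^ k * A w x + c = A w' x := by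
  obtain ⟨m, e, rfl⟩ := hc
  refine ⟨e + k.toNat, fun w hw h0 => ?_⟩
  have hk : k ≤ k.toNat := Int.self_le_toNat k
  obtain ⟨L, hL⟩ := Int.eq_ofNat_of_zero_le (show (0 : ℤ) ≤ (w.length : ℤ) - k by omega)
  have hL' : (L : ℤ) = w.length - k := hL.symm
  have hLe : e ≤ L := by omega
  have hpow : (2 : ℝ) ^ k * 2 ^ L = 2 ^ w.length := by
    rw [← zpow_natCast (2 : ℝ) L, ← zpow_natCast (2 : ℝ) w.length, ← zpow_add₀ (by norm_num)]
    congr 1
    omega
  have hLpos : (0 : ℝ) < 2 ^ L := by positivity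
  have hwpos : (0 : ℝ) < 2 ^ w.length := by positivity
  have hfac : (2 : ℝ) ^ k / 2 ^ w.length = 1 / 2 ^ L := by
    rw [div_eq_div_iff hwpos.ne' hLpos.ne', hpow, one_mul]
  have hsplit : (2 : ℝ) ^ L = 2 ^ e * 2 ^ (L - e) := by rw [← pow_add]; congr 1; omega
  have hval : ∀ x, (2 : ℝ) ^ k * A w x + (m : ℝ) / 2 ^ e = (x + ((num w + m * 2 ^ (L - e) : ℤ) : ℝ)) / 2 ^ L := by
    intro x
    have h1 : (m : ℝ) / 2 ^ e = (m * 2 ^ (L - e)) / 2 ^ L := by
      rw [hsplit]; field_simp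
    rw [A_eq, h1, mul_div_assoc', mul_comm, mul_div_assoc, hfac]
    push_cast
    field_simp
    ring
  rw [hval] at h0
  obtain ⟨h1, h2⟩ := h0
  have h3 : (0 : ℝ) ≤ ((num w + m * 2 ^ (L - e) : ℤ) : ℝ) := by
    by_contra hneg
    push Not at hneg
    have : (0 + ((num w + m * 2 ^ (L - e) : ℤ) : ℝ)) / 2 ^ L < 0 := div_neg_of_neg_of_pos (by linarith) hLpos
    linarith
  have h3' : (0 : ℤ) ≤ num w + m * 2 ^ (L - e) := by exact_mod_cast h3
  obtain ⟨M, hM⟩ := Int.eq_ofNat_of_zero_le h3'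
  have h4 : M < 2 ^ L := by
    rw [hM, div_lt_one hLpos, zero_add] at h2
    exact_mod_cast h2
  obtain ⟨w', hw1, hw2⟩ := exists_word L M h4
  refine ⟨w', fun x => ?_⟩
  rw [hval, A_eq, hw1, hw2, hM]
  rfl

theorem exists_level_word {g : Equiv.Perm ℝ} (hg : g ∈ VV) :
    ∃ N, ∀ w : List Bool, w.length = N → ∃ w', ∀ x ∈ Ico (0 : ℝ) 1, g (A w x) = A w' x := by
  obtain ⟨hg0, N0, hN0⟩ := mem_VV_iff_lev.1 hg
  obtain ⟨s, hs1, hs2⟩ := cells_finset N0
  have h0I : (0 : ℝ) ∈ Ico (0 : ℝ) 1 := ⟨le_rfl, one_pos⟩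
  obtain ⟨n, hn⟩ := exists_level_of_forall s (fun u N => ∀ w : List Bool, w.length = N → u ≤ A w 0 →
      A w 0 + 1 / 2 ^ w.length ≤ u + 1 / 2 ^ N0 → ∃ w', ∀ x ∈ Ico (0 : ℝ) 1, g (A w x) = A w' x) (by
    intro u hu
    obtain ⟨k, c, hc, hk⟩ := hN0 u (hs1 u hu).1
    obtain ⟨n, hn⟩ := affine_word k hc
    refine ⟨n, fun N hN w hw h1 h2 => ?_⟩
    have hAw : ∀ x ∈ Ico (0 : ℝ) 1, g (A w x) = (2 : ℝ) ^ k * A w x + c := by
      intro x hx
      apply hk
      have hpos : (0 : ℝ) < 2 ^ w.length := by positivity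
      have e1 : A w x = A w 0 + x / 2 ^ w.length := by rw [A_eq, A_eq]; field_simp; ring
      have e2 : x / 2 ^ w.length < 1 / 2 ^ w.length := by
        apply div_lt_div_of_pos_right hx.2 hpos
      have e3 : 0 ≤ x / 2 ^ w.length := div_nonneg hx.1 hpos.le
      rw [e1]
      constructor <;> linarith
    obtain ⟨w', hw'⟩ := hn w (by omega) (by
      rw [← hAw 0 h0I]
      exact (perm_mem_Ico hg0).2 (A_mem w h0I))
    exact ⟨w', fun x hx => by rw [hAw x hx, hw']⟩)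
  refine ⟨max n N0, fun w hw => ?_⟩
  have hon : OnG w.length (A w 0) := ⟨num w, by rw [A_eq]; push_cast; ring⟩
  obtain ⟨u, hu, h1, h2⟩ := cell_sub (N := N0) (by omega) hon
  have hA := A_mem w h0I
  refine hn _ (le_max_left _ _) u (hs2 u hu ?_ (h1.trans_lt hA.2)) w hw h1 h2
  by_contra hneg
  push Not at hneg
  have h3 := hu.step_le OnG.zero hneg
  have hpos : (0 : ℝ) < 1 / 2 ^ w.length := by positivity
  linarith [hA.1]

theorem drp_app' {u : List Bool} {N : ℕ} (h : u.length = N) (x : Om) : drp N (app u x) = x := by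
  subst h; exact drp_app u x

theorem exists_F {g : Equiv.Perm ℝ} (hg : g ∈ VV) :
    ∃ F : Om → Om, (∀ y, LA F y) ∧ ∀ x ∈ Ico (0 : ℝ) 1, F (E x) = E (g x) := by
  obtain ⟨N, hN⟩ := exists_level_word hg
  choose q hq using fun w : {w : List Bool // w.length = N} => hN w.1 w.2
  let fst : Om → {w : List Bool // w.length = N} := fun y => ⟨List.ofFn (fun i : Fin N => y i), by simp⟩
  have hfst : ∀ (w : List Bool) (hw : w.length = N) y, fst (app w y) = ⟨w, hw⟩ := by
    intro w hw y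
    apply Subtype.ext
    apply List.ext_get
    · simp [fst, hw]
    · intro i h1 h2
      simp only [fst, List.get_ofFn]
      show app w y i = _
      rw [app_lt h2]
  have happ : ∀ y, y = app (fst y).1 (drp N y) := by
    intro y
    obtain ⟨s, w', rfl, hs⟩ := exists_long y N
    rw [hfst s hs]
    subst hs
    rw [drp_app]
  refine ⟨fun y => app (q (fst y)) (drp N y), fun y => ?_, fun x hx => ?_⟩
  · refine ⟨(fst y).1, q (fst y), ?_, fun x => ?_⟩
    · rw [pre_iff]; exact ⟨_, happ y⟩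
    · show app (q (fst (app (fst y).1 x))) (drp N (app (fst y).1 x)) = _
      rw [hfst (fst y).1 (fst y).2]
      rw [drp_app' (fst y).2]
  · have h1 : Pre (fst (E x)).1 (E x) := by rw [pre_iff]; exact ⟨_, happ (E x)⟩
    obtain ⟨x', hx', hxx⟩ := exists_A hx h1
    have h2 : g x = A (q (fst (E x))) x' := by
      conv_lhs => rw [hxx]
      exact hq _ x' hx'
    rw [h2, E_A _ hx']
    show app (q (fst (E x))) (drp N (E x)) = _
    congr 1
    have h3 : E x = app (fst (E x)).1 (E x') := by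
      conv_lhs => rw [hxx]
      exact E_A _ hx'
    have h4 := happ (E x)
    exact app_inj _ (h4.symm.trans h3)

/-- `σ` acts on binary expansions as `g` -/
def Rel (σ : Equiv.Perm Om) (g : Equiv.Perm ℝ) : Prop :=
  (∀ x ∈ Ico (0 : ℝ) 1, g x ∈ Ico (0 : ℝ) 1 ∧ E (g x) = σ (E x)) ∧ ∀ x, x ∉ Ico (0 : ℝ) 1 → g x = x

theorem Rel.unique {σ : Equiv.Perm Om} {g g' : Equiv.Perm ℝ} (h : Rel σ g) (h' : Rel σ g') : g = g' := by
  ext1 x
  by_cases hx : x ∈ Ico (0 : ℝ) 1
  · obtain ⟨h1, h2⟩ := h.1 x hx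
    obtain ⟨h3, h4⟩ := h'.1 x hx
    exact E_inj h1 h3 (by rw [h2, h4])
  · rw [h.2 x hx, h'.2 x hx]

theorem Rel.mul {σ τ : Equiv.Perm Om} {g h : Equiv.Perm ℝ} (h1 : Rel σ g) (h2 : Rel τ h) : Rel (σ * τ) (g * h) := by
  refine ⟨fun x hx => ?_, fun x hx => by rw [Equiv.Perm.mul_apply, h2.2 x hx, h1.2 x hx]⟩
  obtain ⟨h3, h4⟩ := h2.1 x hx
  obtain ⟨h5, h6⟩ := h1.1 _ h3
  exact ⟨h5, by rw [Equiv.Perm.mul_apply, h6, h4, Equiv.Perm.mul_apply]⟩

theorem Rel.inv {σ : Equiv.Perm Om} {g : Equiv.Perm ℝ} (h : Rel σ g) : Rel σ⁻¹ g⁻¹ := by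
  refine ⟨fun x hx => ?_, fun x hx => pinv_eq (h.2 x hx)⟩
  have h1 : g⁻¹ x ∈ Ico (0 : ℝ) 1 := by
    rw [← perm_mem_Ico h.2, pai]; exact hx
  refine ⟨h1, ?_⟩
  obtain ⟨-, h2⟩ := h.1 _ h1
  rw [pai] at h2
  rw [h2]; simp

theorem exists_sigma {g : Equiv.Perm ℝ} (hg : g ∈ VV) : ∃ σ : Equiv.Perm Om, Loc σ ∧ Rel σ g := by
  obtain ⟨F, hF, hF2⟩ := exists_F hg
  obtain ⟨F', hF', hF'2⟩ := exists_F (VV.inv_mem hg)
  have hg0 := (mem_VV_iff_lev.1 hg).1
  have hg0' := (mem_VV_iff_lev.1 (VV.inv_mem hg)).1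
  have hc : Continuous F := continuous_iff_continuousAt.2 fun w => (hF w).cont
  have hc' : Continuous F' := continuous_iff_continuousAt.2 fun w => (hF' w).cont
  have h1 : (fun y => F' (F y)) = fun y => y := by
    apply Continuous.ext_on E_dense (hc'.comp hc) continuous_id
    rintro _ ⟨x, hx, rfl⟩
    show F' (F (E x)) = E x
    rw [hF2 x hx, hF'2 _ ((perm_mem_Ico hg0).2 hx), pia]
  have h2 : (fun y => F (F' y)) = fun y => y := by
    apply Continuous.ext_on E_dense (hc.comp hc') continuous_id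
    rintro _ ⟨x, hx, rfl⟩
    show F (F' (E x)) = E x
    rw [hF'2 x hx, hF2 _ ((perm_mem_Ico hg0').2 hx), pai]
  exact ⟨⟨F, F', fun y => congrFun h1 y, fun y => congrFun h2 y⟩, hF,
    fun x hx => ⟨(perm_mem_Ico hg0).2 hx, (hF2 x hx).symm⟩, hg0⟩

theorem exists_g {σ : Equiv.Perm Om} (hσ : Loc σ) : ∃ g ∈ VV, Rel σ g := by
  classical
  have key : ∀ {σ : Equiv.Perm Om}, Loc σ → ∀ x ∈ Ico (0 : ℝ) 1, ∃ z ∈ Ico (0 : ℝ) 1, E z = σ (E x) := by
    intro σ hσ x hx
    obtain ⟨u, v, hu, huv⟩ := hσ (E x)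
    obtain ⟨x', hx', hxx⟩ := exists_A hx hu
    refine ⟨A v x', A_mem v hx', ?_⟩
    have h3 : E x = app u (E x') := by
      conv_lhs => rw [hxx]
      exact E_A _ hx'
    rw [h3, huv, E_A v hx']
  have key2 : ∀ {σ : Equiv.Perm Om}, Loc σ → ∃ f : ℝ → ℝ, (∀ x ∈ Ico (0 : ℝ) 1, f x ∈ Ico (0 : ℝ) 1 ∧ E (f x) = σ (E x)) ∧
      ∀ x, x ∉ Ico (0 : ℝ) 1 → f x = x := by
    intro σ hσ
    choose! f hf using key hσ
    refine ⟨fun x => if x ∈ Ico (0 : ℝ) 1 then f x else x, fun x hx => ?_, fun x hx => if_neg hx⟩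
    simp only [if_pos hx]
    exact hf x hx
  obtain ⟨f, hf1, hf2⟩ := key2 hσ
  obtain ⟨f', hf1', hf2'⟩ := key2 (Loc.inv hσ)
  let g : Equiv.Perm ℝ :=
    { toFun := f
      invFun := f'
      left_inv := by
        intro x
        by_cases hx : x ∈ Ico (0 : ℝ) 1
        · obtain ⟨h1, h2⟩ := hf1 x hx
          obtain ⟨h3, h4⟩ := hf1' _ h1
          apply E_inj h3 hx
          rw [h4, h2]; simp
        · rw [hf2 x hx, hf2' x hx]
      right_inv := by
        intro x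
        by_cases hx : x ∈ Ico (0 : ℝ) 1
        · obtain ⟨h1, h2⟩ := hf1' x hx
          obtain ⟨h3, h4⟩ := hf1 _ h1
          apply E_inj h3 hx
          rw [h4, h2]; simp
        · rw [hf2' x hx, hf2 x hx] }
  have hg1 : ∀ x ∈ Ico (0 : ℝ) 1, g x ∈ Ico (0 : ℝ) 1 ∧ E (g x) = σ (E x) := hf1
  have hg2 : ∀ x, x ∉ Ico (0 : ℝ) 1 → g x = x := hf2
  refine ⟨g, mem_VV_iff_lev.2 ⟨hg2, ?_⟩, hg1, hg2⟩
  obtain ⟨N, hN⟩ := LA.level (f := ⇑σ) hσ
  refine ⟨N, ?_⟩
  rintro p ⟨m, rfl⟩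
  have hpos : (0 : ℝ) < 2 ^ N := by positivity
  by_cases hm : 0 ≤ m ∧ m < 2 ^ N
  · obtain ⟨M, hM⟩ := Int.eq_ofNat_of_zero_le hm.1
    subst hM
    obtain ⟨w, hw1, hw2⟩ := exists_word N M (by exact_mod_cast hm.2)
    obtain ⟨v, hv⟩ := hN w hw1.ge
    have hvpos : (0 : ℝ) < 2 ^ v.length := by positivity
    refine ⟨(N : ℤ) - v.length, ((num v : ℝ) - num w) / 2 ^ v.length, ⟨(num v : ℤ) - num w, v.length, by push_cast; rfl⟩, ?_⟩
    intro x hx
    obtain ⟨hx1, hx2⟩ := hx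
    push_cast at hx1 hx2
    have hx' : 2 ^ N * x - num w ∈ Ico (0 : ℝ) 1 := by
      rw [hw2]
      constructor
      · rw [div_le_iff₀ hpos] at hx1; linarith
      · rw [← add_div, lt_div_iff₀ hpos] at hx2; linarith
    have hxA : x = A w (2 ^ N * x - num w) := by
      rw [A_eq, hw1]; field_simp; ring
    have hxI : x ∈ Ico (0 : ℝ) 1 := by rw [hxA]; exact A_mem w hx'
    have hgx : g x = A v (2 ^ N * x - num w) := by
      apply E_inj (hg1 x hxI).1 (A_mem v hx')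
      rw [(hg1 x hxI).2, E_A v hx', ← hv, ← E_A w hx', ← hxA]
    rw [hgx, A_eq, zpow_sub₀ (by norm_num), zpow_natCast, zpow_natCast]
    field_simp
    ring
  · refine ⟨0, 0, Dy.zero, fun x hx => ?_⟩
    rw [hg2 x, zpow_zero, one_mul, add_zero]
    rintro ⟨hx0, hx1⟩
    apply hm
    obtain ⟨hx2, hx3⟩ := hx
    rw [← add_div] at hx3
    constructor
    · have : (0 : ℝ) < (m + 1) / 2 ^ N := hx0.trans_lt hx3
      have h2 : (0 : ℝ) < (m + 1 : ℝ) := by
        rcases div_pos_iff.1 this with h | h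
        · exact h.1
        · linarith [h.2]
      have h3 : 0 < m + 1 := by exact_mod_cast h2
      omega
    · have : (m : ℝ) / 2 ^ N < 1 := hx2.trans_lt hx1
      rw [div_lt_one hpos] at this
      exact_mod_cast this

end Pool.Agent.Thompson.VC

namespace Pool.Agent.Thompson

/-- **Every element of Thompson's group `V` is a commutator.** -/
theorem partV : ∀ g ∈ VV, ∃ a ∈ VV, ∃ b ∈ VV, g = a * b * a⁻¹ * b⁻¹ := by
  intro g hg
  obtain ⟨σ, hσ, hrel⟩ := VC.exists_sigma hg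
  obtain ⟨p, q, hp, hq, hpq⟩ := VC.commutator_V hσ
  obtain ⟨a, ha, hpa⟩ := VC.exists_g hp
  obtain ⟨b, hb, hqb⟩ := VC.exists_g hq
  refine ⟨a, ha, b, hb, hrel.unique ?_⟩
  rw [hpq]
  exact ((hpa.mul hqb).mul hpa.inv).mul hqb.inv

end Pool.Agent.Thompson
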