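import Pool.Agent.Thompson.FGroup

set_option autoImplicit false

/-!
# Elements of T and their lifts to the line
-/

namespace Pool.Agent.Thompson

open Set Filter Topology

theorem OnG.fract {N : ℕ} {u : ℝ} (hu : OnG N u) : OnG N (Int.fract u) := by
  obtain ⟨m, rfl⟩ := hu
  refine ⟨m - ⌊(m : ℝ) / 2 ^ N⌋ * 2 ^ N, ?_⟩
  rw [Int.fract]
  push_cast
  field_simp

theorem OnG.sub {N : ℕ} {u v : ℝ} (hu : OnG N u) (hv : OnG N v) : OnG N (u - v) := by
  obtain ⟨m, rfl⟩ := hu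
  obtain ⟨m', rfl⟩ := hv
  exact ⟨m - m', by push_cast; ring⟩

theorem OnG.add {N : ℕ} {u v : ℝ} (hu : OnG N u) (hv : OnG N v) : OnG N (u + v) := by
  obtain ⟨m, rfl⟩ := hu
  obtain ⟨m', rfl⟩ := hv
  exact ⟨m + m', by push_cast; ring⟩

/-- the property of being a lift of `σ` -/
def IsLift (σ a : Equiv.Perm ℝ) : Prop :=
  a ∈ G ∧ (∀ t, a (t + 1) = a t + 1) ∧ ∀ t, σ (Int.fract t) = Int.fract (a t)

theorem IsLift.one : IsLift 1 1 := ⟨G.one_mem, fun _ => rfl, fun _ => rfl⟩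

theorem IsLift.mul {σ τ a b : Equiv.Perm ℝ} (h : IsLift σ a) (h' : IsLift τ b) : IsLift (σ * τ) (a * b) := by
  refine ⟨G.mul_mem h.1 h'.1, fun t => ?_, fun t => ?_⟩
  · rw [Equiv.Perm.mul_apply, Equiv.Perm.mul_apply, h'.2.1, h.2.1]
  · rw [Equiv.Perm.mul_apply, Equiv.Perm.mul_apply, h'.2.2, h.2.2]

theorem IsLift.inv {σ a : Equiv.Perm ℝ} (h : IsLift σ a) : IsLift σ⁻¹ a⁻¹ := by
  refine ⟨G.inv_mem h.1, fun t => ?_, fun t => ?_⟩
  · apply pinv_eq
    rw [h.2.1, pai]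
  · apply pinv_eq
    rw [h.2.2, pai]

theorem floor_cell {N : ℕ} {u v x : ℝ} (hu : OnG N u) (hv : OnG N v) (h1 : u ≤ x) (h2 : x < u + 1 / 2 ^ N) :
    ⌊x - v⌋ = ⌊u - v⌋ := by
  rw [Int.floor_eq_iff]
  constructor
  · have := Int.floor_le (u - v)
    linarith
  · have h3 := Int.lt_floor_add_one (u - v)
    have h4 : OnG N (v + (⌊u - v⌋ + 1 : ℤ)) := hv.add (OnG.int _)
    have := hu.step_le h4 (by push_cast; linarith)
    push_cast at this
    linarith

theorem exists_lift_of_Tset {σ : Equiv.Perm ℝ} (h : σ ∈ Tset) : ∃ a, IsLift σ a := by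
  obtain ⟨hV, t, ht, hc1, hc2, hm1, hm2, ht0⟩ := h
  obtain ⟨h0, N0, hN0⟩ := mem_VV_iff_lev.1 hV
  have hmem : ∀ x : ℝ, σ x ∈ Ico (0:ℝ) 1 ↔ x ∈ Ico (0:ℝ) 1 := fun x => perm_mem_Ico h0
  -- the point t is dyadic
  obtain ⟨u0, hu0, hu1, hu2⟩ := exists_cell N0 t
  have htd : Dy t := by
    obtain ⟨k, c, hc, hk⟩ := hN0 u0 hu0
    have h1 := hk t ⟨hu1, hu2⟩
    rw [ht0] at h1
    rw [← Dy.affine_iff k hc, ← h1]
    exact Dy.zero
  obtain ⟨N1, hN1⟩ := htd.onG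
  obtain ⟨N, hNN0, hNN1⟩ : ∃ N, N0 ≤ N ∧ N1 ≤ N := ⟨max N0 N1, by omega, by omega⟩
  have hN := hN0.mono hNN0
  have htN := hN1.mono hNN1
  -- the two arcs are ordered
  have hord : ∀ x y, x ∈ Ico t 1 → y ∈ Ico 0 t → σ x < σ y := by
    intro x y hx hy
    by_contra hle
    push Not at hle
    have hy0 : 0 ≤ σ y := ((hmem y).2 ⟨hy.1, hy.2.trans ht.2⟩).1
    have hsub : Icc t x ⊆ Ico t 1 := fun z hz => ⟨hz.1, hz.2.trans_lt hx.2⟩
    obtain ⟨z, hz, hz2⟩ := intermediate_value_Icc hx.1 (hc2.mono hsub) ⟨by rw [ht0]; exact hy0, hle⟩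
    have := σ.injective hz2
    rw [this] at hz
    linarith [hz.1, hy.2]
  let F : ℝ → ℝ := fun x => σ (Int.fract x) + ⌊x - t⌋
  have hF : ∀ x, F x = σ (Int.fract x) + ⌊x - t⌋ := fun x => rfl
  have hs01 : ∀ x : ℝ, 0 ≤ σ (Int.fract x) ∧ σ (Int.fract x) < 1 := by
    intro x
    exact (hmem _).2 ⟨Int.fract_nonneg x, Int.fract_lt_one x⟩
  have hper : ∀ x, ∀ n : ℤ, F (x + n) = F x + n := by
    intro x n
    simp only [hF]
    rw [Int.fract_add_intCast]
    have : x + (n : ℝ) - t = (x - t) + n := by ring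
    rw [this, Int.floor_add_intCast]
    push_cast; ring
  -- description on the fundamental domain [t, t+1)
  have hdom1 : ∀ x ∈ Ico t 1, F x = σ x := by
    intro x hx
    rw [hF, Int.fract_eq_self.2 ⟨ht.1.trans hx.1, hx.2⟩]
    have : ⌊x - t⌋ = 0 := by
      rw [Int.floor_eq_iff]; push_cast
      exact ⟨by linarith [hx.1], by linarith [hx.2, ht.1]⟩
    rw [this]; simp
  have hdom2 : ∀ x ∈ Ico 1 (t + 1), F x = σ (x - 1) := by
    intro x hx
    have e : Int.fract x = x - 1 := by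
      rw [Int.fract_eq_iff]
      exact ⟨by linarith [hx.1], by linarith [hx.2, ht.2], 1, by push_cast; ring⟩
    rw [hF, e]
    have : ⌊x - t⌋ = 0 := by
      rw [Int.floor_eq_iff]; push_cast
      exact ⟨by linarith [hx.1, ht.2], by linarith [hx.2]⟩
    rw [this]; simp
  have hmono0 : ∀ x y, x ∈ Ico t (t + 1) → y ∈ Ico t (t + 1) → x < y → F x < F y := by
    intro x y hx hy hxy
    rcases lt_or_ge y 1 with hy1 | hy1
    · rw [hdom1 x ⟨hx.1, hxy.trans hy1⟩, hdom1 y ⟨hy.1, hy1⟩]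
      exact hm2 ⟨hx.1, hxy.trans hy1⟩ ⟨hy.1, hy1⟩ hxy
    · rcases lt_or_ge x 1 with hx1 | hx1
      · rw [hdom1 x ⟨hx.1, hx1⟩, hdom2 y ⟨hy1, hy.2⟩]
        exact hord x (y - 1) ⟨hx.1, hx1⟩ ⟨by linarith, by linarith [hy.2]⟩
      · rw [hdom2 x ⟨hx1, hx.2⟩, hdom2 y ⟨hy1, hy.2⟩]
        exact hm1 ⟨by linarith, by linarith [hx.2]⟩ ⟨by linarith, by linarith [hy.2]⟩ (by linarith)
  have hfl : ∀ x, ((⌊x - t⌋ : ℤ) : ℝ) ≤ F x ∧ F x < (⌊x - t⌋ : ℤ) + 1 := by
    intro x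
    have := hs01 x
    rw [hF]
    constructor <;> linarith [this.1, this.2]
  have hmono : StrictMono F := by
    intro x y hxy
    have hle : ⌊x - t⌋ ≤ ⌊y - t⌋ := Int.floor_le_floor (by linarith)
    rcases hle.lt_or_eq with hlt | heq
    · have h1 := (hfl x).2
      have h2 := (hfl y).1
      have h3 : ((⌊x - t⌋ : ℤ) : ℝ) + 1 ≤ (⌊y - t⌋ : ℤ) := by exact_mod_cast hlt
      linarith
    · have e1 := hper (x + (-⌊x - t⌋ : ℤ)) ⌊x - t⌋
      have e2 := hper (y + (-⌊y - t⌋ : ℤ)) ⌊y - t⌋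
      have e3 : x + ((-⌊x - t⌋ : ℤ) : ℝ) + (⌊x - t⌋ : ℤ) = x := by push_cast; ring
      have e4 : y + ((-⌊y - t⌋ : ℤ) : ℝ) + (⌊y - t⌋ : ℤ) = y := by push_cast; ring
      rw [e3] at e1
      rw [e4] at e2
      rw [e1, e2, ← heq]
      have a1 := Int.floor_le (x - t)
      have a2 := Int.lt_floor_add_one (x - t)
      have a3 := Int.floor_le (y - t)
      have a4 := Int.lt_floor_add_one (y - t)
      rw [← heq] at a3 a4
      have := hmono0 (x + (-⌊x - t⌋ : ℤ)) (y + (-⌊x - t⌋ : ℤ)) ⟨by push_cast; linarith, by push_cast; linarith⟩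
        ⟨by push_cast; linarith, by push_cast; linarith⟩ (by linarith)
      linarith
  have hsurj : Function.Surjective F := by
    intro y
    have hz : σ⁻¹ (Int.fract y) ∈ Ico (0:ℝ) 1 := by
      rw [← hmem, pai]
      exact ⟨Int.fract_nonneg y, Int.fract_lt_one y⟩
    refine ⟨σ⁻¹ (Int.fract y) + (⌊y⌋ - ⌊σ⁻¹ (Int.fract y) - t⌋ : ℤ), ?_⟩
    rw [hper, hF, Int.fract_eq_self.2 hz, pai]
    push_cast
    have := Int.floor_add_fract y
    linarith
  refine ⟨Equiv.ofBijective F ⟨hmono.injective, hsurj⟩, mem_G_of_lev (N := N) hmono ?_, ?_, ?_⟩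
  · intro u hu
    obtain ⟨k, c, hc, hk⟩ := hN (Int.fract u) hu.fract
    refine ⟨k, c - (2 : ℝ) ^ k * ⌊u⌋ + ⌊u - t⌋,
      ((hc.sub ((Dy.zpow k).mul (Dy.of_int _))).add (Dy.of_int _)), fun x hx => ?_⟩
    have e1 : ⌊x⌋ = ⌊u⌋ := by
      have := floor_cell hu (OnG.zero (N := N)) hx.1 hx.2
      simpa using this
    have e2 : ⌊x - t⌋ = ⌊u - t⌋ := floor_cell hu htN hx.1 hx.2
    change F x = _
    rw [hF, hk, e2, Int.fract, e1]
    · ring
    · rw [Int.fract, Int.fract, e1]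
      exact ⟨by linarith [hx.1], by linarith [hx.2]⟩
  · intro x
    change F (x + 1) = F x + 1
    have := hper x 1
    simpa using this
  · intro x
    change σ (Int.fract x) = Int.fract (F x)
    rw [hF, Int.fract_add_intCast, Int.fract_eq_self.2 (hs01 x)]

/-- **Every element of T has a lift.** -/
theorem exists_lift {σ : Equiv.Perm ℝ} (h : σ ∈ TT) : ∃ a, IsLift σ a := by
  induction h using Subgroup.closure_induction with
  | mem x hx => exact exists_lift_of_Tset hx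
  | one => exact ⟨1, IsLift.one⟩
  | mul x y _ _ hx hy =>
    obtain ⟨a, ha⟩ := hx
    obtain ⟨b, hb⟩ := hy
    exact ⟨a * b, ha.mul hb⟩
  | inv x _ hx =>
    obtain ⟨a, ha⟩ := hx
    exact ⟨a⁻¹, ha.inv⟩

theorem TT_le_VV : TT ≤ VV := (Subgroup.closure_le _).2 (fun _ h => h.1)

theorem FF_le_VV : FF ≤ VV := (Subgroup.closure_le _).2 (fun _ h => h.1)

theorem VV_off {σ : Equiv.Perm ℝ} (h : σ ∈ VV) {x : ℝ} (hx : x ∉ Ico (0:ℝ) 1) : σ x = x :=
  (mem_VV_iff_lev.1 h).1 x hx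

theorem per_int {a : Equiv.Perm ℝ} (h : ∀ t, a (t + 1) = a t + 1) (t : ℝ) (n : ℤ) : a (t + n) = a t + n := by
  induction n using Int.induction_on with
  | zero => simp
  | succ i ih =>
    push_cast at *
    rw [← add_assoc, h, ih]; ring
  | pred i ih =>
    push_cast at *
    have := h (t + (-(i : ℝ) - 1))
    rw [show t + (-(i : ℝ) - 1) + 1 = t + -i by ring, ih] at this
    linarith

/-- the circle permutation induced by a periodic homeomorphism -/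
theorem exists_of_lift {a : Equiv.Perm ℝ} (ha : a ∈ G) (hp : ∀ t, a (t + 1) = a t + 1) :
    ∃ σ ∈ TT, IsLift σ a := by
  have hai := G.inv_mem ha
  have hpi : ∀ t, a⁻¹ (t + 1) = a⁻¹ t + 1 := fun t => pinv_eq (by rw [hp, pai])
  classical
  let f : ℝ → ℝ := fun x => if x ∈ Ico (0:ℝ) 1 then Int.fract (a x) else x
  let g : ℝ → ℝ := fun x => if x ∈ Ico (0:ℝ) 1 then Int.fract (a⁻¹ x) else x
  have hfr : ∀ x : ℝ, Int.fract x ∈ Ico (0:ℝ) 1 := fun x => ⟨Int.fract_nonneg x, Int.fract_lt_one x⟩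
  have key : ∀ (b : Equiv.Perm ℝ), (∀ t, b (t + 1) = b t + 1) → ∀ t, Int.fract (b (Int.fract t)) = Int.fract (b t) := by
    intro b hb t
    have : Int.fract t = t + ((-⌊t⌋ : ℤ) : ℝ) := by rw [Int.fract]; push_cast; ring
    rw [this, per_int hb, Int.fract_add_intCast]
  have hfg : ∀ x, f (g x) = x := by
    intro x
    simp only [f, g]
    by_cases hx : x ∈ Ico (0:ℝ) 1
    · rw [if_pos hx, if_pos (hfr _), key a hp, pai, Int.fract_eq_self.2 hx]
    · rw [if_neg hx, if_neg hx]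
  have hgf : ∀ x, g (f x) = x := by
    intro x
    simp only [f, g]
    by_cases hx : x ∈ Ico (0:ℝ) 1
    · rw [if_pos hx, if_pos (hfr _), key a⁻¹ hpi, pia, Int.fract_eq_self.2 hx]
    · rw [if_neg hx, if_neg hx]
  let σ : Equiv.Perm ℝ := ⟨f, g, hgf, hfg⟩
  have hσ : ∀ x, σ x = if x ∈ Ico (0:ℝ) 1 then Int.fract (a x) else x := fun x => rfl
  have hσ0 : ∀ x ∉ Ico (0:ℝ) 1, σ x = x := fun x hx => by rw [hσ, if_neg hx]
  have hσ1 : ∀ x ∈ Ico (0:ℝ) 1, σ x = Int.fract (a x) := fun x hx => by rw [hσ, if_pos hx]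
  have hlift : ∀ t, σ (Int.fract t) = Int.fract (a t) := by
    intro t
    rw [hσ1 _ (hfr t), key a hp]
  -- the zero of σ
  set n0 : ℤ := ⌈a 0⌉ with hn0
  set t0 : ℝ := a⁻¹ n0 with ht0
  have hat0 : a t0 = n0 := pai a _
  have ht0d : Dy t0 := G.dy hai (Dy.of_int _)
  have ht1 : 0 ≤ t0 := by
    rw [ht0, ← G.le_iff ha, pai]
    exact Int.le_ceil _
  have ht2 : t0 < 1 := by
    rw [ht0, ← G.lt_iff ha, pai]
    have := Int.ceil_lt_add_one (a 0)
    have e := hp 0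
    rw [zero_add] at e
    rw [e]; exact this
  -- floor of a on [0,t0) and [t0,1)
  have hval1 : ∀ x ∈ Ico 0 t0, σ x = a x - (n0 - 1) := by
    intro x hx
    rw [hσ1 x ⟨hx.1, hx.2.trans ht2⟩, Int.fract_eq_iff]
    have h1 : a x < n0 := by rw [← hat0]; exact (G.lt_iff ha).2 hx.2
    have h2 : a 0 ≤ a x := (G.le_iff ha).2 hx.1
    have h3 := Int.ceil_lt_add_one (a 0)
    refine ⟨by rw [hn0]; linarith, by linarith, n0 - 1, by push_cast; ring⟩
  have hval2 : ∀ x ∈ Ico t0 1, σ x = a x - n0 := by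
    intro x hx
    rw [hσ1 x ⟨ht1.trans hx.1, hx.2⟩, Int.fract_eq_iff]
    have h1 : (n0 : ℝ) ≤ a x := by rw [← hat0]; exact (G.le_iff ha).2 hx.1
    have h2 : a x < a 0 + 1 := by
      have e := hp 0
      rw [zero_add] at e
      rw [← e]; exact (G.lt_iff ha).2 hx.2
    have h3 := Int.le_ceil (a 0)
    refine ⟨by linarith, by rw [hn0]; linarith, n0, by push_cast; ring⟩
  have hV : σ ∈ VV := by
    rw [mem_VV_iff_lev]
    refine ⟨hσ0, ?_⟩
    obtain ⟨N1, hN1⟩ := G.exists_level ha 0 1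
    obtain ⟨N2, hN2⟩ := ht0d.onG
    refine ⟨max N1 N2, fun u hu => ?_⟩
    have ht0N := hN2.mono (le_max_right N1 N2)
    by_cases hu1 : 0 ≤ u ∧ u < 1
    · obtain ⟨k, c, hc, hk⟩ := hN1 _ (le_max_left _ _) u hu hu1.1 hu1.2.le
      rcases lt_or_ge u t0 with hut | hut
      · have h1 := hu.step_le ht0N hut
        refine ⟨k, c - ((n0 - 1 : ℤ) : ℝ), hc.sub (Dy.of_int _), fun x hx => ?_⟩
        rw [hval1 x ⟨hu1.1.trans hx.1, hx.2.trans_le h1⟩, hk x hx]
        push_cast; ring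
      · have h1 := hu.step_le OnG.one hu1.2
        refine ⟨k, c - n0, hc.sub (Dy.of_int _), fun x hx => ?_⟩
        rw [hval2 x ⟨hut.trans hx.1, hx.2.trans_le h1⟩, hk x hx]
        ring
    · refine ⟨0, 0, Dy.zero, fun x hx => ?_⟩
      have hx' : x ∉ Ico (0:ℝ) 1 := by
        rintro ⟨hx0, hx1⟩
        apply hu1
        refine ⟨?_, hx.1.trans_lt hx1⟩
        by_contra hneg
        push Not at hneg
        have := hu.step_le OnG.zero hneg
        linarith [hx.2]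
      rw [hσ0 x hx', zpow_zero, one_mul, add_zero]
  refine ⟨σ, Subgroup.subset_closure ⟨hV, t0, ⟨ht1, ht2⟩, ?_, ?_, ?_, ?_, ?_⟩, ha, hp, hlift⟩
  · have : ContinuousOn (fun x => a x - (n0 - 1)) (Ico 0 t0) := ((G.continuous ha).sub continuous_const).continuousOn
    exact this.congr hval1
  · have : ContinuousOn (fun x => a x - n0) (Ico t0 1) := ((G.continuous ha).sub continuous_const).continuousOn
    exact this.congr hval2
  · intro x hx y hy hxy
    rw [hval1 x hx, hval1 y hy]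
    have := (G.lt_iff ha).2 hxy
    linarith
  · intro x hx y hy hxy
    rw [hval2 x hx, hval2 y hy]
    have := (G.lt_iff ha).2 hxy
    linarith
  · rw [hval2 t0 ⟨le_rfl, ht2⟩, hat0]; ring

end Pool.Agent.Thompson
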