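import Pool.Agent.Thompson.FFinal
import Pool.Agent.Thompson.TLift

set_option autoImplicit false

/-!
# Every element of T is a product of two commutators
-/

namespace Pool.Agent.Thompson

open Set Filter Topology

/-- periodization -/
theorem exists_periodize {v : Equiv.Perm ℝ} (hv : v ∈ G) {p : ℝ} (hp : Dy p) (h : v (p + 1) = v p + 1) :
    ∃ b ∈ G, (∀ t, b (t + 1) = b t + 1) ∧ ∀ x, p ≤ x → x ≤ p + 1 → b x = v x := by
  let F : ℝ → ℝ := fun x => v (x - ⌊x - p⌋) + ⌊x - p⌋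
  have hF : ∀ x, F x = v (x - ⌊x - p⌋) + ⌊x - p⌋ := fun x => rfl
  have hper : ∀ x, ∀ n : ℤ, F (x + n) = F x + n := by
    intro x n
    simp only [hF]
    have : x + (n : ℝ) - p = (x - p) + n := by ring
    rw [this, Int.floor_add_intCast]
    push_cast
    have e : x + (n : ℝ) - (⌊x - p⌋ + n) = x - ⌊x - p⌋ := by ring
    rw [e]; ring
  have hdom : ∀ x, p ≤ x → x < p + 1 → F x = v x := by
    intro x h1 h2
    have : ⌊x - p⌋ = 0 := by
      rw [Int.floor_eq_iff]; push_cast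
      exact ⟨by linarith, by linarith⟩
    rw [hF, this]; simp
  have hbd : ∀ x, p ≤ x - ⌊x - p⌋ ∧ x - ⌊x - p⌋ < p + 1 := by
    intro x
    have h1 := Int.floor_le (x - p)
    have h2 := Int.lt_floor_add_one (x - p)
    constructor <;> linarith
  have hfl : ∀ x, v p + ((⌊x - p⌋ : ℤ) : ℝ) ≤ F x ∧ F x < v p + ((⌊x - p⌋ : ℤ) + 1) := by
    intro x
    have h1 := (G.le_iff hv).2 (hbd x).1
    have h2 := (G.lt_iff hv).2 (hbd x).2
    rw [h] at h2
    rw [hF]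
    constructor <;> linarith
  have hmono : StrictMono F := by
    intro x y hxy
    have hle : ⌊x - p⌋ ≤ ⌊y - p⌋ := Int.floor_le_floor (by linarith)
    rcases hle.lt_or_eq with hlt | heq
    · have h1 := (hfl x).2
      have h2 := (hfl y).1
      have h3 : ((⌊x - p⌋ : ℤ) : ℝ) + 1 ≤ (⌊y - p⌋ : ℤ) := by exact_mod_cast hlt
      linarith
    · rw [hF, hF, ← heq]
      have := (G.lt_iff hv).2 (show x - (⌊x - p⌋ : ℝ) < y - ⌊x - p⌋ by linarith)
      linarith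
  have hsurj : Function.Surjective F := by
    intro y
    set n : ℤ := ⌊y - v p⌋ with hn
    have h1 := Int.floor_le (y - v p)
    have h2 := Int.lt_floor_add_one (y - v p)
    rw [← hn] at h1 h2
    have h3 : p ≤ v⁻¹ (y - n) := by rw [le_pinv hv]; linarith
    have h4 : v⁻¹ (y - n) < p + 1 := by rw [pinv_lt hv, h]; linarith
    refine ⟨v⁻¹ (y - n) + n, ?_⟩
    rw [hper, hdom _ h3 h4, pai]; ring
  refine ⟨Equiv.ofBijective F ⟨hmono.injective, hsurj⟩, ?_, ?_, ?_⟩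
  · obtain ⟨N1, hN1⟩ := G.exists_level hv p (p + 1)
    obtain ⟨N2, hN2⟩ := hp.onG
    have hpN := hN2.mono (le_max_right N1 N2)
    refine mem_G_of_lev (N := max N1 N2) hmono ?_
    intro u hu
    have hu' : OnG (max N1 N2) (u - ⌊u - p⌋) := hu.sub (OnG.int _)
    obtain ⟨k, c, hc, hk⟩ := hN1 _ (le_max_left _ _) (u - ⌊u - p⌋) hu' (hbd u).1 (hbd u).2.le
    refine ⟨k, c - (2 : ℝ) ^ k * ⌊u - p⌋ + ⌊u - p⌋,
      ((hc.sub ((Dy.zpow k).mul (Dy.of_int _))).add (Dy.of_int _)), fun x hx => ?_⟩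
    have e1 : ⌊x - p⌋ = ⌊u - p⌋ := floor_cell hu hpN hx.1 hx.2
    change F x = _
    rw [hF, e1, hk]
    · ring
    · exact ⟨by linarith [hx.1], by linarith [hx.2]⟩
  · intro x
    change F (x + 1) = F x + 1
    have := hper x 1
    simpa using this
  · intro x h1 h2
    change F x = v x
    rcases h2.lt_or_eq with h2 | rfl
    · exact hdom x h1 h2
    · have := hper p 1
      simp only [Int.cast_one] at this
      rw [this, hdom p le_rfl (by linarith), h]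

theorem periodic_ext {a b : Equiv.Perm ℝ} (ha : ∀ t, a (t + 1) = a t + 1) (hb : ∀ t, b (t + 1) = b t + 1) (p : ℝ)
    (h : ∀ x, p ≤ x → x ≤ p + 1 → a x = b x) : a = b := by
  ext x
  have h1 := Int.floor_le (x - p)
  have h2 := Int.lt_floor_add_one (x - p)
  have e1 := per_int ha (x - ⌊x - p⌋) ⌊x - p⌋
  have e2 := per_int hb (x - ⌊x - p⌋) ⌊x - p⌋
  rw [sub_add_cancel] at e1 e2
  rw [e1, e2, h _ (by linarith) (by linarith)]

theorem per_mul {a b : Equiv.Perm ℝ} (ha : ∀ t, a (t + 1) = a t + 1) (hb : ∀ t, b (t + 1) = b t + 1) :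
    ∀ t, (a * b) (t + 1) = (a * b) t + 1 := fun t => by
  rw [Equiv.Perm.mul_apply, hb, ha]; rfl

theorem per_inv {a : Equiv.Perm ℝ} (ha : ∀ t, a (t + 1) = a t + 1) : ∀ t, a⁻¹ (t + 1) = a⁻¹ t + 1 := fun t =>
  pinv_eq (by rw [ha, pai])

/-- a periodic element fixing an interval pointwise is a commutator of periodic elements -/
theorem periodic_comm {c : Equiv.Perm ℝ} (hc : c ∈ G) (hper : ∀ t, c (t + 1) = c t + 1) {p p' : ℝ} (hp : Dy p)
    (_hp' : Dy p') (hpp : p < p') (h : ∀ x, p ≤ x → x ≤ p' → c x = x) :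
    ∃ w ∈ G, (∀ t, w (t + 1) = w t + 1) ∧ ∃ s ∈ G, (∀ t, s (t + 1) = s t + 1) ∧ c = w * s * w⁻¹ * s⁻¹ := by
  -- may assume p' < p + 1
  obtain ⟨r, hr, hr1, hr2⟩ := exists_dy_btwn (show p < min p' (p + 1) from lt_min hpp (by linarith))
  have hr3 := hr2.trans_le (min_le_left _ _)
  have hr4 := hr2.trans_le (min_le_right _ _)
  have hp1 : c (p + 1) = p + 1 := by rw [hper, h p le_rfl hpp.le]
  obtain ⟨c1, hc1, c1a, c1b⟩ := exists_glue G.one_mem hc hr (by rw [h r hr1.le hr3.le]; rfl)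
  obtain ⟨c2, hc2, c2a, c2b⟩ := exists_glue hc1 G.one_mem (hp.add Dy.one) (by rw [c1b _ hr4.le, hp1]; rfl)
  have hsp : Sp c2 r (p + 1) := ⟨fun x hx => by rw [c2a x (by linarith), c1a x hx]; rfl, fun x hx => by rw [c2b x hx]; rfl⟩
  obtain ⟨m, hm, hm1, hm2⟩ := exists_dy_btwn hr1
  obtain ⟨w, hw, s, hs, hws⟩ := comm_of_supp hc2 hsp hm (hm.add Dy.one) hm2 (by linarith)
  obtain ⟨w', hw', wper, wag⟩ := exists_periodize hw.1 hm (by rw [hw.2.1 m le_rfl, hw.2.2 _ le_rfl])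
  obtain ⟨s', hs', sper, sag⟩ := exists_periodize hs.1 hm (by rw [hs.2.1 m le_rfl, hs.2.2 _ le_rfl])
  refine ⟨w', hw', wper, s', hs', sper, ?_⟩
  refine periodic_ext hper (per_mul (per_mul (per_mul wper sper) (per_inv wper)) (per_inv sper)) m (fun x hx1 hx2 => ?_)
  -- interval preservation
  have pres : ∀ {e : Equiv.Perm ℝ}, e ∈ GI m (m + 1) → ∀ y, m ≤ y → y ≤ m + 1 → m ≤ e y ∧ e y ≤ m + 1 := by
    intro e he y h1 h2
    have e1 := (G.le_iff he.1).2 h1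
    have e2 := (G.le_iff he.1).2 h2
    rw [he.2.1 m le_rfl] at e1
    rw [he.2.2 _ le_rfl] at e2
    exact ⟨e1, e2⟩
  have hwi := (GI m (m + 1)).inv_mem hw
  have hsi := (GI m (m + 1)).inv_mem hs
  have wiag : ∀ y, m ≤ y → y ≤ m + 1 → w'⁻¹ y = w⁻¹ y := by
    intro y h1 h2
    apply pinv_eq
    obtain ⟨e1, e2⟩ := pres hwi y h1 h2
    rw [wag _ e1 e2, pai]
  have siag : ∀ y, m ≤ y → y ≤ m + 1 → s'⁻¹ y = s⁻¹ y := by
    intro y h1 h2
    apply pinv_eq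
    obtain ⟨e1, e2⟩ := pres hsi y h1 h2
    rw [sag _ e1 e2, pai]
  obtain ⟨a1, a2⟩ := pres hsi x hx1 hx2
  obtain ⟨a3, a4⟩ := pres hwi _ a1 a2
  obtain ⟨a5, a6⟩ := pres hs _ a3 a4
  have e1 : (w' * s' * w'⁻¹ * s'⁻¹) x = c2 x := by
    rw [hws]
    simp only [Equiv.Perm.mul_apply]
    rw [siag x hx1 hx2, wiag _ a1 a2, sag _ a3 a4, wag _ a5 a6]
  rw [e1]
  -- c2 = c on [m, m+1]
  rcases le_total x r with h1 | h1
  · rw [c2a x (by linarith), c1a x h1, h x (by linarith) (by linarith)]; rfl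
  · rcases le_total x (p + 1) with h2 | h2
    · rw [c2a x h2, c1b x h1]
    · rw [c2b x h2]
      have : x = (x - 1) + 1 := by ring
      rw [this, hper, h (x - 1) (by linarith) (by linarith)]; rfl

theorem IsLift.unique {σ τ a : Equiv.Perm ℝ} (hσ : σ ∈ VV) (hτ : τ ∈ VV) (h : IsLift σ a) (h' : IsLift τ a) : σ = τ := by
  ext x
  by_cases hx : x ∈ Ico (0:ℝ) 1
  · have e := Int.fract_eq_self.2 hx
    have h1 := h.2.2 x
    have h2 := h'.2.2 x
    rw [e] at h1 h2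
    rw [h1, h2]
  · rw [VV_off hσ hx, VV_off hτ hx]

/-- **Part C1**: every element of T is a product of two commutators. -/
theorem partT_upper : ∀ g ∈ TT, ∃ a ∈ TT, ∃ b ∈ TT, ∃ c ∈ TT, ∃ d ∈ TT,
    g = (a * b * a⁻¹ * b⁻¹) * (c * d * c⁻¹ * d⁻¹) := by
  intro g hg
  obtain ⟨a0, ha0⟩ := exists_lift hg
  -- normalize a 0 in [0,1)
  set n : ℤ := ⌊a0 0⌋ with hn
  have htr : IsLift 1 (tr (-(n : ℝ))) := by
    refine ⟨tr_mem (Dy.of_int n).neg, fun t => by simp; ring, fun t => ?_⟩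
    rw [tr_apply, ← Int.cast_neg, Int.fract_add_intCast]; rfl
  have ha1 := htr.mul ha0
  rw [one_mul] at ha1
  set a : Equiv.Perm ℝ := tr (-(n : ℝ)) * a0 with ha
  obtain ⟨haG, haper, -⟩ := id ha1
  have a00 : 0 ≤ a 0 ∧ a 0 < 1 := by
    rw [ha, Equiv.Perm.mul_apply, tr_apply]
    have h1 := Int.floor_le (a0 0)
    have h2 := Int.lt_floor_add_one (a0 0)
    rw [← hn] at h1 h2
    constructor <;> linarith
  have a1 : a 1 = a 0 + 1 := by
    have := haper 0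
    rwa [zero_add] at this
  -- choose eps
  obtain ⟨ε, hε, hε0, hε1, hε2⟩ : ∃ ε, Dy ε ∧ 0 < ε ∧ ε < 1 ∧ a ε < 1 := by
    have h1 : 0 < a⁻¹ 1 := by rw [lt_pinv haG]; exact a00.2
    obtain ⟨ε, hε, h2, h3⟩ := exists_dy_btwn (show (0:ℝ) < min 1 (a⁻¹ 1) from lt_min one_pos h1)
    exact ⟨ε, hε, h2, h3.trans_le (min_le_left _ _), by
      rw [← lt_pinv haG]; exact h3.trans_le (min_le_right _ _)⟩
  obtain ⟨z, hz, hz1, hz2⟩ := exists_dy_btwn (show max ε (a ε) < 1 from max_lt hε1 hε2)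
  have hz3 := (le_max_left _ _).trans_lt hz1
  have hz4 := (le_max_right _ _).trans_lt hz1
  obtain ⟨z', hz', hz'1, hz'2⟩ := exists_dy_btwn hz2
  obtain ⟨u, hu, u1, u2⟩ := exists_splice haG G.one_mem hε hz hz3 (by simpa using hz4)
  obtain ⟨v, hv, v1, v2⟩ := exists_splice hu haG hz' Dy.one hz'2 (by
    rw [u2 z' hz'1.le, a1]
    simp only [Equiv.Perm.coe_one, id_eq]
    linarith [a00.1])
  have v0 : v 0 = a 0 := by rw [v1 0 (by linarith), u1 0 hε0.le]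
  have v11 : v (0 + 1) = v 0 + 1 := by rw [zero_add, v2 1 le_rfl, v0, a1]
  obtain ⟨f, hf, fper, fag⟩ := exists_periodize hv Dy.zero v11
  rw [zero_add] at fag
  -- f = id on [z,z'], f = a on [0,ε]
  obtain ⟨b1, hb1, b1p, b2, hb2, b2p, hfc⟩ := periodic_comm hf fper hz hz' hz'1 (fun x h1 h2 => by
    rw [fag x (by linarith) (by linarith), v1 x h2, u2 x h1]; rfl)
  obtain ⟨b3, hb3, b3p, b4, hb4, b4p, hfc2⟩ := periodic_comm (c := f⁻¹ * a) (G.mul_mem (G.inv_mem hf) haG)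
    (per_mul (per_inv fper) haper) Dy.zero hε hε0 (fun x h1 h2 => by
      rw [Equiv.Perm.mul_apply]
      apply pinv_eq
      rw [fag x h1 (by linarith), v1 x (by linarith), u1 x h2])
  obtain ⟨σ1, h1, l1⟩ := exists_of_lift hb1 b1p
  obtain ⟨σ2, h2, l2⟩ := exists_of_lift hb2 b2p
  obtain ⟨σ3, h3, l3⟩ := exists_of_lift hb3 b3p
  obtain ⟨σ4, h4, l4⟩ := exists_of_lift hb4 b4p
  refine ⟨σ1, h1, σ2, h2, σ3, h3, σ4, h4, ?_⟩
  have hl := (((l1.mul l2).mul l1.inv).mul l2.inv).mul (((l3.mul l4).mul l3.inv).mul l4.inv)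
  rw [← hfc, ← hfc2, mul_inv_cancel_left] at hl
  have hm : (σ1 * σ2 * σ1⁻¹ * σ2⁻¹) * (σ3 * σ4 * σ3⁻¹ * σ4⁻¹) ∈ TT :=
    TT.mul_mem (TT.mul_mem (TT.mul_mem (TT.mul_mem h1 h2) (TT.inv_mem h1)) (TT.inv_mem h2))
      (TT.mul_mem (TT.mul_mem (TT.mul_mem h3 h4) (TT.inv_mem h3)) (TT.inv_mem h4))
  exact IsLift.unique (TT_le_VV hg) (TT_le_VV hm) ha1 hl

theorem TT_le_commutator : TT ≤ ⁅TT, TT⁆ := by
  intro g hg
  obtain ⟨a, ha, b, hb, c, hc, d, hd, h⟩ := partT_upper g hg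
  rw [h, ← commutatorElement_def, ← commutatorElement_def]
  exact Subgroup.mul_mem _ (Subgroup.commutator_mem_commutator ha hb) (Subgroup.commutator_mem_commutator hc hd)

end Pool.Agent.Thompson
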