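import Mathlib

set_option autoImplicit false

/-!
# Commutator algebra with displacements (Dennis-Vaserstein style)
-/

namespace Pool.Agent.Thompson

variable {𝒢 : Type*} [Group 𝒢]

/-- conjugate by `s^i` -/
def fc (s : 𝒢) (i : ℕ) (x : 𝒢) : 𝒢 := s ^ i * x * (s ^ i)⁻¹

/-- `f_n(l_0) f_{n+1}(l_1) ...` -/
def Pl (s : 𝒢) : ℕ → List 𝒢 → 𝒢
  | _, [] => 1
  | n, x :: l => fc s n x * Pl s (n + 1) l

theorem fc_zero (s x : 𝒢) : fc s 0 x = x := by simp [fc]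

theorem fc_one (s : 𝒢) (i : ℕ) : fc s i 1 = 1 := by simp [fc]

theorem fc_mul (s : 𝒢) (i : ℕ) (x y : 𝒢) : fc s i (x * y) = fc s i x * fc s i y := by
  simp only [fc]; group

theorem fc_inv (s : 𝒢) (i : ℕ) (x : 𝒢) : fc s i x⁻¹ = (fc s i x)⁻¹ := by
  simp only [fc]; group

theorem fc_succ (s : 𝒢) (i : ℕ) (x : 𝒢) : fc s (i + 1) x = s * fc s i x * s⁻¹ := by
  simp only [fc, pow_succ']; group

/-- the commutation hypothesis: the translates of `E` by powers of `s` commute -/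
def Disp (s : 𝒢) (E : Subgroup 𝒢) : Prop :=
  ∀ n : ℕ, 0 < n → ∀ x ∈ E, ∀ y ∈ E, x * fc s n y = fc s n y * x

theorem Disp.comm {s : 𝒢} {E : Subgroup 𝒢} (h : Disp s E) {i j : ℕ} (hij : i < j) {x y : 𝒢} (hx : x ∈ E) (hy : y ∈ E) :
    fc s i x * fc s j y = fc s j y * fc s i x := by
  obtain ⟨d, rfl⟩ := Nat.exists_eq_add_of_lt hij
  have := h (d + 1) (by omega) x hx y hy
  have e : fc s (i + d + 1) y = s ^ i * fc s (d + 1) y * (s ^ i)⁻¹ := by
    simp only [fc]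
    rw [show i + d + 1 = i + (d + 1) by ring, pow_add]
    group
  rw [e]
  have : fc s i x * (s ^ i * fc s (d + 1) y * (s ^ i)⁻¹) = s ^ i * (x * fc s (d + 1) y) * (s ^ i)⁻¹ := by
    simp only [fc]; group
  rw [this, h (d + 1) (by omega) x hx y hy]
  simp only [fc]; group

theorem Pl_comm {s : 𝒢} {E : Subgroup 𝒢} (h : Disp s E) {x : 𝒢} (hx : x ∈ E) (i : ℕ) :
    ∀ (l : List 𝒢) (n : ℕ), i < n → (∀ y ∈ l, y ∈ E) → fc s i x * Pl s n l = Pl s n l * fc s i x := by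
  intro l
  induction l with
  | nil => intro n _ _; simp [Pl]
  | cons y l ih =>
    intro n hn hl
    have hy : y ∈ E := hl y (by simp)
    have hl' : ∀ z ∈ l, z ∈ E := fun z hz => hl z (by simp [hz])
    simp only [Pl]
    rw [← mul_assoc, h.comm hn hx hy, mul_assoc, ih (n + 1) (by omega) hl', mul_assoc]

theorem Pl_inv {s : 𝒢} {E : Subgroup 𝒢} (h : Disp s E) :
    ∀ (l : List 𝒢) (n : ℕ), (∀ y ∈ l, y ∈ E) → (Pl s n l)⁻¹ = Pl s n (l.map (·⁻¹)) := by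
  intro l
  induction l with
  | nil => intro n _; simp [Pl]
  | cons y l ih =>
    intro n hl
    have hy : y ∈ E := hl y (by simp)
    have hl' : ∀ z ∈ l, z ∈ E := fun z hz => hl z (by simp [hz])
    simp only [Pl, List.map_cons]
    rw [mul_inv_rev, ih (n + 1) hl', fc_inv]
    have h1 := Pl_comm h (E.inv_mem hy) n (l.map (·⁻¹)) (n + 1) (by omega) (by
      intro z hz
      simp only [List.mem_map] at hz
      obtain ⟨w, hw, rfl⟩ := hz
      exact E.inv_mem (hl' w hw))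
    rw [fc_inv] at h1
    exact h1.symm

theorem Pl_shift (s : 𝒢) : ∀ (l : List 𝒢) (n : ℕ), Pl s (n + 1) l = s * Pl s n l * s⁻¹ := by
  intro l
  induction l with
  | nil => intro n; simp [Pl]
  | cons y l ih =>
    intro n
    simp only [Pl]
    rw [ih, fc_succ]
    group

theorem Pl_mem {s : 𝒢} {E H : Subgroup 𝒢} (hs : s ∈ H) (hE : E ≤ H) :
    ∀ (l : List 𝒢) (n : ℕ), (∀ y ∈ l, y ∈ E) → Pl s n l ∈ H := by
  intro l
  induction l with
  | nil => intro n _; exact H.one_mem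
  | cons y l ih =>
    intro n hl
    simp only [Pl, fc]
    exact H.mul_mem (H.mul_mem (H.mul_mem (H.pow_mem hs n) (hE (hl y (by simp)))) (H.inv_mem (H.pow_mem hs n)))
      (ih (n + 1) (fun z hz => hl z (by simp [hz])))

/-- collapsing lemma -/
theorem collapse {s : 𝒢} {E H : Subgroup 𝒢} (hs : s ∈ H) (hE : E ≤ H) (h : Disp s E) :
    ∀ (l : List 𝒢) (x : 𝒢), x ∈ E → (∀ y ∈ l, y ∈ E) →
      ∃ w ∈ H, w * (s * x * Pl s 1 l) * w⁻¹ = s * (l.reverse.prod * x) := by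
  intro l
  induction l with
  | nil =>
    intro x _ _
    exact ⟨1, H.one_mem, by simp [Pl]⟩
  | cons y l ih =>
    intro x hx hl
    have hy : y ∈ E := hl y (by simp)
    have hl' : ∀ z ∈ l, z ∈ E := fun z hz => hl z (by simp [hz])
    obtain ⟨w, hw, hw2⟩ := ih (y * x) (E.mul_mem hy hx) hl'
    have hP := Pl_mem hs hE (y :: l) 1 hl
    refine ⟨w * Pl s 1 (y :: l), H.mul_mem hw hP, ?_⟩
    have e1 : Pl s 1 (y :: l) = s * Pl s 0 (y :: l) * s⁻¹ := Pl_shift s _ 0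
    have e2 : Pl s 0 (y :: l) = y * Pl s 1 l := by simp [Pl, fc_zero]
    have e3 := Pl_comm h hx 0 l 1 (by omega) hl'
    rw [fc_zero] at e3
    have e4 : w * Pl s 1 (y :: l) * (s * x * Pl s 1 (y :: l)) * (w * Pl s 1 (y :: l))⁻¹ =
        w * (Pl s 1 (y :: l) * s * x) * w⁻¹ := by group
    rw [e4, e1, e2]
    have e5 : s * (y * Pl s 1 l) * s⁻¹ * s * x = s * (y * x) * Pl s 1 l := by
      calc s * (y * Pl s 1 l) * s⁻¹ * s * x = s * y * (Pl s 1 l * x) := by group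
        _ = s * y * (x * Pl s 1 l) := by rw [e3]
        _ = s * (y * x) * Pl s 1 l := by group
    rw [e5, hw2]
    simp [mul_assoc]

theorem Pl_commutator {s : 𝒢} {E : Subgroup 𝒢} (h : Disp s E) :
    ∀ (l : List (𝒢 × 𝒢)) (n : ℕ), (∀ p ∈ l, p.1 ∈ E ∧ p.2 ∈ E) →
      Pl s n (l.map (fun p => p.1 * p.2 * p.1⁻¹ * p.2⁻¹)) =
        Pl s n (l.map Prod.fst) * Pl s n (l.map Prod.snd) * (Pl s n (l.map Prod.fst))⁻¹ * (Pl s n (l.map Prod.snd))⁻¹ := by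
  intro l
  induction l with
  | nil => intro n _; simp [Pl]
  | cons p l ih =>
    intro n hl
    have hp := hl p (by simp)
    have hl' : ∀ q ∈ l, q.1 ∈ E ∧ q.2 ∈ E := fun q hq => hl q (by simp [hq])
    have h1 : ∀ y ∈ l.map Prod.fst, y ∈ E := by
      intro y hy
      simp only [List.mem_map] at hy
      obtain ⟨q, hq, rfl⟩ := hy
      exact (hl' q hq).1
    have h2 : ∀ y ∈ l.map Prod.snd, y ∈ E := by
      intro y hy
      simp only [List.mem_map] at hy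
      obtain ⟨q, hq, rfl⟩ := hy
      exact (hl' q hq).2
    simp only [List.map_cons, Pl]
    rw [ih (n + 1) hl']
    have c11 : Commute (fc s n p.1) (Pl s (n + 1) (l.map Prod.fst)) := Pl_comm h hp.1 n _ _ (by omega) h1
    have c12 : Commute (fc s n p.1) (Pl s (n + 1) (l.map Prod.snd)) := Pl_comm h hp.1 n _ _ (by omega) h2
    have c21 : Commute (fc s n p.2) (Pl s (n + 1) (l.map Prod.fst)) := Pl_comm h hp.2 n _ _ (by omega) h1
    have c22 : Commute (fc s n p.2) (Pl s (n + 1) (l.map Prod.snd)) := Pl_comm h hp.2 n _ _ (by omega) h2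
    have e1 : fc s n (p.1 * p.2 * p.1⁻¹ * p.2⁻¹) = fc s n p.1 * fc s n p.2 * (fc s n p.1)⁻¹ * (fc s n p.2)⁻¹ := by
      rw [fc_mul, fc_mul, fc_mul, fc_inv, fc_inv]
    rw [e1]
    generalize fc s n p.1 = a at *
    generalize fc s n p.2 = b at *
    generalize Pl s (n + 1) (l.map Prod.fst) = A at *
    generalize Pl s (n + 1) (l.map Prod.snd) = B at *
    -- (a b a⁻¹ b⁻¹)(A B A⁻¹ B⁻¹) = (aA)(bB)(aA)⁻¹(bB)⁻¹
    have k1 : A * b = b * A := c21.symm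
    have k2 : a⁻¹ * B = B * a⁻¹ := (c12.inv_left)
    calc a * b * a⁻¹ * b⁻¹ * (A * B * A⁻¹ * B⁻¹)
        = a * b * a⁻¹ * (b⁻¹ * A) * B * A⁻¹ * B⁻¹ := by group
      _ = a * b * a⁻¹ * (A * b⁻¹) * B * A⁻¹ * B⁻¹ := by rw [(c21.inv_left).eq]
      _ = a * b * (a⁻¹ * A) * b⁻¹ * B * A⁻¹ * B⁻¹ := by group
      _ = a * b * (A * a⁻¹) * b⁻¹ * B * A⁻¹ * B⁻¹ := by rw [(c11.inv_left).eq]
      _ = a * (b * A) * a⁻¹ * (b⁻¹ * B) * A⁻¹ * B⁻¹ := by group
      _ = a * (A * b) * a⁻¹ * (B * b⁻¹) * A⁻¹ * B⁻¹ := by rw [(c22.inv_left).eq, k1]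
      _ = a * A * b * (a⁻¹ * B) * (b⁻¹ * A⁻¹) * B⁻¹ := by group
      _ = a * A * b * (B * a⁻¹) * (A⁻¹ * b⁻¹) * B⁻¹ := by rw [k2, (c21.inv_left.inv_right).eq]
      _ = a * A * b * B * (a⁻¹ * A⁻¹) * (b⁻¹ * B⁻¹) := by group
      _ = a * A * b * B * (A⁻¹ * a⁻¹) * (B⁻¹ * b⁻¹) := by rw [(c11.inv_left.inv_right).eq, (c22.inv_left.inv_right).eq]
      _ = a * A * (b * B) * (a * A)⁻¹ * (b * B)⁻¹ := by group

theorem exists_list_commutators {E : Subgroup 𝒢} {κ : 𝒢} (hκ : κ ∈ ⁅E, E⁆) :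
    ∃ l : List (𝒢 × 𝒢), (∀ p ∈ l, p.1 ∈ E ∧ p.2 ∈ E) ∧ (l.map (fun p => p.1 * p.2 * p.1⁻¹ * p.2⁻¹)).prod = κ := by
  rw [Subgroup.commutator_def] at hκ
  induction hκ using Subgroup.closure_induction with
  | mem x hx =>
    obtain ⟨g1, h1, g2, h2, rfl⟩ := hx
    exact ⟨[(g1, g2)], by simpa using ⟨h1, h2⟩, by simp [commutatorElement_def]⟩
  | one => exact ⟨[], by simp, by simp⟩
  | mul x y _ _ hx hy =>
    obtain ⟨l, hl, rfl⟩ := hx
    obtain ⟨l', hl', rfl⟩ := hy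
    refine ⟨l ++ l', ?_, by simp⟩
    intro p hp
    rcases List.mem_append.1 hp with h | h
    · exact hl p h
    · exact hl' p h
  | inv x _ hx =>
    obtain ⟨l, hl, rfl⟩ := hx
    refine ⟨(l.map Prod.swap).reverse, ?_, ?_⟩
    · intro p hp
      simp only [List.mem_reverse, List.mem_map] at hp
      obtain ⟨q, hq, rfl⟩ := hp
      exact ⟨(hl q hq).2, (hl q hq).1⟩
    · rw [List.prod_inv_reverse, List.map_reverse, List.map_map, List.map_map]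
      congr 2
      apply List.map_congr_left
      intro p _
      simp only [Function.comp, Prod.fst_swap, Prod.snd_swap]
      group

/-- **Dennis-Vaserstein**: if `φ` displaces `E` then elements of `[E,E]` are products of two commutators -/
theorem dennis_vaserstein {φ : 𝒢} {E H : Subgroup 𝒢} (hφ : φ ∈ H) (hE : E ≤ H) (h : Disp φ E) {κ : 𝒢}
    (hκ : κ ∈ ⁅E, E⁆) : ∃ a ∈ H, ∃ b ∈ H, ∃ c ∈ H, ∃ d ∈ H, κ = (c * d * c⁻¹ * d⁻¹) * (a * b * a⁻¹ * b⁻¹) := by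
  obtain ⟨l, hl, hprod⟩ := exists_list_commutators hκ
  have hκE : κ ∈ E := (Subgroup.commutator_le.2 (fun x hx y hy => by
    rw [commutatorElement_def]
    exact E.mul_mem (E.mul_mem (E.mul_mem hx hy) (E.inv_mem hx)) (E.inv_mem hy))) hκ
  set L : List 𝒢 := (l.map Prod.swap).map (fun p => p.1 * p.2 * p.1⁻¹ * p.2⁻¹) with hL
  have hl2 : ∀ p ∈ l.map Prod.swap, p.1 ∈ E ∧ p.2 ∈ E := by
    intro p hp
    simp only [List.mem_map] at hp
    obtain ⟨q, hq, rfl⟩ := hp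
    exact ⟨(hl q hq).2, (hl q hq).1⟩
  have hLE : ∀ y ∈ L, y ∈ E := by
    intro y hy
    rw [hL, List.mem_map] at hy
    obtain ⟨p, hp, rfl⟩ := hy
    obtain ⟨h1, h2⟩ := hl2 p hp
    exact E.mul_mem (E.mul_mem (E.mul_mem h1 h2) (E.inv_mem h1)) (E.inv_mem h2)
  have hLprod : L.reverse.prod = κ⁻¹ := by
    rw [← hprod, List.prod_inv_reverse, hL, List.map_map, List.map_map]
    congr 2
    apply List.map_congr_left
    intro p _
    simp only [Function.comp, Prod.fst_swap, Prod.snd_swap]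
    group
  obtain ⟨w, hw, hw2⟩ := collapse hφ hE h L κ hκE hLE
  rw [hLprod, inv_mul_cancel, mul_one] at hw2
  have hcomm := Pl_commutator h (l.map Prod.swap) 1 hl2
  rw [← hL] at hcomm
  set A := Pl φ 1 ((l.map Prod.swap).map Prod.fst) with hA
  set B := Pl φ 1 ((l.map Prod.swap).map Prod.snd) with hB
  have hAH : A ∈ H := Pl_mem hφ hE _ _ (by
    intro y hy
    simp only [List.mem_map] at hy
    obtain ⟨p, ⟨q, hq, rfl⟩, rfl⟩ := hy
    exact (hl q hq).2)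
  have hBH : B ∈ H := Pl_mem hφ hE _ _ (by
    intro y hy
    simp only [List.mem_map] at hy
    obtain ⟨p, ⟨q, hq, rfl⟩, rfl⟩ := hy
    exact (hl q hq).1)
  refine ⟨B, hBH, A, hAH, φ⁻¹, H.inv_mem hφ, w⁻¹, H.inv_mem hw, ?_⟩
  rw [hcomm] at hw2
  have e1 : φ * κ * (A * B * A⁻¹ * B⁻¹) = w⁻¹ * φ * w := by
    calc φ * κ * (A * B * A⁻¹ * B⁻¹) = w⁻¹ * (w * (φ * κ * (A * B * A⁻¹ * B⁻¹)) * w⁻¹) * w := by group
      _ = w⁻¹ * φ * w := by rw [hw2]
  calc κ = φ⁻¹ * (φ * κ * (A * B * A⁻¹ * B⁻¹)) * (A * B * A⁻¹ * B⁻¹)⁻¹ := by group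
    _ = φ⁻¹ * (w⁻¹ * φ * w) * (A * B * A⁻¹ * B⁻¹)⁻¹ := by rw [e1]
    _ = φ⁻¹ * w⁻¹ * φ⁻¹⁻¹ * w⁻¹⁻¹ * (B * A * B⁻¹ * A⁻¹) := by group

/-- Final assembly in the proof that an element is one commutator. -/
theorem assemble {t s u h W1 y κ : 𝒢} (hu : u = t * s) (h1 : W1 * (s * (h * (u * h⁻¹ * u⁻¹))) * W1⁻¹ = s * κ)
    (h2 : y * (s * κ) * y⁻¹ = u) :
    t = (u * h * y * W1) * (s * (h * (u * h⁻¹ * u⁻¹))) * (u * h * y * W1)⁻¹ * (s * (h * (u * h⁻¹ * u⁻¹)))⁻¹ := by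
  have e1 : (u * h * y * W1) * (s * (h * (u * h⁻¹ * u⁻¹))) * (u * h * y * W1)⁻¹ =
      (u * h) * (y * (W1 * (s * (h * (u * h⁻¹ * u⁻¹))) * W1⁻¹) * y⁻¹) * (u * h)⁻¹ := by group
  rw [e1, h1, h2, hu]
  group

end Pool.Agent.Thompson
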