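import Pool.Agent.Thompson.Basic

set_option autoImplicit false

/-!
# Normal forms of elements of V
-/

namespace Pool.Agent.Thompson

open Set Filter Topology

/-- `x` is an integer multiple of `2^-N` -/
def OnG (N : ℕ) (x : ℝ) : Prop := ∃ m : ℤ, x = (m : ℝ) / 2 ^ N

theorem OnG.mono {N M : ℕ} {x : ℝ} (h : OnG N x) (hNM : N ≤ M) : OnG M x := by
  obtain ⟨m, rfl⟩ := h
  obtain ⟨d, rfl⟩ := Nat.exists_eq_add_of_le hNM
  refine ⟨m * 2 ^ d, ?_⟩
  push_cast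
  rw [pow_add]
  field_simp

theorem OnG.dy {N : ℕ} {x : ℝ} (h : OnG N x) : Dy x := by
  obtain ⟨m, rfl⟩ := h
  exact ⟨m, N, rfl⟩

theorem Dy.onG {x : ℝ} (h : Dy x) : ∃ N, OnG N x := by
  obtain ⟨m, e, rfl⟩ := h
  exact ⟨e, m, rfl⟩

theorem OnG.add_step {N : ℕ} {x : ℝ} (h : OnG N x) : OnG N (x + 1 / 2 ^ N) := by
  obtain ⟨m, rfl⟩ := h
  exact ⟨m + 1, by push_cast; ring⟩

theorem OnG.step_le {N : ℕ} {x y : ℝ} (hx : OnG N x) (hy : OnG N y) (h : x < y) : x + 1 / 2 ^ N ≤ y := by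
  obtain ⟨m, rfl⟩ := hx
  obtain ⟨m', rfl⟩ := hy
  have hpos : (0 : ℝ) < 2 ^ N := by positivity
  rw [div_lt_div_iff_of_pos_right hpos] at h
  have h1 : m < m' := by exact_mod_cast h
  have h2 : (m : ℝ) + 1 ≤ m' := by exact_mod_cast h1
  rw [← add_div]
  gcongr

theorem OnG.int {N : ℕ} (m : ℤ) : OnG N (m : ℝ) :=
  OnG.mono (N := 0) ⟨m, by simp⟩ (Nat.zero_le _)

theorem OnG.zero {N : ℕ} : OnG N 0 := by simpa using OnG.int (N := N) 0

theorem OnG.one {N : ℕ} : OnG N 1 := by simpa using OnG.int (N := N) 1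

/-- `σ` is affine (dyadic data) on the half open interval `[a,b)` -/
def AffOn (σ : ℝ → ℝ) (a b : ℝ) : Prop :=
  ∃ k : ℤ, ∃ c : ℝ, Dy c ∧ ∀ x ∈ Set.Ico a b, σ x = (2 : ℝ) ^ k * x + c

theorem AffOn.mono {σ : ℝ → ℝ} {a b a' b' : ℝ} (h : AffOn σ a b) (ha : a ≤ a') (hb : b' ≤ b) : AffOn σ a' b' := by
  obtain ⟨k, c, hc, h⟩ := h
  exact ⟨k, c, hc, fun x hx => h x ⟨ha.trans hx.1, hx.2.trans_le hb⟩⟩

/-- affine on all cells of level `N` -/
def Lev (σ : ℝ → ℝ) (N : ℕ) : Prop := ∀ u : ℝ, OnG N u → AffOn σ u (u + 1 / 2 ^ N)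

/-- the grid point below x -/
theorem exists_cell (N : ℕ) (x : ℝ) : ∃ u, OnG N u ∧ u ≤ x ∧ x < u + 1 / 2 ^ N := by
  have hpos : (0 : ℝ) < 2 ^ N := by positivity
  refine ⟨(⌊x * 2 ^ N⌋ : ℝ) / 2 ^ N, ⟨_, rfl⟩, ?_, ?_⟩
  · rw [div_le_iff₀ hpos]; exact Int.floor_le _
  · rw [← add_div, lt_div_iff₀ hpos]; exact Int.lt_floor_add_one _

theorem cell_sub {N M : ℕ} (hNM : N ≤ M) {u : ℝ} (hu : OnG M u) :
    ∃ w, OnG N w ∧ w ≤ u ∧ u + 1 / 2 ^ M ≤ w + 1 / 2 ^ N := by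
  obtain ⟨w, hw, h1, h2⟩ := exists_cell N u
  exact ⟨w, hw, h1, hu.step_le (hw.add_step.mono hNM) h2⟩

theorem Lev.mono {σ : ℝ → ℝ} {N M : ℕ} (h : Lev σ N) (hNM : N ≤ M) : Lev σ M := by
  intro u hu
  obtain ⟨w, hw, h1, h2⟩ := cell_sub hNM hu
  exact (h w hw).mono h1 h2

theorem uform_iff {σ : Equiv.Perm ℝ} :
    UForm σ ↔ (∀ x : ℝ, x ∉ Set.Ico (0:ℝ) 1 → σ x = x) ∧ ∃ N, Lev σ N := by
  constructor
  · rintro ⟨h0, N, h⟩
    refine ⟨h0, N, ?_⟩
    rintro u ⟨m, rfl⟩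
    have hpos : (0 : ℝ) < 2 ^ N := by positivity
    by_cases hm : 0 ≤ m ∧ m < 2 ^ N
    · obtain ⟨k, c, hc, h1⟩ := h m.toNat (by zify; rw [Int.toNat_of_nonneg hm.1]; exact hm.2)
      have e : ((m.toNat : ℕ) : ℝ) = (m : ℝ) := by
        have : ((m.toNat : ℤ) : ℝ) = (m : ℝ) := by rw [Int.toNat_of_nonneg hm.1]
        exact_mod_cast this
      rw [e] at h1
      exact ⟨k, c, hc, by rw [← add_div]; exact h1⟩
    · refine ⟨0, 0, Dy.zero, fun x hx => ?_⟩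
      rw [h0 x, zpow_zero, one_mul, add_zero]
      rintro ⟨hx0, hx1⟩
      apply hm
      obtain ⟨hx2, hx3⟩ := hx
      rw [← add_div] at hx3
      constructor
      · have : (0 : ℝ) < (m + 1) / 2 ^ N := hx0.trans_lt hx3
        have h2 : (0 : ℝ) < (m + 1 : ℝ) := by
          rcases div_pos_iff.1 this with h | h
          · exact h.1
          · linarith [h.2]
        have h3 : 0 < m + 1 := by exact_mod_cast h2
        omega
      · have : (m : ℝ) / 2 ^ N < 1 := hx2.trans_lt hx1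
        rw [div_lt_one hpos] at this
        exact_mod_cast this
  · rintro ⟨h0, N, h⟩
    refine ⟨h0, N, fun j _ => ?_⟩
    have := h ((j : ℝ) / 2 ^ N) ⟨j, by push_cast; rfl⟩
    rw [← add_div] at this
    exact this

theorem UForm.mem_Vset {σ : Equiv.Perm ℝ} (h : UForm σ) : σ ∈ Vset := by
  obtain ⟨h0, N, h⟩ := h
  choose! k c hc hk using h
  refine ⟨h0, 2 ^ N, fun i => (i : ℝ) / 2 ^ N, k, c, by simp, by simp, ?_, ?_, ?_, ?_⟩
  · intro i _
    push_cast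
    gcongr
    linarith
  · intro i _
    exact ⟨i, N, by push_cast; rfl⟩
  · intro i hi
    exact hc i hi
  · intro i hi x hx
    push_cast at hx
    exact hk i hi x hx

/-- finitely many eventually in `N` statements -/
theorem exists_level_of_forall {ι : Type*} (s : Finset ι) (P : ι → ℕ → Prop)
    (h : ∀ i ∈ s, ∃ n, ∀ N ≥ n, P i N) : ∃ n, ∀ N ≥ n, ∀ i ∈ s, P i N := by
  classical
  choose! n hn using h
  refine ⟨s.sup n, fun N hN i hi => hn i hi N (le_trans (Finset.le_sup hi) hN)⟩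

theorem Vset_uform {σ : Equiv.Perm ℝ} (h : σ ∈ Vset) : UForm σ := by
  rw [uform_iff]
  obtain ⟨h0, n, a, k, c, ha0, han, hinc, hda, hdc, hk⟩ := h
  refine ⟨h0, ?_⟩
  obtain ⟨N, hN⟩ := exists_level_of_forall (Finset.range (n + 1)) (fun i N => OnG N (a i)) (by
    intro i hi
    have hi' : i ≤ n := by simpa [Nat.lt_succ_iff] using hi
    obtain ⟨M, hM⟩ := Dy.onG (hda i hi')
    exact ⟨M, fun N hN => hM.mono hN⟩)
  refine ⟨N, fun u hu => ?_⟩
  have hN' : ∀ i ≤ n, OnG N (a i) := fun i hi => hN N le_rfl i (by simpa [Nat.lt_succ_iff] using hi)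
  by_cases hu1 : 0 ≤ u ∧ u < 1
  · -- find the cell
    have : ∃ i < n, a i ≤ u ∧ u < a (i + 1) := by
      by_contra hcon
      push Not at hcon
      have : ∀ i ≤ n, a i ≤ u := by
        intro i
        induction i with
        | zero => intro _; rw [ha0]; exact hu1.1
        | succ i ih => intro hi; exact hcon i (by omega) (ih (by omega))
      have := this n le_rfl
      rw [han] at this
      linarith [hu1.2]
    obtain ⟨i, hi, h1, h2⟩ := this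
    refine ⟨k i, c i, hdc i hi, fun x hx => hk i hi x ⟨h1.trans hx.1, hx.2.trans_le ?_⟩⟩
    exact hu.step_le (hN' (i + 1) hi) h2
  · refine ⟨0, 0, Dy.zero, fun x hx => ?_⟩
    rw [h0 x, zpow_zero, one_mul, add_zero]
    rintro ⟨hx0, hx1⟩
    apply hu1
    refine ⟨?_, hx.1.trans_lt hx1⟩
    by_contra hneg
    push Not at hneg
    have := hu.step_le OnG.zero hneg
    linarith [hx.2]

theorem UForm.one : UForm 1 :=
  ⟨fun x _ => rfl, 0, fun j _ => ⟨0, 0, Dy.zero, fun x _ => by simp⟩⟩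

/-- image of a dyadic affine cell -/
theorem Dy.affine {x c : ℝ} (k : ℤ) (hc : Dy c) (hx : Dy x) : Dy ((2 : ℝ) ^ k * x + c) := (Dy.affine_iff k hc).2 hx

theorem cells_finset (N : ℕ) : ∃ s : Finset ℝ, (∀ u ∈ s, OnG N u ∧ 0 ≤ u ∧ u < 1) ∧
    ∀ u, OnG N u → 0 ≤ u → u < 1 → u ∈ s := by
  classical
  refine ⟨(Finset.range (2 ^ N)).image (fun j : ℕ => (j : ℝ) / 2 ^ N), ?_, ?_⟩
  · intro u hu
    simp only [Finset.mem_image, Finset.mem_range] at hu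
    obtain ⟨j, hj, rfl⟩ := hu
    have hpos : (0 : ℝ) < 2 ^ N := by positivity
    refine ⟨⟨j, by push_cast; rfl⟩, by positivity, ?_⟩
    rw [div_lt_one hpos]
    exact_mod_cast hj
  · rintro u ⟨m, rfl⟩ h0 h1
    have hpos : (0 : ℝ) < 2 ^ N := by positivity
    rw [div_lt_one hpos] at h1
    have h2 : (0 : ℝ) ≤ m := by
      by_contra hneg
      push Not at hneg
      have : (m : ℝ) / 2 ^ N < 0 := div_neg_of_neg_of_pos hneg hpos
      linarith
    have h3 : 0 ≤ m := by exact_mod_cast h2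
    have h4 : m < 2 ^ N := by exact_mod_cast h1
    simp only [Finset.mem_image, Finset.mem_range]
    refine ⟨m.toNat, by zify; rw [Int.toNat_of_nonneg h3]; exact h4, ?_⟩
    have : ((m.toNat : ℤ) : ℝ) = (m : ℝ) := by rw [Int.toNat_of_nonneg h3]
    have e : ((m.toNat : ℕ) : ℝ) = (m : ℝ) := by exact_mod_cast this
    rw [e]

/-- an affine map with dyadic data sends small cells of high level inside cells of level `M` -/
theorem affine_cell (k : ℤ) {c : ℝ} (hc : Dy c) (M : ℕ) :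
    ∃ n, ∀ N ≥ n, ∀ u, OnG N u → ∃ w, OnG M w ∧ ∀ x ∈ Ico u (u + 1 / 2 ^ N),
      (2 : ℝ) ^ k * x + c ∈ Ico w (w + 1 / 2 ^ M) := by
  obtain ⟨e, he⟩ := hc.onG
  refine ⟨(max M e) + k.toNat, fun N hN u hu => ?_⟩
  have hk : k ≤ k.toNat := Int.self_le_toNat k
  -- the image cell is a cell of level N - k
  obtain ⟨m, rfl⟩ := hu
  have hNk : (0 : ℤ) ≤ (N : ℤ) - k := by omega
  obtain ⟨L, hL⟩ := Int.eq_ofNat_of_zero_le hNk
  have hL' : (L : ℤ) = N - k := hL.symm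
  have e1 : (2 : ℝ) ^ k / 2 ^ N = 1 / 2 ^ L := by
    have : (2 : ℝ) ^ k * 2 ^ L = 2 ^ N := by
      rw [← zpow_natCast (2 : ℝ) L, ← zpow_natCast (2 : ℝ) N, ← zpow_add₀ (by norm_num)]
      congr 1
      omega
    have h2 : (0 : ℝ) < 2 ^ L := by positivity
    have h3 : (0 : ℝ) < 2 ^ N := by positivity
    rw [div_eq_div_iff h3.ne' h2.ne']
    linarith
  have himg : OnG L ((2 : ℝ) ^ k * ((m : ℝ) / 2 ^ N) + c) := by
    obtain ⟨m', hm'⟩ := he.mono (show e ≤ L by omega)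
    refine ⟨m + m', ?_⟩
    rw [hm']
    push_cast
    have : (2 : ℝ) ^ k * ((m : ℝ) / 2 ^ N) = m * (1 / 2 ^ L) := by rw [← e1]; ring
    rw [this]; ring
  obtain ⟨w, hw, h1, h2⟩ := cell_sub (show M ≤ L by omega) himg
  refine ⟨w, hw, fun x hx => ⟨?_, ?_⟩⟩
  · refine h1.trans ?_
    have := mul_le_mul_of_nonneg_left hx.1 (two_zpow_pos k).le
    linarith
  · refine lt_of_lt_of_le ?_ h2
    have := mul_lt_mul_of_pos_left hx.2 (two_zpow_pos k)
    rw [mul_add, mul_one_div, e1] at this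
    linarith

theorem perm_mem_Ico {σ : Equiv.Perm ℝ} (h : ∀ x : ℝ, x ∉ Set.Ico (0:ℝ) 1 → σ x = x) {x : ℝ} :
    σ x ∈ Set.Ico (0:ℝ) 1 ↔ x ∈ Set.Ico (0:ℝ) 1 := by
  constructor
  · intro hx
    by_contra hn
    rw [h x hn] at hx
    exact hn hx
  · intro hx
    by_contra hn
    have h1 := h (σ x) hn
    have h2 := σ.injective h1
    rw [h2] at hn
    exact hn hx

theorem UForm.mul {σ τ : Equiv.Perm ℝ} (hτ : UForm τ) (hσ : UForm σ) : UForm (τ * σ) := by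
  rw [uform_iff] at *
  obtain ⟨hσ0, N, hN⟩ := hσ
  obtain ⟨hτ0, M, hM⟩ := hτ
  refine ⟨fun x hx => by rw [Equiv.Perm.mul_apply, hσ0 x hx, hτ0 x hx], ?_⟩
  obtain ⟨s, hs1, hs2⟩ := cells_finset N
  obtain ⟨n, hn⟩ := exists_level_of_forall s (fun u N' => N ≤ N' ∧ ∀ v, OnG N' v → u ≤ v → v < u + 1 / 2 ^ N →
      AffOn (⇑(τ * σ)) v (v + 1 / 2 ^ N')) (by
    intro u hu
    obtain ⟨k, c, hc, hk⟩ := hN u (hs1 u hu).1
    obtain ⟨n, hn⟩ := affine_cell k hc M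
    refine ⟨max n N, fun N' hN' => ⟨by omega, fun v hv huv hvu => ?_⟩⟩
    obtain ⟨w, hw, hw2⟩ := hn N' (by omega) v hv
    obtain ⟨k', c', hc', hk'⟩ := hM w hw
    refine ⟨k' + k, (2 : ℝ) ^ k' * c + c', ((Dy.zpow k').mul hc).add hc', fun x hx => ?_⟩
    have hv1 := hv.step_le ((hs1 u hu).1.add_step.mono (show N ≤ N' by omega)) hvu
    have hx1 : x ∈ Ico u (u + 1 / 2 ^ N) := ⟨huv.trans hx.1, hx.2.trans_le hv1⟩
    rw [Equiv.Perm.mul_apply, hk x hx1, hk' _ (hw2 x hx), zpow_add₀ (by norm_num)]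
    ring)
  refine ⟨max n N, fun v hv => ?_⟩
  by_cases hv1 : 0 ≤ v ∧ v < 1
  · obtain ⟨u, hu, h1, h2⟩ := exists_cell N v
    refine (hn (max n N) (le_max_left _ _) u (hs2 u hu ?_ (h1.trans_lt hv1.2))).2 v hv h1 h2
    by_contra hneg
    push Not at hneg
    have := hu.step_le OnG.zero hneg
    linarith
  · refine ⟨0, 0, Dy.zero, fun x hx => ?_⟩
    have hx' : x ∉ Ico (0:ℝ) 1 := by
      rintro ⟨hx0, hx1⟩
      apply hv1
      refine ⟨?_, hx.1.trans_lt hx1⟩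
      by_contra hneg
      push Not at hneg
      have := hv.step_le OnG.zero hneg
      linarith [hx.2]
    rw [Equiv.Perm.mul_apply, hσ0 x hx', hτ0 x hx', zpow_zero, one_mul, add_zero]

theorem UForm.inv {σ : Equiv.Perm ℝ} (hσ : UForm σ) : UForm σ⁻¹ := by
  rw [uform_iff] at *
  obtain ⟨hσ0, N, hN⟩ := hσ
  have hinv0 : ∀ x : ℝ, x ∉ Set.Ico (0:ℝ) 1 → σ⁻¹ x = x := fun x hx => pinv_eq (hσ0 x hx)
  refine ⟨hinv0, ?_⟩
  obtain ⟨s, hs1, hs2⟩ := cells_finset N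
  obtain ⟨n, hn⟩ := exists_level_of_forall s (fun u N' => ∀ v, OnG N' v → u ≤ σ⁻¹ v → σ⁻¹ v < u + 1 / 2 ^ N →
      AffOn (⇑(σ⁻¹)) v (v + 1 / 2 ^ N')) (by
    intro u hu
    obtain ⟨k, c, hc, hk⟩ := hN u (hs1 u hu).1
    obtain ⟨n1, hn1⟩ := (Dy.affine k hc (hs1 u hu).1.dy).onG
    obtain ⟨n2, hn2⟩ := (Dy.affine k hc (hs1 u hu).1.add_step.dy).onG
    refine ⟨max n1 n2, fun N' hN' v hv h1 h2 => ?_⟩
    have hv1 : v = (2 : ℝ) ^ k * (σ⁻¹ v) + c := by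
      have := hk (σ⁻¹ v) ⟨h1, h2⟩
      rw [pai] at this
      exact this
    refine ⟨-k, -((2 : ℝ) ^ (-k) * c), ((Dy.zpow _).mul hc).neg, fun x hx => ?_⟩
    have hpos := two_zpow_pos k
    have hvlow : (2 : ℝ) ^ k * u + c ≤ v := by
      rw [hv1]; gcongr
    have hvup : v < (2 : ℝ) ^ k * (u + 1 / 2 ^ N) + c := by
      rw [hv1]; gcongr
    have hv2 := hv.step_le (hn2.mono (show n2 ≤ N' by omega)) hvup
    have hx1 : (2 : ℝ) ^ k * u + c ≤ x := hvlow.trans hx.1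
    have hx2 : x < (2 : ℝ) ^ k * (u + 1 / 2 ^ N) + c := hx.2.trans_le hv2
    have hy : (2 : ℝ) ^ (-k) * x + -((2 : ℝ) ^ (-k) * c) = (x - c) / 2 ^ k := by
      rw [zpow_neg]; field_simp; ring
    rw [hy]
    apply pinv_eq
    rw [hk _ ⟨?_, ?_⟩]
    · field_simp; ring
    · rw [le_div_iff₀ hpos]; linarith
    · rw [div_lt_iff₀ hpos]; linarith)
  refine ⟨max n N, fun v hv => ?_⟩
  by_cases hv1 : 0 ≤ v ∧ v < 1
  · have hz : σ⁻¹ v ∈ Ico (0:ℝ) 1 := by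
      rw [← perm_mem_Ico hσ0, pai]; exact hv1
    obtain ⟨u, hu, h1, h2⟩ := exists_cell N (σ⁻¹ v)
    refine (hn (max n N) (le_max_left _ _) u (hs2 u hu ?_ (h1.trans_lt hz.2))) v hv h1 h2
    by_contra hneg
    push Not at hneg
    have := hu.step_le OnG.zero hneg
    linarith [hz.1]
  · refine ⟨0, 0, Dy.zero, fun x hx => ?_⟩
    have hx' : x ∉ Ico (0:ℝ) 1 := by
      rintro ⟨hx0, hx1⟩
      apply hv1
      refine ⟨?_, hx.1.trans_lt hx1⟩
      by_contra hneg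
      push Not at hneg
      have := hv.step_le OnG.zero hneg
      linarith [hx.2]
    rw [hinv0 x hx', zpow_zero, one_mul, add_zero]

/-- **Normal form of elements of V.** -/
theorem mem_VV_iff {σ : Equiv.Perm ℝ} : σ ∈ VV ↔ UForm σ := by
  constructor
  · intro h
    induction h using Subgroup.closure_induction with
    | mem x hx => exact Vset_uform hx
    | one => exact UForm.one
    | mul x y _ _ hx hy => exact hx.mul hy
    | inv x _ hx => exact hx.inv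
  · intro h
    exact Subgroup.subset_closure h.mem_Vset

theorem mem_VV_iff_lev {σ : Equiv.Perm ℝ} :
    σ ∈ VV ↔ (∀ x : ℝ, x ∉ Set.Ico (0:ℝ) 1 → σ x = x) ∧ ∃ N, Lev σ N := mem_VV_iff.trans uform_iff

end Pool.Agent.Thompson
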