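import Pool.Agent.Thompson.Defs

set_option autoImplicit false

/-!
# Dyadic piecewise linear homeomorphisms of the line: basic constructions
-/

namespace Pool.Agent.Thompson

open Set Filter Topology

theorem pai (f : Equiv.Perm ℝ) (x : ℝ) : f (f⁻¹ x) = x := f.apply_symm_apply x

theorem pia (f : Equiv.Perm ℝ) (x : ℝ) : f⁻¹ (f x) = x := f.symm_apply_apply x

theorem pinv_eq {f : Equiv.Perm ℝ} {x y : ℝ} (h : f x = y) : f⁻¹ y = x := by rw [← h, pia]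

/-! ### dyadic numbers -/

theorem Dy.of_int (m : ℤ) : Dy (m : ℝ) := ⟨m, 0, by simp⟩

theorem Dy.of_nat (m : ℕ) : Dy (m : ℝ) := ⟨m, 0, by simp⟩

theorem Dy.zero : Dy 0 := by simpa using Dy.of_int 0

theorem Dy.one : Dy 1 := by simpa using Dy.of_int 1

theorem Dy.ofNat (n : ℕ) [n.AtLeastTwo] : Dy (OfNat.ofNat n : ℝ) := by
  have h := Dy.of_nat (OfNat.ofNat n)
  simpa using h

theorem Dy.neg {x : ℝ} (h : Dy x) : Dy (-x) := by
  obtain ⟨m, e, rfl⟩ := h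
  exact ⟨-m, e, by push_cast; ring⟩

theorem Dy.add {x y : ℝ} (hx : Dy x) (hy : Dy y) : Dy (x + y) := by
  obtain ⟨m, e, rfl⟩ := hx
  obtain ⟨m', e', rfl⟩ := hy
  refine ⟨m * 2 ^ e' + m' * 2 ^ e, e + e', ?_⟩
  push_cast
  rw [pow_add]
  field_simp

theorem Dy.sub {x y : ℝ} (hx : Dy x) (hy : Dy y) : Dy (x - y) := by
  rw [sub_eq_add_neg]; exact hx.add hy.neg

theorem Dy.mul {x y : ℝ} (hx : Dy x) (hy : Dy y) : Dy (x * y) := by
  obtain ⟨m, e, rfl⟩ := hx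
  obtain ⟨m', e', rfl⟩ := hy
  refine ⟨m * m', e + e', ?_⟩
  push_cast
  rw [pow_add]
  field_simp

theorem Dy.zpow (k : ℤ) : Dy ((2 : ℝ) ^ k) := by
  rcases k with k | k
  · refine ⟨2 ^ k, 0, ?_⟩
    push_cast; simp
  · refine ⟨1, k + 1, ?_⟩
    rw [zpow_negSucc]; simp

theorem Dy.pow (k : ℕ) : Dy ((2 : ℝ) ^ k) := by
  simpa using Dy.zpow k

theorem Dy.div_pow {x : ℝ} (hx : Dy x) (k : ℕ) : Dy (x / 2 ^ k) := by
  have h := hx.mul (Dy.zpow (-(k : ℤ)))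
  rw [zpow_neg, zpow_natCast] at h
  exact h

theorem Dy.div_two {x : ℝ} (hx : Dy x) : Dy (x / 2) := by
  simpa using hx.div_pow 1

theorem two_zpow_pos (k : ℤ) : (0 : ℝ) < (2 : ℝ) ^ k := zpow_pos (by norm_num) k

theorem Dy.affine_iff {x c : ℝ} (k : ℤ) (hc : Dy c) : Dy ((2 : ℝ) ^ k * x + c) ↔ Dy x := by
  constructor
  · intro h
    have h2 : x = (2 : ℝ) ^ (-k) * (((2 : ℝ) ^ k * x + c) - c) := by
      rw [zpow_neg]
      have := (two_zpow_pos k).ne'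
      field_simp
      ring
    rw [h2]
    exact (Dy.zpow _).mul (h.sub hc)
  · intro h
    exact ((Dy.zpow k).mul h).add hc

theorem exists_dy_btwn {a b : ℝ} (h : a < b) : ∃ d, Dy d ∧ a < d ∧ d < b := by
  obtain ⟨e, he⟩ := exists_nat_gt (1 / (b - a))
  have hba : 0 < b - a := sub_pos.mpr h
  have h2 : (e : ℝ) < 2 ^ e := by exact_mod_cast Nat.lt_two_pow_self
  have h3 : 1 / (b - a) < 2 ^ e := he.trans h2
  have hpos : (0 : ℝ) < 2 ^ e := by positivity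
  have h4 : 1 < (b - a) * 2 ^ e := by
    rw [div_lt_iff₀ hba] at h3; linarith
  refine ⟨((⌊a * 2 ^ e⌋ + 1 : ℤ) : ℝ) / 2 ^ e, ⟨_, _, rfl⟩, ?_, ?_⟩
  · rw [lt_div_iff₀ hpos]
    push_cast
    exact Int.lt_floor_add_one _
  · rw [div_lt_iff₀ hpos]
    push_cast
    have := Int.floor_le (a * 2 ^ e)
    nlinarith

/-! ### germs -/

theorem RG.self_eq {f : ℝ → ℝ} {x : ℝ} (h : RG f x) :
    ∃ k : ℤ, ∃ c : ℝ, Dy c ∧ f x = (2 : ℝ) ^ k * x + c ∧
      ∀ᶠ y in 𝓝[≥] x, f y = (2 : ℝ) ^ k * y + c := by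
  obtain ⟨k, c, hc, h⟩ := h
  exact ⟨k, c, hc, h.self_of_nhdsWithin self_mem_Ici, h⟩

theorem RG.dy_iff {f : ℝ → ℝ} {x : ℝ} (h : RG f x) : Dy (f x) ↔ Dy x := by
  obtain ⟨k, c, hc, h1, -⟩ := h.self_eq
  rw [h1]
  exact Dy.affine_iff k hc

theorem RG.congr {f g : ℝ → ℝ} {x : ℝ} (h : RG f x) (h2 : ∀ᶠ y in 𝓝[≥] x, g y = f y) : RG g x := by
  obtain ⟨k, c, hc, h⟩ := h
  exact ⟨k, c, hc, by filter_upwards [h, h2] with y h3 h4; rw [h4, h3]⟩

theorem LG.congr {f g : ℝ → ℝ} {x : ℝ} (h : LG f x) (h2 : ∀ᶠ y in 𝓝[≤] x, g y = f y) : LG g x := by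
  obtain ⟨k, c, hc, h⟩ := h
  exact ⟨k, c, hc, by filter_upwards [h, h2] with y h3 h4; rw [h4, h3]⟩

theorem TG.congr {f g : ℝ → ℝ} {x : ℝ} (h : TG f x) (h2 : ∀ᶠ y in 𝓝 x, g y = f y) : TG g x := by
  obtain ⟨k, c, hc, h⟩ := h
  exact ⟨k, c, hc, by filter_upwards [h, h2] with y h3 h4; rw [h4, h3]⟩

/-- composition of germs along arbitrary filters -/
theorem germ_comp {f g : ℝ → ℝ} {l l' : Filter ℝ} (hg : ∃ k : ℤ, ∃ c : ℝ, Dy c ∧ ∀ᶠ y in l, g y = (2 : ℝ) ^ k * y + c)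
    (hf : ∃ k : ℤ, ∃ c : ℝ, Dy c ∧ ∀ᶠ y in l', f y = (2 : ℝ) ^ k * y + c) (ht : Tendsto g l l') :
    ∃ k : ℤ, ∃ c : ℝ, Dy c ∧ ∀ᶠ y in l, f (g y) = (2 : ℝ) ^ k * y + c := by
  obtain ⟨k, c, hc, h⟩ := hg
  obtain ⟨k', c', hc', h'⟩ := hf
  refine ⟨k' + k, (2 : ℝ) ^ k' * c + c', ((Dy.zpow k').mul hc).add hc', ?_⟩
  filter_upwards [h, ht.eventually h'] with y h1 h2
  rw [h2, h1, zpow_add₀ (by norm_num)]
  ring

/-- inverse of germs along arbitrary filters -/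
theorem germ_inv {f g : ℝ → ℝ} {l l' : Filter ℝ} (hf : ∃ k : ℤ, ∃ c : ℝ, Dy c ∧ ∀ᶠ y in l, f y = (2 : ℝ) ^ k * y + c)
    (hinv : ∀ y, f (g y) = y) (ht : Tendsto g l' l) :
    ∃ k : ℤ, ∃ c : ℝ, Dy c ∧ ∀ᶠ y in l', g y = (2 : ℝ) ^ k * y + c := by
  obtain ⟨k, c, hc, h⟩ := hf
  refine ⟨-k, -((2 : ℝ) ^ (-k) * c), ((Dy.zpow _).mul hc).neg, ?_⟩
  filter_upwards [ht.eventually h] with y h1
  rw [hinv] at h1
  have := (two_zpow_pos k).ne'
  rw [zpow_neg]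
  field_simp
  linarith

theorem tendsto_ge_of_mono {f : ℝ → ℝ} (hf : Monotone f) (hc : Continuous f) (x : ℝ) :
    Tendsto f (𝓝[≥] x) (𝓝[≥] (f x)) := by
  apply tendsto_nhdsWithin_of_tendsto_nhds_of_eventually_within
  · exact (hc.tendsto x).mono_left nhdsWithin_le_nhds
  · filter_upwards [self_mem_nhdsWithin] with y hy
    exact hf hy

theorem tendsto_le_of_mono {f : ℝ → ℝ} (hf : Monotone f) (hc : Continuous f) (x : ℝ) :
    Tendsto f (𝓝[≤] x) (𝓝[≤] (f x)) := by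
  apply tendsto_nhdsWithin_of_tendsto_nhds_of_eventually_within
  · exact (hc.tendsto x).mono_left nhdsWithin_le_nhds
  · filter_upwards [self_mem_nhdsWithin] with y hy
    exact hf hy

/-! ### the group of locally dyadic PL homeomorphisms of ℝ -/

theorem StrictMono.perm_continuous {f : Equiv.Perm ℝ} (hf : StrictMono f) : Continuous f :=
  hf.monotone.continuous_of_surjective f.surjective

theorem StrictMono.perm_inv {f : Equiv.Perm ℝ} (hf : StrictMono f) : StrictMono (f⁻¹ : Equiv.Perm ℝ) := by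
  intro x y hxy
  by_contra h
  push Not at h
  have := hf.monotone h
  rw [pai, pai] at this
  exact absurd hxy (not_lt.mpr this)

/-- increasing, locally dyadic piecewise linear bijections of the line -/
def G : Subgroup (Equiv.Perm ℝ) where
  carrier := {f | StrictMono f ∧ ∀ x, LG f x ∧ RG f x ∧ (¬ Dy x → TG f x)}
  one_mem' := by
    refine ⟨strictMono_id, fun x => ⟨⟨0, 0, Dy.zero, ?_⟩, ⟨0, 0, Dy.zero, ?_⟩, fun _ => ⟨0, 0, Dy.zero, ?_⟩⟩⟩ <;>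
    · exact Eventually.of_forall (fun y => by simp)
  mul_mem' := by
    rintro f g ⟨hf, hf'⟩ ⟨hg, hg'⟩
    have cg := StrictMono.perm_continuous hg
    refine ⟨hf.comp hg, fun x => ⟨?_, ?_, fun hx => ?_⟩⟩
    · exact germ_comp (f := f) (g := g) (hg' x).1 (hf' (g x)).1 (tendsto_le_of_mono hg.monotone cg x)
    · exact germ_comp (f := f) (g := g) (hg' x).2.1 (hf' (g x)).2.1 (tendsto_ge_of_mono hg.monotone cg x)
    · refine germ_comp (f := f) (g := g) ((hg' x).2.2 hx) ((hf' (g x)).2.2 ?_) (cg.tendsto x)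
      rw [(hg' x).2.1.dy_iff]; exact hx
  inv_mem' := by
    rintro f ⟨hf, hf'⟩
    have hi := StrictMono.perm_inv hf
    have ci := StrictMono.perm_continuous hi
    have hinv : ∀ y, f ((f⁻¹ : Equiv.Perm ℝ) y) = y := fun y => pai f y
    refine ⟨hi, fun x => ⟨?_, ?_, fun hx => ?_⟩⟩
    · exact germ_inv (hf' _).1 hinv (tendsto_le_of_mono hi.monotone ci x)
    · exact germ_inv (hf' _).2.1 hinv (tendsto_ge_of_mono hi.monotone ci x)
    · refine germ_inv ((hf' ((f⁻¹ : Equiv.Perm ℝ) x)).2.2 ?_) hinv (ci.tendsto x)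
      intro h
      apply hx
      rw [← (hf' ((f⁻¹ : Equiv.Perm ℝ) x)).2.1.dy_iff, hinv] at h
      exact h

theorem mem_G {f : Equiv.Perm ℝ} : f ∈ G ↔ StrictMono f ∧ ∀ x, LG f x ∧ RG f x ∧ (¬ Dy x → TG f x) := Iff.rfl

theorem G.strictMono {f : Equiv.Perm ℝ} (hf : f ∈ G) : StrictMono f := hf.1

theorem G.mono {f : Equiv.Perm ℝ} (hf : f ∈ G) : Monotone f := hf.1.monotone

theorem G.continuous {f : Equiv.Perm ℝ} (hf : f ∈ G) : Continuous f := StrictMono.perm_continuous hf.1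

theorem G.lt_iff {f : Equiv.Perm ℝ} (hf : f ∈ G) {x y : ℝ} : f x < f y ↔ x < y := hf.1.lt_iff_lt

theorem G.le_iff {f : Equiv.Perm ℝ} (hf : f ∈ G) {x y : ℝ} : f x ≤ f y ↔ x ≤ y := hf.1.le_iff_le

theorem G.dy_iff {f : Equiv.Perm ℝ} (hf : f ∈ G) {x : ℝ} : Dy (f x) ↔ Dy x := (hf.2 x).2.1.dy_iff

theorem G.dy {f : Equiv.Perm ℝ} (hf : f ∈ G) {x : ℝ} (hx : Dy x) : Dy (f x) := (G.dy_iff hf).2 hx

/-- the affine map `x ↦ 2^k x + c` -/
noncomputable def aff (k : ℤ) (c : ℝ) : Equiv.Perm ℝ where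
  toFun x := (2 : ℝ) ^ k * x + c
  invFun x := (2 : ℝ) ^ (-k) * (x - c)
  left_inv x := by
    have := (two_zpow_pos k).ne'
    simp only [zpow_neg]
    field_simp
    ring
  right_inv x := by
    have := (two_zpow_pos k).ne'
    simp only [zpow_neg]
    field_simp
    ring

@[simp] theorem aff_apply (k : ℤ) (c x : ℝ) : aff k c x = (2 : ℝ) ^ k * x + c := rfl

theorem aff_mem (k : ℤ) {c : ℝ} (hc : Dy c) : aff k c ∈ G := by
  refine ⟨?_, fun x => ⟨⟨k, c, hc, ?_⟩, ⟨k, c, hc, ?_⟩, fun _ => ⟨k, c, hc, ?_⟩⟩⟩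
  · intro x y h
    simp only [aff_apply]
    have := mul_lt_mul_of_pos_left h (two_zpow_pos k)
    linarith
  all_goals exact Eventually.of_forall (fun y => rfl)

/-- the translation by `c` -/
noncomputable def tr (c : ℝ) : Equiv.Perm ℝ := aff 0 c

@[simp] theorem tr_apply (c x : ℝ) : tr c x = x + c := by simp [tr]

theorem tr_mem {c : ℝ} (hc : Dy c) : tr c ∈ G := aff_mem 0 hc

/-- gluing two elements at a dyadic point -/
theorem exists_glue {f g : Equiv.Perm ℝ} (hf : f ∈ G) (hg : g ∈ G) {p : ℝ} (hp : Dy p) (h : f p = g p) :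
    ∃ u ∈ G, (∀ x ≤ p, u x = f x) ∧ (∀ x, p ≤ x → u x = g x) := by
  classical
  let F : ℝ → ℝ := fun x => if x ≤ p then f x else g x
  have hF1 : ∀ x ≤ p, F x = f x := fun x hx => if_pos hx
  have hF2 : ∀ x, p ≤ x → F x = g x := by
    intro x hx
    rcases hx.eq_or_lt with rfl | hx
    · rw [hF1 _ le_rfl, h]
    · exact if_neg (not_le.mpr hx)
  have hmono : StrictMono F := by
    intro x y hxy
    rcases le_or_gt y p with hy | hy
    · rw [hF1 x (hxy.le.trans hy), hF1 y hy]; exact hf.1 hxy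
    · rcases le_or_gt x p with hx | hx
      · rw [hF1 x hx, hF2 y hy.le]
        calc f x ≤ f p := hf.1.monotone hx
          _ = g p := h
          _ < g y := hg.1 hy
      · rw [hF2 x hx.le, hF2 y hy.le]; exact hg.1 hxy
  have hsurj : Function.Surjective F := by
    intro y
    rcases le_or_gt y (f p) with hy | hy
    · obtain ⟨x, rfl⟩ := f.surjective y
      exact ⟨x, hF1 x ((G.le_iff hf).1 hy)⟩
    · obtain ⟨x, rfl⟩ := g.surjective y
      rw [h] at hy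
      exact ⟨x, hF2 x ((G.lt_iff hg).1 hy).le⟩
  refine ⟨Equiv.ofBijective F ⟨hmono.injective, hsurj⟩, ⟨hmono, fun x => ?_⟩, hF1, hF2⟩
  have e1 : ⇑(Equiv.ofBijective F ⟨hmono.injective, hsurj⟩) = F := rfl
  rw [e1]
  rcases lt_trichotomy x p with hx | hx | hx
  · have h1 : ∀ᶠ y in 𝓝 x, F y = f y := by
      filter_upwards [Iio_mem_nhds hx] with y hy
      exact hF1 y (le_of_lt hy)
    exact ⟨(hf.2 x).1.congr (nhdsWithin_le_nhds h1), (hf.2 x).2.1.congr (nhdsWithin_le_nhds h1),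
      fun hd => ((hf.2 x).2.2 hd).congr h1⟩
  · subst hx
    refine ⟨(hf.2 x).1.congr ?_, (hg.2 x).2.1.congr ?_, fun hd => absurd hp hd⟩
    · filter_upwards [self_mem_nhdsWithin] with y hy
      exact hF1 y hy
    · filter_upwards [self_mem_nhdsWithin] with y hy
      exact hF2 y hy
  · have h1 : ∀ᶠ y in 𝓝 x, F y = g y := by
      filter_upwards [Ioi_mem_nhds hx] with y hy
      exact hF2 y (le_of_lt hy)
    exact ⟨(hg.2 x).1.congr (nhdsWithin_le_nhds h1), (hg.2 x).2.1.congr (nhdsWithin_le_nhds h1),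
      fun hd => ((hg.2 x).2.2 hd).congr h1⟩

/-- basic stretching homeomorphism -/
theorem exists_stretch : ∃ f ∈ G, f 0 = 0 ∧ ∀ x : ℝ, 1 ≤ x → f x = x + 1 := by
  obtain ⟨u, hu, hu1, hu2⟩ := exists_glue (aff_mem 1 Dy.zero) (tr_mem Dy.one) Dy.one (by simp; norm_num)
  refine ⟨u, hu, ?_, fun x hx => ?_⟩
  · rw [hu1 0 (by norm_num)]; simp
  · rw [hu2 x hx]; simp

theorem exists_stretch_nat (n : ℕ) : ∃ f ∈ G, f 0 = 0 ∧ f 1 = (n : ℝ) + 1 := by
  obtain ⟨f, hf, hf0, hf1⟩ := exists_stretch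
  refine ⟨f ^ n, G.pow_mem hf n, ?_, ?_⟩
  · induction n with
    | zero => simp
    | succ n ih => rw [pow_succ', Equiv.Perm.mul_apply, ih, hf0]
  · induction n with
    | zero => simp
    | succ n ih =>
      rw [pow_succ', Equiv.Perm.mul_apply, ih, hf1 _ (by linarith [Nat.cast_nonneg (α := ℝ) n])]
      push_cast; ring

theorem Dy.pos_form {x : ℝ} (hx : Dy x) (h : 0 < x) : ∃ n e : ℕ, x = ((n : ℝ) + 1) / 2 ^ e := by
  obtain ⟨m, e, rfl⟩ := hx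
  have hpos : (0 : ℝ) < 2 ^ e := by positivity
  have hm : 0 < m := by
    rcases div_pos_iff.1 h with h1 | h1
    · exact_mod_cast h1.1
    · linarith [h1.2]
  refine ⟨(m - 1).toNat, e, ?_⟩
  have : (((m - 1).toNat : ℤ) : ℝ) = ((m - 1 : ℤ) : ℝ) := by
    rw [Int.toNat_of_nonneg (by omega)]
  have h2 : (((m - 1).toNat : ℕ) : ℝ) = (m : ℝ) - 1 := by
    push_cast at this
    rw [← this]
  rw [h2]; ring

/-- interpolation between dyadic intervals starting at 0 and [0,1] -/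
theorem exists_interp0 {x : ℝ} (hx : Dy x) (h : 0 < x) : ∃ f ∈ G, f 0 = 0 ∧ f 1 = x := by
  obtain ⟨n, e, rfl⟩ := hx.pos_form h
  obtain ⟨f, hf, hf0, hf1⟩ := exists_stretch_nat n
  refine ⟨aff (-(e : ℤ)) 0 * f, G.mul_mem (aff_mem _ Dy.zero) hf, ?_, ?_⟩
  · simp [hf0]
  · simp [hf1]
    field_simp

/-- interpolation: dyadic intervals are isomorphic -/
theorem exists_interp {a b c d : ℝ} (ha : Dy a) (hb : Dy b) (hc : Dy c) (hd : Dy d) (hab : a < b) (hcd : c < d) :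
    ∃ f ∈ G, f a = c ∧ f b = d := by
  obtain ⟨f, hf, hf0, hf1⟩ := exists_interp0 (hb.sub ha) (sub_pos.2 hab)
  obtain ⟨g, hg, hg0, hg1⟩ := exists_interp0 (hd.sub hc) (sub_pos.2 hcd)
  refine ⟨tr c * g * f⁻¹ * tr (-a), G.mul_mem (G.mul_mem (G.mul_mem (tr_mem hc) hg) (G.inv_mem hf)) (tr_mem ha.neg), ?_, ?_⟩
  · have h1 : (f⁻¹ : Equiv.Perm ℝ) 0 = 0 := pinv_eq hf0
    rw [Equiv.Perm.mul_apply, Equiv.Perm.mul_apply, Equiv.Perm.mul_apply, tr_apply, tr_apply, add_neg_cancel, h1, hg0,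
      zero_add]
  · have h1 : (f⁻¹ : Equiv.Perm ℝ) (b - a) = 1 := pinv_eq hf1
    rw [Equiv.Perm.mul_apply, Equiv.Perm.mul_apply, Equiv.Perm.mul_apply, tr_apply, tr_apply, ← sub_eq_add_neg, h1, hg1,
      sub_add_cancel]

/-- splicing: `f` on the left of `a`, `g` on the right of `b` -/
theorem exists_splice {f g : Equiv.Perm ℝ} (hf : f ∈ G) (hg : g ∈ G) {a b : ℝ} (ha : Dy a) (hb : Dy b)
    (hab : a < b) (h : f a < g b) :
    ∃ u ∈ G, (∀ x ≤ a, u x = f x) ∧ (∀ x, b ≤ x → u x = g x) := by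
  obtain ⟨m, hm, hma, hmb⟩ := exists_interp ha hb (G.dy hf ha) (G.dy hg hb) hab h
  obtain ⟨u, hu, hu1, hu2⟩ := exists_glue hf hm ha hma.symm
  obtain ⟨v, hv, hv1, hv2⟩ := exists_glue hu hg hb (by rw [hu2 b hab.le, hmb])
  refine ⟨v, hv, fun x hx => ?_, fun x hx => hv2 x hx⟩
  rw [hv1 x (hx.trans hab.le), hu1 x hx]

end Pool.Agent.Thompson
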