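import Mathlib

set_option autoImplicit false

/-!
# Thompson's groups, definitions shared by all files of the directory Pool.Agent.Thompson

The sets Vset, Fset, Tset are exactly the generating sets of the frozen statement S01251.
-/

namespace Pool.Agent.Thompson

open Set

/-- dyadic rational numbers -/
def Dy (x : ℝ) : Prop := ∃ m : ℤ, ∃ e : ℕ, x = (m : ℝ) / 2 ^ e

/-- the generating set used for `V` in the frozen statement -/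
def Vset : Set (Equiv.Perm ℝ) :=
  {σ : Equiv.Perm ℝ |
        (∀ x : ℝ, x ∉ Set.Ico (0:ℝ) 1 → σ x = x) ∧
        ∃ n : ℕ, ∃ a : ℕ → ℝ, ∃ k : ℕ → ℤ, ∃ c : ℕ → ℝ,
          a 0 = 0 ∧ a n = 1 ∧ (∀ i < n, a i < a (i + 1)) ∧
          (∀ i ≤ n, ∃ m : ℤ, ∃ e : ℕ, a i = (m : ℝ) / 2 ^ e) ∧
          (∀ i < n, ∃ m : ℤ, ∃ e : ℕ, c i = (m : ℝ) / 2 ^ e) ∧
          ∀ i < n, ∀ x ∈ Set.Ico (a i) (a (i + 1)), σ x = (2:ℝ) ^ (k i) * x + c i}

/-- Thompson's group `V` -/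
def VV : Subgroup (Equiv.Perm ℝ) := Subgroup.closure Vset

/-- the generating set used for `F` in the frozen statement -/
def Fset : Set (Equiv.Perm ℝ) :=
  {σ : Equiv.Perm ℝ | σ ∈ VV ∧ StrictMonoOn (⇑σ) (Set.Ico (0:ℝ) 1)}

/-- Thompson's group `F` -/
def FF : Subgroup (Equiv.Perm ℝ) := Subgroup.closure Fset

/-- the generating set used for `T` in the frozen statement -/
def Tset : Set (Equiv.Perm ℝ) :=
  {σ : Equiv.Perm ℝ |
        σ ∈ VV ∧ ∃ t ∈ Set.Ico (0:ℝ) 1,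
          ContinuousOn (⇑σ) (Set.Ico (0:ℝ) t) ∧ ContinuousOn (⇑σ) (Set.Ico t 1) ∧
          StrictMonoOn (⇑σ) (Set.Ico (0:ℝ) t) ∧ StrictMonoOn (⇑σ) (Set.Ico t 1) ∧
          σ t = 0}

/-- Thompson's group `T` -/
def TT : Subgroup (Equiv.Perm ℝ) := Subgroup.closure Tset

/-- The uniform normal form of elements of `V`: identity off `[0,1)` and, for some `N`, affine with slope a power
of two and dyadic constant on each interval `[j/2^N, (j+1)/2^N)`, `j < 2^N`. -/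
def UForm (σ : Equiv.Perm ℝ) : Prop :=
  (∀ x : ℝ, x ∉ Set.Ico (0:ℝ) 1 → σ x = x) ∧
  ∃ N : ℕ, ∀ j : ℕ, j < 2 ^ N → ∃ k : ℤ, ∃ c : ℝ, Dy c ∧
    ∀ x ∈ Set.Ico ((j : ℝ) / 2 ^ N) (((j : ℝ) + 1) / 2 ^ N), σ x = (2:ℝ) ^ k * x + c

/-- local affineness to the right of `x` -/
def RG (f : ℝ → ℝ) (x : ℝ) : Prop :=
  ∃ k : ℤ, ∃ c : ℝ, Dy c ∧ ∀ᶠ y in nhdsWithin x (Set.Ici x), f y = (2:ℝ) ^ k * y + c

/-- local affineness to the left of `x` -/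
def LG (f : ℝ → ℝ) (x : ℝ) : Prop :=
  ∃ k : ℤ, ∃ c : ℝ, Dy c ∧ ∀ᶠ y in nhdsWithin x (Set.Iic x), f y = (2:ℝ) ^ k * y + c

/-- local affineness near `x` -/
def TG (f : ℝ → ℝ) (x : ℝ) : Prop :=
  ∃ k : ℤ, ∃ c : ℝ, Dy c ∧ ∀ᶠ y in nhds x, f y = (2:ℝ) ^ k * y + c

end Pool.Agent.Thompson
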