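import Pool.Agent.Thompson.FMain2

set_option autoImplicit false

/-!
# The commutator width of F' is one
-/

namespace Pool.Agent.Thompson

open Set Filter Topology

theorem comm_of_pos {t : Equiv.Perm ℝ} {a b a' b' : ℝ} (htG : t ∈ G) (hst : Sp t a b) (ha' : Dy a') (hb' : Dy b')
    (h1 : a' < a) (h2 : b < b') (hpos : ∃ c, c < t c) :
    ∃ w ∈ GI a' b', ∃ s ∈ GI a' b', t = w * s * w⁻¹ * s⁻¹ := by
  have tc := G.continuous htG
  -- a dyadic point moved to the right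
  obtain ⟨e0, he0, h3⟩ : ∃ e0, Dy e0 ∧ e0 < t e0 := by
    obtain ⟨c, hc⟩ := hpos
    have hopen : IsOpen {x | x < t x} := isOpen_lt continuous_id tc
    obtain ⟨ε, hε, hball⟩ := Metric.isOpen_iff.1 hopen c hc
    obtain ⟨d, hd, hd1, hd2⟩ := exists_dy_btwn (show c < c + ε by linarith)
    exact ⟨d, hd, hball (by rw [Metric.mem_ball, Real.dist_eq, abs_lt]; constructor <;> linarith)⟩
  have h4 : t e0 < t (t e0) := (G.lt_iff htG).2 h3
  have h5 : t (t e0) < t (t (t e0)) := (G.lt_iff htG).2 h4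
  have h6 : t (t (t e0)) < t (t (t (t e0))) := (G.lt_iff htG).2 h5
  have hae : a < e0 := by
    by_contra hle
    push Not at hle
    rw [hst.1 e0 hle] at h3
    exact lt_irrefl _ h3
  have heb : t (t (t e0)) < b := by
    by_contra hle
    push Not at hle
    rw [hst.2 _ hle] at h6
    exact lt_irrefl _ h6
  have d16 : Dy 16 := Dy.ofNat 16
  have d24 : Dy 24 := Dy.ofNat 24
  have d32 : Dy 32 := Dy.ofNat 32
  have d40 : Dy 40 := Dy.ofNat 40
  have d64 : Dy 64 := Dy.ofNat 64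
  have d8 : Dy (-8) := (Dy.ofNat 8).neg
  obtain ⟨F0, hF0, F0a, F0b⟩ := exists_interp d16 d24 he0 (G.dy htG he0) (by norm_num) h3
  set F1 : Equiv.Perm ℝ := t * F0 * tr (-8) with hF1
  have hF1G : F1 ∈ G := G.mul_mem (G.mul_mem htG hF0) (tr_mem d8)
  have F1a : ∀ x, F1 (x + 8) = t (F0 x) := by
    intro x
    rw [hF1, Equiv.Perm.mul_apply, Equiv.Perm.mul_apply, tr_apply]
    congr 2
    ring
  set F2 : Equiv.Perm ℝ := t * F1 * tr (-8) with hF2
  have hF2G : F2 ∈ G := G.mul_mem (G.mul_mem htG hF1G) (tr_mem d8)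
  have F2a : ∀ x, F2 (x + 8) = t (F1 x) := by
    intro x
    rw [hF2, Equiv.Perm.mul_apply, Equiv.Perm.mul_apply, tr_apply]
    congr 2
    ring
  have F1_24 : F1 24 = t e0 := by rw [show (24 : ℝ) = 16 + 8 by norm_num, F1a, F0a]
  have F1_32 : F1 32 = t (t e0) := by rw [show (32 : ℝ) = 24 + 8 by norm_num, F1a, F0b]
  have F2_32 : F2 32 = t (t e0) := by rw [show (32 : ℝ) = 24 + 8 by norm_num, F2a, F1_24]
  have F2_40 : F2 40 = t (t (t e0)) := by rw [show (40 : ℝ) = 32 + 8 by norm_num, F2a, F1_32]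
  obtain ⟨A, hA, A1, A2⟩ := exists_glue hF0 hF1G d24 (by rw [F0b, F1_24])
  obtain ⟨B, hB, B1, B2⟩ := exists_glue hA hF2G d32 (by rw [A2 32 (by norm_num), F1_32, F2_32])
  have Brel : ∀ x, 16 ≤ x → x ≤ 32 → B (x + 8) = t (B x) := by
    intro x hx1 hx2
    rcases le_total x 24 with h | h
    · rw [B1 (x + 8) (by linarith), A2 (x + 8) (by linarith), F1a, B1 x (by linarith), A1 x h]
    · rw [B2 (x + 8) (by linarith), F2a, B1 x hx2, A2 x h]
  have B16 : B 16 = e0 := by rw [B1 16 (by norm_num), A1 16 (by norm_num), F0a]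
  have B40 : B 40 = t (t (t e0)) := by rw [B2 40 (by norm_num), F2_40]
  obtain ⟨C, hC, C1, C2⟩ := exists_splice (tr_mem ha') hB Dy.zero d16 (by norm_num) (by
    rw [B16]; simp; linarith)
  obtain ⟨D, hD, D1, D2⟩ := exists_splice hC (tr_mem (hb'.sub d64)) d40 d64 (by norm_num) (by
    rw [C2 40 (by norm_num), B40]; simp; linarith)
  have D0 : D 0 = a' := by rw [D1 0 (by norm_num), C1 0 le_rfl]; simp
  have D64 : D 64 = b' := by rw [D2 64 le_rfl]; simp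
  have Dmid : ∀ x, 16 ≤ x → x ≤ 40 → D x = B x := fun x hx1 hx2 => by rw [D1 x hx2, C2 x hx1]
  have hDi := G.inv_mem hD
  -- conjugate t
  have hsp : Sp (D⁻¹ * t * D⁻¹⁻¹) (D⁻¹ a) (D⁻¹ b) := hst.conj hDi
  rw [inv_inv] at hsp
  obtain ⟨w, hw, s, hs, hws⟩ := main_normalized (t := D⁻¹ * t * D) (G.mul_mem (G.mul_mem hDi htG) hD) hsp
    (by rw [lt_pinv hD, D0]; exact h1) (by rw [pinv_lt hD, D64]; exact h2) (fun x hx1 hx2 => by
      rw [Equiv.Perm.mul_apply, Equiv.Perm.mul_apply]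
      apply pinv_eq
      rw [Dmid _ (by linarith) (by linarith), Brel x hx1 hx2, Dmid x hx1 (by linarith)])
  have hw' := GI.conj hD hw
  have hs' := GI.conj hD hs
  rw [D0, D64] at hw' hs'
  refine ⟨_, hw', _, hs', ?_⟩
  have : t = D * (D⁻¹ * t * D) * D⁻¹ := by group
  rw [this, hws]
  group

theorem comm_of_supp {t : Equiv.Perm ℝ} {a b a' b' : ℝ} (htG : t ∈ G) (hst : Sp t a b) (ha' : Dy a') (hb' : Dy b')
    (h1 : a' < a) (h2 : b < b') : ∃ w ∈ GI a' b', ∃ s ∈ GI a' b', t = w * s * w⁻¹ * s⁻¹ := by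
  by_cases hpos : ∃ c, c < t c
  · exact comm_of_pos htG hst ha' hb' h1 h2 hpos
  · by_cases hneg : ∃ c, c < t⁻¹ c
    · obtain ⟨w, hw, s, hs, h⟩ := comm_of_pos (G.inv_mem htG) hst.inv ha' hb' h1 h2 hneg
      refine ⟨s, hs, w, hw, ?_⟩
      rw [← inv_inv t, h]
      group
    · have : t = 1 := by
        ext x
        push Not at hpos hneg
        have e1 := hpos x
        have e2 := hneg x
        have e3 := (G.mono htG) e2
        rw [pai] at e3
        simp only [Equiv.Perm.coe_one, id_eq]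
        exact le_antisymm e1 e3
      exact ⟨1, Subgroup.one_mem _, 1, Subgroup.one_mem _, by rw [this]; simp⟩

/-- every element of `HI a b` is a commutator of elements of `HI a b` -/
theorem HI_comm {a b : ℝ} (hab : a < b) {t : Equiv.Perm ℝ} (ht : t ∈ HI a b) :
    ∃ w ∈ HI a b, ∃ s ∈ HI a b, t = w * s * w⁻¹ * s⁻¹ := by
  obtain ⟨htG, a1, b1, ha1, hb1, h1, h2, h3, h4⟩ := (mem_HI hab).1 ht
  obtain ⟨a2, ha2, h5, h6⟩ := exists_dy_btwn h1
  obtain ⟨b2, hb2, h7, h8⟩ := exists_dy_btwn h3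
  obtain ⟨w, hw, s, hs, h⟩ := comm_of_supp htG h4 ha2 hb2 h6 h7
  have hle : GI a2 b2 ≤ HI a b := GI_le_HI h5 (by linarith) h8
  exact ⟨w, hle hw, s, hle hs, h⟩

/-- germ at the left endpoint -/
theorem germ_left {f : Equiv.Perm ℝ} {a b : ℝ} (hf : f ∈ GI a b) :
    ∃ k : ℤ, ∀ᶠ x in 𝓝[≥] a, f x = (2 : ℝ) ^ k * (x - a) + a := by
  obtain ⟨k, c, hc, h1, h2⟩ := (hf.1.2 a).2.1.self_eq
  rw [hf.2.1 a le_rfl] at h1
  refine ⟨k, ?_⟩
  filter_upwards [h2] with x hx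
  rw [hx]; linarith

theorem germ_right {f : Equiv.Perm ℝ} {a b : ℝ} (hf : f ∈ GI a b) :
    ∃ k : ℤ, ∀ᶠ x in 𝓝[≤] b, f x = (2 : ℝ) ^ k * (x - b) + b := by
  obtain ⟨k, c, hc, h2⟩ := (hf.1.2 b).1
  have h1 := h2.self_of_nhdsWithin self_mem_Iic
  rw [hf.2.2 b le_rfl] at h1
  refine ⟨k, ?_⟩
  filter_upwards [h2] with x hx
  rw [hx]; linarith

theorem comm_germ {l : Filter ℝ} {f g : Equiv.Perm ℝ} {a : ℝ} {k m : ℤ}
    (hf : ∀ᶠ x in l, f x = (2 : ℝ) ^ k * (x - a) + a) (hg : ∀ᶠ x in l, g x = (2 : ℝ) ^ m * (x - a) + a)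
    (tf : Tendsto f l l) (tg : Tendsto g l l) (tfi : Tendsto (⇑f⁻¹) l l) (tgi : Tendsto (⇑g⁻¹) l l) :
    ∀ᶠ y in l, (f * g * f⁻¹ * g⁻¹) y = y := by
  have h1 : ∀ᶠ x in l, f (g x) = g (f x) := by
    filter_upwards [hf, hg, tf.eventually hg, tg.eventually hf] with x h1 h2 h3 h4
    rw [h4, h3, h1, h2]; ring
  filter_upwards [(tfi.comp tgi).eventually h1] with y hy
  simp only [Function.comp] at hy
  simp only [Equiv.Perm.mul_apply]
  rw [hy, pai, pai]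

theorem tendsto_right_self {f : Equiv.Perm ℝ} {a b : ℝ} (hf : f ∈ GI a b) : Tendsto f (𝓝[≥] a) (𝓝[≥] a) := by
  have := tendsto_ge_of_mono (G.mono hf.1) (G.continuous hf.1) a
  rwa [hf.2.1 a le_rfl] at this

theorem tendsto_left_self {f : Equiv.Perm ℝ} {a b : ℝ} (hf : f ∈ GI a b) : Tendsto f (𝓝[≤] b) (𝓝[≤] b) := by
  have := tendsto_le_of_mono (G.mono hf.1) (G.continuous hf.1) b
  rwa [hf.2.2 b le_rfl] at this

theorem commutator_GI_le {a b : ℝ} (hab : a < b) : ⁅GI a b, GI a b⁆ ≤ HI a b := by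
  rw [Subgroup.commutator_le]
  intro f hf g hg
  rw [commutatorElement_def]
  have hfi := (GI a b).inv_mem hf
  have hgi := (GI a b).inv_mem hg
  have hc : f * g * f⁻¹ * g⁻¹ ∈ GI a b := (GI a b).mul_mem ((GI a b).mul_mem ((GI a b).mul_mem hf hg) hfi) hgi
  obtain ⟨k1, hk1⟩ := germ_left hf
  obtain ⟨k2, hk2⟩ := germ_left hg
  obtain ⟨k3, hk3⟩ := germ_right hf
  obtain ⟨k4, hk4⟩ := germ_right hg
  have e1 := comm_germ hk1 hk2 (tendsto_right_self hf) (tendsto_right_self hg) (tendsto_right_self hfi)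
    (tendsto_right_self hgi)
  have e2 := comm_germ hk3 hk4 (tendsto_left_self hf) (tendsto_left_self hg) (tendsto_left_self hfi)
    (tendsto_left_self hgi)
  rw [Filter.Eventually, mem_nhdsGE_iff_exists_Ico_subset] at e1
  rw [Filter.Eventually, mem_nhdsLE_iff_exists_Ioc_subset] at e2
  obtain ⟨r, hr, e1⟩ := e1
  obtain ⟨l, hl, e2⟩ := e2
  simp only [mem_Ioi, mem_Iio] at hr hl
  obtain ⟨m, hm1, hm2⟩ := exists_between hab
  obtain ⟨a1, ha1, ha2⟩ := exists_between (show a < min r m from lt_min hr hm1)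
  obtain ⟨b1, hb1, hb2⟩ := exists_between (show max l m < b from max_lt hl hm2)
  have ha3 := ha2.trans_le (min_le_left _ _)
  have ha4 := ha2.trans_le (min_le_right _ _)
  have hb3 := (le_max_left _ _).trans_lt hb1
  have hb4 := (le_max_right _ _).trans_lt hb1
  refine Or.inl ⟨hc.1, a1, b1, ha1, by linarith, hb2, fun x hx => ?_, fun x hx => ?_⟩
  · rcases le_total x a with h | h
    · exact hc.2.1 x h
    · exact e1 ⟨h, by linarith⟩
  · rcases le_total b x with h | h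
    · exact hc.2.2 x h
    · exact e2 ⟨by linarith, h⟩

theorem HI_le_commutator {a b : ℝ} (hab : a < b) {K : Subgroup (Equiv.Perm ℝ)} (hK : HI a b ≤ K) : HI a b ≤ ⁅K, K⁆ := by
  intro t ht
  obtain ⟨w, hw, s, hs, h⟩ := HI_comm hab ht
  rw [h, ← commutatorElement_def]
  exact Subgroup.commutator_mem_commutator (hK hw) (hK hs)

theorem commutator_FF : ⁅FF, FF⁆ = HI 0 1 := by
  rw [FF_eq]
  exact le_antisymm (commutator_GI_le one_pos) (HI_le_commutator one_pos (HI_le_GI 0 1))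

theorem commutator_HI : ⁅HI 0 1, HI 0 1⁆ = HI 0 1 :=
  le_antisymm ((Subgroup.commutator_mono (HI_le_GI 0 1) (HI_le_GI 0 1)).trans (commutator_GI_le one_pos))
    (HI_le_commutator one_pos le_rfl)

theorem HI_ne_bot : HI 0 1 ≠ ⊥ := by
  intro h
  obtain ⟨φ, hφ, hφ1⟩ := exists_displace (a := 1 / 2 / 2) (b := 7 / 2 / 2 / 2) (a1 := 1 / 2) (b1 := 3 / 2 / 2)
    Dy.one.div_two.div_two (Dy.ofNat 7).div_two.div_two.div_two Dy.one.div_two (Dy.ofNat 3).div_two.div_two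
    (by norm_num) (by norm_num) (by norm_num)
  have h2 : φ ∈ HI 0 1 := GI_le_HI (by norm_num) (by norm_num) (by norm_num) hφ
  rw [h, Subgroup.mem_bot] at h2
  rw [h2] at hφ1
  simp at hφ1
  norm_num at hφ1

/-- **Part A: the statement for F.** -/
theorem partF : ⁅⁅FF, FF⁆, ⁅FF, FF⁆⁆ ≠ ⊥ ∧
    ∀ g ∈ ⁅⁅FF, FF⁆, ⁅FF, FF⁆⁆, ∃ a ∈ ⁅FF, FF⁆, ∃ b ∈ ⁅FF, FF⁆, g = a * b * a⁻¹ * b⁻¹ := by
  rw [commutator_FF, commutator_HI]
  exact ⟨HI_ne_bot, fun g hg => HI_comm one_pos hg⟩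

end Pool.Agent.Thompson
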