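import Pool.Agent.Thompson.Base

set_option autoImplicit false

/-!
# F as a group of dyadic PL homeomorphisms of the line
-/

namespace Pool.Agent.Thompson

open Set Filter Topology

theorem G.local_level {f : Equiv.Perm ℝ} (hf : f ∈ G) (x : ℝ) :
    ∃ δ > 0, ∃ n, ∀ N ≥ n, ∀ u, OnG N u → |u - x| < δ → AffOn f u (u + 1 / 2 ^ N) := by
  have key : ∀ ε > (0 : ℝ), ∃ n : ℕ, ∀ N ≥ n, (1 : ℝ) / 2 ^ N < ε := by
    intro ε hε
    obtain ⟨n, hn⟩ := exists_pow_lt_of_lt_one hε (show (1 / 2 : ℝ) < 1 by norm_num)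
    refine ⟨n, fun N hN => lt_of_le_of_lt ?_ hn⟩
    rw [one_div_pow]
    gcongr
    norm_num
  by_cases hx : Dy x
  · obtain ⟨k1, c1, hc1, h1⟩ := (hf.2 x).1
    obtain ⟨k2, c2, hc2, h2⟩ := (hf.2 x).2.1
    rw [Filter.Eventually, mem_nhdsLE_iff_exists_Ioc_subset] at h1
    rw [Filter.Eventually, mem_nhdsGE_iff_exists_Ico_subset] at h2
    obtain ⟨l, hl, h1⟩ := h1
    obtain ⟨r, hr, h2⟩ := h2
    simp only [mem_Iio, mem_Ioi] at hl hr
    obtain ⟨e, he⟩ := hx.onG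
    obtain ⟨n, hn⟩ := key ((r - x) / 2) (by linarith)
    refine ⟨min (x - l) ((r - x) / 2), by
      apply lt_min <;> linarith, max n e, fun N hN u hu hux => ?_⟩
    have hux1 := hux.trans_le (min_le_left _ _)
    have hux2 := hux.trans_le (min_le_right _ _)
    rw [abs_lt] at hux1 hux2
    have hstep := hn N (by omega)
    rcases lt_or_ge u x with hlt | hge
    · have := hu.step_le (he.mono (show e ≤ N by omega)) hlt
      refine ⟨k1, c1, hc1, fun y hy => h1 ⟨?_, ?_⟩⟩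
      · linarith [hy.1, hux1.1]
      · linarith [hy.2]
    · refine ⟨k2, c2, hc2, fun y hy => h2 ⟨?_, ?_⟩⟩
      · linarith [hy.1]
      · linarith [hy.2, hux2.2]
  · obtain ⟨k, c, hc, h⟩ := (hf.2 x).2.2 hx
    rw [Metric.eventually_nhds_iff] at h
    obtain ⟨ε, hε, h⟩ := h
    obtain ⟨n, hn⟩ := key (ε / 2) (by linarith)
    refine ⟨ε / 2, by linarith, n, fun N hN u hu hux => ⟨k, c, hc, fun y hy => h ?_⟩⟩
    have hstep := hn N hN
    rw [abs_lt] at hux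
    rw [Real.dist_eq, abs_lt]
    constructor
    · linarith [hy.1, hux.1]
    · linarith [hy.2, hux.2]

theorem G.exists_level {f : Equiv.Perm ℝ} (hf : f ∈ G) (a b : ℝ) :
    ∃ n, ∀ N ≥ n, ∀ u, OnG N u → a ≤ u → u ≤ b → AffOn f u (u + 1 / 2 ^ N) := by
  choose δ hδ n hn using fun x => G.local_level hf x
  obtain ⟨t, -, ht⟩ := (isCompact_Icc (a := a) (b := b)).elim_nhds_subcover (fun x => Metric.ball x (δ x))
    (fun x _ => Metric.ball_mem_nhds x (hδ x))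
  refine ⟨t.sup n, fun N hN u hu hau hub => ?_⟩
  have := ht ⟨hau, hub⟩
  simp only [mem_iUnion] at this
  obtain ⟨x, hx, hux⟩ := this
  rw [Metric.mem_ball, Real.dist_eq] at hux
  exact hn x N (le_trans (Finset.le_sup hx) hN) u hu hux

theorem mem_G_of_lev {σ : Equiv.Perm ℝ} (hs : StrictMono σ) {N : ℕ} (h : Lev σ N) : σ ∈ G := by
  have hcont := StrictMono.perm_continuous hs
  have hpos : (0 : ℝ) < 1 / 2 ^ N := by positivity
  have hR : ∀ x, RG σ x := by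
    intro x
    obtain ⟨u, hu, h1, h2⟩ := exists_cell N x
    obtain ⟨k, c, hc, hk⟩ := h u hu
    refine ⟨k, c, hc, ?_⟩
    have : Ico x (u + 1 / 2 ^ N) ∈ 𝓝[≥] x := Ico_mem_nhdsGE h2
    filter_upwards [this] with y hy
    exact hk y ⟨h1.trans hy.1, hy.2⟩
  have hT : ∀ x, ¬ OnG N x → TG σ x := by
    intro x hx
    obtain ⟨u, hu, h1, h2⟩ := exists_cell N x
    obtain ⟨k, c, hc, hk⟩ := h u hu
    have h3 : u < x := lt_of_le_of_ne h1 (fun e => hx (e ▸ hu))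
    refine ⟨k, c, hc, ?_⟩
    filter_upwards [Ioo_mem_nhds h3 h2] with y hy
    exact hk y ⟨hy.1.le, hy.2⟩
  refine ⟨hs, fun x => ⟨?_, hR x, fun hx => hT x (fun h => hx h.dy)⟩⟩
  by_cases hx : OnG N x
  · have hx' : OnG N (x - 1 / 2 ^ N) := by
      obtain ⟨m, rfl⟩ := hx
      exact ⟨m - 1, by push_cast; ring⟩
    obtain ⟨k, c, hc, hk⟩ := h _ hx'
    rw [sub_add_cancel] at hk
    have hxval : σ x = (2 : ℝ) ^ k * x + c := by
      have t1 : Tendsto (fun y => σ y) (𝓝[<] x) (𝓝 (σ x)) := (hcont.tendsto x).mono_left nhdsWithin_le_nhds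
      have t2 : Tendsto (fun y => (2 : ℝ) ^ k * y + c) (𝓝[<] x) (𝓝 ((2 : ℝ) ^ k * x + c)) := by
        have : Continuous (fun y : ℝ => (2 : ℝ) ^ k * y + c) := by fun_prop
        exact (this.tendsto x).mono_left nhdsWithin_le_nhds
      refine tendsto_nhds_unique (t1.congr' ?_) t2
      have : Ico (x - 1 / 2 ^ N) x ∈ 𝓝[<] x := Ico_mem_nhdsLT (by linarith)
      filter_upwards [this] with y hy
      exact hk y hy
    refine ⟨k, c, hc, ?_⟩
    have : Ioc (x - 1 / 2 ^ N) x ∈ 𝓝[≤] x := Ioc_mem_nhdsLE (by linarith)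
    filter_upwards [this] with y hy
    rcases hy.2.eq_or_lt with rfl | hlt
    · exact hxval
    · exact hk y ⟨hy.1.le, hlt⟩
  · obtain ⟨k, c, hc, hk⟩ := hT x hx
    exact ⟨k, c, hc, nhdsWithin_le_nhds hk⟩

/-- `f` is the identity outside `(a,b)` -/
def Sp (f : Equiv.Perm ℝ) (a b : ℝ) : Prop := (∀ x, x ≤ a → f x = x) ∧ (∀ x, b ≤ x → f x = x)

theorem Sp.one (a b : ℝ) : Sp 1 a b := ⟨fun _ _ => rfl, fun _ _ => rfl⟩

theorem Sp.mul {f g : Equiv.Perm ℝ} {a b : ℝ} (hf : Sp f a b) (hg : Sp g a b) : Sp (f * g) a b :=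
  ⟨fun x hx => by rw [Equiv.Perm.mul_apply, hg.1 x hx, hf.1 x hx],
   fun x hx => by rw [Equiv.Perm.mul_apply, hg.2 x hx, hf.2 x hx]⟩

theorem Sp.inv {f : Equiv.Perm ℝ} {a b : ℝ} (hf : Sp f a b) : Sp f⁻¹ a b :=
  ⟨fun x hx => pinv_eq (hf.1 x hx), fun x hx => pinv_eq (hf.2 x hx)⟩

theorem Sp.mono {f : Equiv.Perm ℝ} {a b a' b' : ℝ} (hf : Sp f a b) (ha : a' ≤ a) (hb : b ≤ b') : Sp f a' b' :=
  ⟨fun x hx => hf.1 x (hx.trans ha), fun x hx => hf.2 x (hb.trans hx)⟩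

/-- dyadic PL homeomorphisms supported in `[a,b]` -/
def GI (a b : ℝ) : Subgroup (Equiv.Perm ℝ) where
  carrier := {f | f ∈ G ∧ Sp f a b}
  one_mem' := ⟨G.one_mem, Sp.one a b⟩
  mul_mem' := fun hf hg => ⟨G.mul_mem hf.1 hg.1, hf.2.mul hg.2⟩
  inv_mem' := fun hf => ⟨G.inv_mem hf.1, hf.2.inv⟩

theorem mem_GI {f : Equiv.Perm ℝ} {a b : ℝ} : f ∈ GI a b ↔ f ∈ G ∧ Sp f a b := Iff.rfl

/-- dyadic PL homeomorphisms with compact support inside `(a,b)` -/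
def HI (a b : ℝ) : Subgroup (Equiv.Perm ℝ) where
  carrier := {f | f ∈ G ∧ ∃ a' b', a < a' ∧ a' < b' ∧ b' < b ∧ Sp f a' b'} ∪ {1}
  one_mem' := Or.inr rfl
  mul_mem' := by
    rintro f g (⟨hf, a1, b1, h1, h2, h3, h4⟩ | hf) (⟨hg, a2, b2, h1', h2', h3', h4'⟩ | hg)
    · refine Or.inl ⟨G.mul_mem hf hg, min a1 a2, max b1 b2, lt_min h1 h1', ?_, max_lt h3 h3', ?_⟩
      · exact (min_le_left _ _).trans_lt (h2.trans_le (le_max_left _ _))
      · exact (h4.mono (min_le_left _ _) (le_max_left _ _)).mul (h4'.mono (min_le_right _ _) (le_max_right _ _))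
    · rw [mem_singleton_iff] at hg
      subst hg
      rw [mul_one]
      exact Or.inl ⟨hf, a1, b1, h1, h2, h3, h4⟩
    · rw [mem_singleton_iff] at hf
      subst hf
      rw [one_mul]
      exact Or.inl ⟨hg, a2, b2, h1', h2', h3', h4'⟩
    · rw [mem_singleton_iff] at hf hg
      subst hf hg
      exact Or.inr (by simp)
  inv_mem' := by
    rintro f (⟨hf, a1, b1, h1, h2, h3, h4⟩ | hf)
    · exact Or.inl ⟨G.inv_mem hf, a1, b1, h1, h2, h3, h4.inv⟩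
    · rw [mem_singleton_iff] at hf
      subst hf
      exact Or.inr (by simp)

theorem mem_HI {f : Equiv.Perm ℝ} {a b : ℝ} (hab : a < b) :
    f ∈ HI a b ↔ f ∈ G ∧ ∃ a' b', Dy a' ∧ Dy b' ∧ a < a' ∧ a' < b' ∧ b' < b ∧ Sp f a' b' := by
  constructor
  · rintro (⟨hf, a1, b1, h1, h2, h3, h4⟩ | hf)
    · obtain ⟨a2, ha2, h5, h6⟩ := exists_dy_btwn h1
      obtain ⟨b2, hb2, h7, h8⟩ := exists_dy_btwn h3
      exact ⟨hf, a2, b2, ha2, hb2, h5, by linarith, h8, h4.mono h6.le h7.le⟩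
    · rw [mem_singleton_iff] at hf
      subst hf
      obtain ⟨a2, ha2, h5, h6⟩ := exists_dy_btwn hab
      obtain ⟨b2, hb2, h7, h8⟩ := exists_dy_btwn h6
      exact ⟨G.one_mem, a2, b2, ha2, hb2, h5, h7, h8, Sp.one _ _⟩
  · rintro ⟨hf, a1, b1, -, -, h1, h2, h3, h4⟩
    exact Or.inl ⟨hf, a1, b1, h1, h2, h3, h4⟩

theorem HI.mem_G {f : Equiv.Perm ℝ} {a b : ℝ} (h : f ∈ HI a b) : f ∈ G := by
  rcases h with h | h
  · exact h.1
  · rw [mem_singleton_iff] at h; rw [h]; exact G.one_mem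

theorem HI.sp {f : Equiv.Perm ℝ} {a b : ℝ} (h : f ∈ HI a b) : Sp f a b := by
  rcases h with ⟨hf, a1, b1, h1, h2, h3, h4⟩ | h
  · exact h4.mono h1.le h3.le
  · rw [mem_singleton_iff] at h; rw [h]; exact Sp.one _ _

theorem HI.mono {a b a' b' : ℝ} (ha : a' ≤ a) (hb : b ≤ b') : HI a b ≤ HI a' b' := by
  rintro f (⟨hf, a1, b1, h1, h2, h3, h4⟩ | h)
  · exact Or.inl ⟨hf, a1, b1, by linarith, h2, by linarith, h4⟩
  · exact Or.inr h

theorem HI_le_GI (a b : ℝ) : HI a b ≤ GI a b := fun _ h => ⟨HI.mem_G h, HI.sp h⟩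

theorem GI_le_HI {a b a' b' : ℝ} (ha : a' < a) (hab : a < b) (hb : b < b') : GI a b ≤ HI a' b' :=
  fun _ h => Or.inl ⟨h.1, a, b, ha, hab, hb, h.2⟩

theorem Fset_sub : Fset ⊆ GI 0 1 := by
  rintro σ ⟨hV, hm⟩
  rw [mem_VV_iff_lev] at hV
  obtain ⟨h0, N, hN⟩ := hV
  have hs : StrictMono σ := by
    intro x y hxy
    by_cases hx : x ∈ Ico (0:ℝ) 1 <;> by_cases hy : y ∈ Ico (0:ℝ) 1
    · exact hm hx hy hxy
    · have h1 := (perm_mem_Ico h0).2 hx
      rw [h0 y hy]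
      have : 1 ≤ y := by
        by_contra hlt
        push Not at hlt
        exact hy ⟨hx.1.trans hxy.le, hlt⟩
      linarith [h1.2]
    · have h1 := (perm_mem_Ico h0).2 hy
      rw [h0 x hx]
      have : x < 0 := by
        by_contra hlt
        push Not at hlt
        exact hx ⟨hlt, hxy.trans hy.2⟩
      linarith [h1.1]
    · rw [h0 x hx, h0 y hy]; exact hxy
  refine ⟨mem_G_of_lev hs hN, fun x hx => ?_, fun x hx => h0 x (fun h => not_lt.mpr hx h.2)⟩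
  rcases hx.eq_or_lt with rfl | hlt
  · -- σ 0 = 0
    have h1 : σ 0 ∈ Ico (0:ℝ) 1 := (perm_mem_Ico h0).2 (by simp)
    have h2 : σ⁻¹ 0 ∈ Ico (0:ℝ) 1 := by
      rw [← perm_mem_Ico h0, pai]; simp
    have h3 : σ 0 ≤ σ (σ⁻¹ 0) := hs.monotone h2.1
    rw [pai] at h3
    exact le_antisymm h3 h1.1
  · exact h0 x (fun h => not_lt.mpr h.1 hlt)

theorem GI_uform {σ : Equiv.Perm ℝ} (h : σ ∈ GI 0 1) : UForm σ := by
  rw [uform_iff]
  obtain ⟨hG, h0, h1⟩ := h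
  have hid : ∀ x : ℝ, x ∉ Set.Ico (0:ℝ) 1 → σ x = x := by
    intro x hx
    rcases lt_or_ge x 0 with h | h
    · exact h0 x h.le
    · refine h1 x ?_
      by_contra hlt
      push Not at hlt
      exact hx ⟨h, hlt⟩
  refine ⟨hid, ?_⟩
  obtain ⟨n, hn⟩ := G.exists_level hG 0 1
  refine ⟨n, fun u hu => ?_⟩
  by_cases hu1 : 0 ≤ u ∧ u ≤ 1
  · exact hn n le_rfl u hu hu1.1 hu1.2
  · refine ⟨0, 0, Dy.zero, fun x hx => ?_⟩
    rw [zpow_zero, one_mul, add_zero]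
    apply hid
    rintro ⟨hx0, hx1⟩
    apply hu1
    refine ⟨?_, (hx.1.trans_lt hx1).le⟩
    by_contra hneg
    push Not at hneg
    have := hu.step_le OnG.zero hneg
    linarith [hx.2]

theorem FF_eq : FF = GI 0 1 := by
  apply le_antisymm
  · exact (Subgroup.closure_le _).2 Fset_sub
  · intro σ hσ
    refine Subgroup.subset_closure ⟨mem_VV_iff.2 (GI_uform hσ), ?_⟩
    exact (G.strictMono hσ.1).strictMonoOn _

end Pool.Agent.Thompson
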