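import Pool.Agent.Thompson.Perfect2
import Pool.Agent.Thompson.Algebra

set_option autoImplicit false

/-!
# Every compactly supported element is one commutator
-/

namespace Pool.Agent.Thompson

open Set Filter Topology

/-- **Gluing lemma**: two elements with the same germs and the same transition are conjugate. -/
theorem intertwine {s1 s2 : Equiv.Perm ℝ} {lo hi P Q : ℝ} (h1 : s1 ∈ GI lo hi) (h2 : s2 ∈ GI lo hi) (hQ : Dy Q)
    (m n : ℕ) (hnm : n ≤ m) (hL : ∀ x ≤ P, s1 x = s2 x) (hR : ∀ x, Q ≤ x → s1 x = s2 x)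
    (hQs : Q < s1 Q) (hPQ : (s1 ^ m) P = Q) (hPs : P ≤ s1 P)
    (hag : ∀ x, P ≤ x → x ≤ s1 P → (s1 ^ m) x = (s2 ^ n) x) : ∃ y ∈ GI lo hi, y * s1 * y⁻¹ = s2 := by
  have hs1 := h1.1
  have hs2 := h2.1
  have hsm := G.pow_mem hs1 m
  have eY2 : ∀ x, P ≤ x → x ≤ s1 P → (s2 ^ (m - n)) ((s1 ^ m) x) = (s2 ^ m) x := by
    intro x hx1 hx2
    rw [hag x hx1 hx2, ← Equiv.Perm.mul_apply, ← pow_add, Nat.sub_add_cancel hnm]
  obtain ⟨y, hy, hy1, hy2⟩ := exists_glue (f := s2 ^ m * (s1 ^ m)⁻¹) (g := s2 ^ (m - n)) (G.mul_mem (G.pow_mem hs2 m) (G.inv_mem hsm))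
    (G.pow_mem hs2 (m - n)) hQ (by
      rw [Equiv.Perm.mul_apply, pinv_eq hPQ, ← hPQ, eY2 P le_rfl hPs])
  have hyI : y ∈ GI lo hi := by
    have a1 : s2 ^ m * (s1 ^ m)⁻¹ ∈ GI lo hi := (GI lo hi).mul_mem ((GI lo hi).pow_mem h2 m)
      ((GI lo hi).inv_mem ((GI lo hi).pow_mem h1 m))
    have a2 : s2 ^ (m - n) ∈ GI lo hi := (GI lo hi).pow_mem h2 _
    refine ⟨hy, fun x hx => ?_, fun x hx => ?_⟩
    · rcases le_total x Q with h | h
      · rw [hy1 x h, a1.2.1 x hx]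
      · rw [hy2 x h, a2.2.1 x hx]
    · rcases le_total x Q with h | h
      · rw [hy1 x h, a1.2.2 x hx]
      · rw [hy2 x h, a2.2.2 x hx]
  -- y agrees with Y1 up to s1 Q
  have hy3 : ∀ x ≤ s1 Q, y x = (s2 ^ m * (s1 ^ m)⁻¹) x := by
    intro x hx
    rcases le_total x Q with h | h
    · exact hy1 x h
    · rw [hy2 x h, Equiv.Perm.mul_apply]
      obtain ⟨w, rfl⟩ := (s1 ^ m).surjective x
      rw [pia]
      apply eY2
      · rw [← hPQ] at h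
        exact (G.le_iff hsm).1 h
      · rw [← hPQ, ← Equiv.Perm.mul_apply, ← pow_succ', pow_succ, Equiv.Perm.mul_apply] at hx
        exact (G.le_iff hsm).1 hx
  refine ⟨y, hyI, ?_⟩
  rw [mul_inv_eq_iff_eq_mul]
  ext x
  rw [Equiv.Perm.mul_apply, Equiv.Perm.mul_apply]
  rcases le_total x Q with h | h
  · rw [hy3 (s1 x) ((G.le_iff hs1).2 h), hy1 x h]
    obtain ⟨w, rfl⟩ := (s1 ^ m).surjective x
    have hw : w ≤ P := by
      rw [← hPQ] at h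
      exact (G.le_iff hsm).1 h
    have e1 : s1 ((s1 ^ m) w) = (s1 ^ m) (s1 w) := by
      rw [← Equiv.Perm.mul_apply, ← Equiv.Perm.mul_apply, ← pow_succ', pow_succ]
    rw [e1, Equiv.Perm.mul_apply, Equiv.Perm.mul_apply, pia, pia, hL w hw, ← Equiv.Perm.mul_apply,
      ← Equiv.Perm.mul_apply, ← pow_succ', pow_succ]
  · have h3 : Q ≤ s1 x := hQs.le.trans ((G.le_iff hs1).2 h)
    rw [hy2 _ h3, hy2 x h, hR x h, ← Equiv.Perm.mul_apply, ← Equiv.Perm.mul_apply, ← pow_succ', pow_succ]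

/-- displacing element inside `(a,b)` -/
theorem exists_displace {a b a1 b1 : ℝ} (ha : Dy a) (hb : Dy b) (ha1 : Dy a1) (hb1 : Dy b1) (h1 : a < a1) (h2 : a1 < b1)
    (h3 : b1 < b) : ∃ φ ∈ GI a b, b1 ≤ φ a1 := by
  obtain ⟨u, hu, hu1, hu2⟩ := exists_splice G.one_mem (tr_mem (hb1.sub ha1)) ha ha1 h1 (by simp; linarith)
  obtain ⟨v, hv, hv1, hv2⟩ := exists_splice hu G.one_mem ha1 hb (by linarith) (by
    rw [hu2 a1 le_rfl]; simpa using h3)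
  refine ⟨v, ⟨hv, fun x hx => ?_, fun x hx => ?_⟩, ?_⟩
  · rw [hv1 x (by linarith), hu1 x hx]; rfl
  · rw [hv2 x hx]; rfl
  · rw [hv1 a1 le_rfl, hu2 a1 le_rfl]; simp

theorem pow_mono_point {s : Equiv.Perm ℝ} (hs : s ∈ G) {a b : ℝ} (hab : a ≤ b) (h : b ≤ s a) (n : ℕ) (hn : 0 < n) : b ≤ (s ^ n) a := by
  obtain ⟨d, rfl⟩ := Nat.exists_eq_succ_of_ne_zero hn.ne'
  clear hn
  induction d with
  | zero => simpa using h
  | succ d ih =>
    rw [pow_succ', Equiv.Perm.mul_apply]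
    exact h.trans ((G.le_iff hs).2 (hab.trans ih))

/-- supports displaced by `s` -/
theorem disp_of_le {s : Equiv.Perm ℝ} (hs : s ∈ G) {a b : ℝ} (hab : a ≤ b) (h : b ≤ s a) : Disp s (GI a b) := by
  intro n hn x hx y hy
  have h1 := GI.conj (G.pow_mem hs n) hy
  exact commute_of_sp hx.1 h1.1 hx.2 h1.2 (pow_mono_point hs hab h n hn)

/-- elements of `HI a b` are products of two commutators in `GI a b` -/
theorem HI_two {a b : ℝ} (ha : Dy a) (hb : Dy b) (hab : a < b) {κ : Equiv.Perm ℝ} (hκ : κ ∈ HI a b) :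
    ∃ k1 ∈ GI a b, ∃ k2 ∈ GI a b, ∃ k3 ∈ GI a b, ∃ k4 ∈ GI a b,
      κ = (k3 * k4 * k3⁻¹ * k4⁻¹) * (k1 * k2 * k1⁻¹ * k2⁻¹) := by
  obtain ⟨hκG, a0, b0, ha0, hb0, h1, h2, h3, h4⟩ := (mem_HI hab).1 hκ
  obtain ⟨a1, ha1, h5, h6⟩ := exists_dy_btwn h1
  obtain ⟨b1, hb1, h7, h8⟩ := exists_dy_btwn h3
  have h12 : a1 < b1 := by linarith
  obtain ⟨φ, hφ, hφ1⟩ := exists_displace ha hb ha1 hb1 h5 h12 h8
  have hκ1 : κ ∈ HI a1 b1 := GI_le_HI h6 h2 h7 ⟨hκG, h4⟩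
  have hκ2 := HI_perfect h12 hκ1
  have hκ3 := Subgroup.commutator_mono (HI_le_GI a1 b1) (HI_le_GI a1 b1) hκ2
  exact dennis_vaserstein hφ (GI.mono h5.le h8.le) (disp_of_le hφ.1 h12.le hφ1) hκ3

end Pool.Agent.Thompson
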