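import Pool.Agent.Thompson.FMain

set_option autoImplicit false

/-!
# Every compactly supported element is one commutator: the normalized case
-/

namespace Pool.Agent.Thompson

open Set Filter Topology

/-- construction of the auxiliary element `s` -/
theorem exists_s {p' p q q' : ℝ} (hp' : Dy p') (hp : Dy p) (hq : Dy q) (hq' : Dy q') (h1 : 0 < p') (h2 : p' < p)
    (h3 : p < 16) (h4 : 40 < q) (h5 : q < q') (h6 : q' < 64) :
    ∃ s ∈ GI 0 64, s p' = p ∧ s p = 17 ∧ (∀ x, 33 / 2 ≤ x → x ≤ 67 / 2 → s x = x + 1) ∧ s 34 = q ∧ s q = q' := by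
  have d17 : Dy 17 := Dy.ofNat 17
  have d34 : Dy 34 := Dy.ofNat 34
  have d64 : Dy 64 := Dy.ofNat 64
  have d165 : Dy (33 / 2) := (Dy.ofNat 33).div_two
  have d335 : Dy (67 / 2) := (Dy.ofNat 67).div_two
  obtain ⟨f1, hf1, a1, b1⟩ := exists_splice G.one_mem (tr_mem (hp.sub hp')) Dy.zero hp' h1 (by simp; linarith)
  have e1 : f1 p' = p := by rw [b1 p' le_rfl]; simp
  obtain ⟨f2, hf2, a2, b2⟩ := exists_splice hf1 (tr_mem (d17.sub hp)) hp' hp h2 (by rw [e1]; simp; linarith)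
  have e2 : f2 p = 17 := by rw [b2 p le_rfl]; simp
  obtain ⟨f3, hf3, a3, b3⟩ := exists_splice hf2 (tr_mem Dy.one) hp d165 (by linarith) (by rw [e2]; simp; norm_num)
  have e3 : f3 (67 / 2) = 69 / 2 := by rw [b3 _ (by norm_num)]; simp; norm_num
  obtain ⟨f4, hf4, a4, b4⟩ := exists_splice hf3 (tr_mem (hq.sub d34)) d335 d34 (by norm_num) (by rw [e3]; simp; linarith)
  have e4 : f4 34 = q := by rw [b4 34 le_rfl]; simp
  obtain ⟨f5, hf5, a5, b5⟩ := exists_splice hf4 (tr_mem (hq'.sub hq)) d34 hq (by linarith) (by rw [e4]; simp; linarith)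
  have e5 : f5 q = q' := by rw [b5 q le_rfl]; simp
  obtain ⟨f6, hf6, a6, b6⟩ := exists_splice hf5 G.one_mem hq d64 (by linarith) (by rw [e5]; simpa using h6)
  have c5 : ∀ x ≤ 34, f6 x = f4 x := fun x hx => by rw [a6 x (by linarith), a5 x hx]
  have c3 : ∀ x ≤ 67 / 2, f6 x = f3 x := fun x hx => by rw [c5 x (by linarith), a4 x hx]
  have c2 : ∀ x ≤ p, f6 x = f2 x := fun x hx => by rw [c3 x (by linarith), a3 x hx]
  have c1 : ∀ x ≤ p', f6 x = f1 x := fun x hx => by rw [c2 x (by linarith), a2 x hx]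
  refine ⟨f6, ⟨hf6, fun x hx => ?_, fun x hx => ?_⟩, ?_, ?_, fun x hx1 hx2 => ?_, ?_, ?_⟩
  · rw [c1 x (by linarith), a1 x hx]; rfl
  · rw [b6 x hx]; rfl
  · rw [c1 p' le_rfl, e1]
  · rw [c2 p le_rfl, e2]
  · rw [c3 x hx2, b3 x hx1]; simp
  · rw [c5 34 le_rfl, e4]
  · rw [a6 q le_rfl, e5]

theorem pow_shift {s : Equiv.Perm ℝ} (h : ∀ x, 33 / 2 ≤ x → x ≤ 67 / 2 → s x = x + 1) :
    ∀ (n : ℕ) (x : ℝ), 33 / 2 ≤ x → x + n ≤ 69 / 2 → (s ^ n) x = x + n := by
  intro n
  induction n with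
  | zero => intro x _ _; simp
  | succ n ih =>
    intro x hx hx2
    push_cast at hx2
    have hn : (0 : ℝ) ≤ n := Nat.cast_nonneg n
    rw [pow_succ', Equiv.Perm.mul_apply, ih x hx (by linarith), h _ (by linarith) (by linarith), Nat.cast_add, Nat.cast_one]
    ring

/-- The normalized case. -/
theorem main_normalized {t : Equiv.Perm ℝ} {a b : ℝ} (htG : t ∈ G) (hst : Sp t a b) (ha : 0 < a) (hb : b < 64)
    (htr : ∀ x, 16 ≤ x → x ≤ 32 → t x = x + 8) :
    ∃ w ∈ GI 0 64, ∃ s ∈ GI 0 64, t = w * s * w⁻¹ * s⁻¹ := by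
  have ha16 : a < 16 := by
    by_contra hle
    push Not at hle
    have e1 := hst.1 16 hle
    have e2 := htr 16 le_rfl (by norm_num)
    linarith
  obtain ⟨p, hp, hp0, hpa⟩ := exists_dy_btwn ha
  obtain ⟨p', hp', hp'0, hp'p⟩ := exists_dy_btwn hp0
  obtain ⟨q, hq, hq1, hq2⟩ := exists_dy_btwn (show max b 40 < 64 from max_lt hb (by norm_num))
  have hbq : b < q := (le_max_left _ _).trans_lt hq1
  have h40q : 40 < q := (le_max_right _ _).trans_lt hq1
  obtain ⟨q', hq', hq'1, hq'2⟩ := exists_dy_btwn hq2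
  obtain ⟨s, hs, sp', sp, str, s34, sq⟩ := exists_s hp' hp hq hq' hp'0 hp'p (by linarith) h40q hq'1 hq'2
  have hsG := hs.1
  have htI : t ∈ GI 0 64 := ⟨htG, hst.mono ha.le hb.le⟩
  set u : Equiv.Perm ℝ := t * s with hu
  have huI : u ∈ GI 0 64 := (GI 0 64).mul_mem htI hs
  have huG := huI.1
  have ht_hi : ∀ x, b ≤ x → t x = x := hst.2
  have ht_lo : ∀ x, x ≤ a → t x = x := hst.1
  have hua : ∀ x, u x = t (s x) := fun x => rfl
  have d17 : Dy 17 := Dy.ofNat 17
  have d18 : Dy 18 := Dy.ofNat 18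
  have pshift := pow_shift str
  -- orbit computations
  have s17 : s 17 = 18 := by rw [str 17 (by norm_num) (by norm_num)]; norm_num
  have s17_17 : (s ^ 17) 17 = 34 := by
    rw [pshift 17 17 (by norm_num) (by norm_num)]; norm_num
  have s18_17 : (s ^ 18) 17 = q := by rw [pow_succ', Equiv.Perm.mul_apply, s17_17, s34]
  have s2p' : (s ^ 2) p' = 17 := by rw [pow_succ', Equiv.Perm.mul_apply, pow_one, sp', sp]
  have s2p : (s ^ 2) p = 18 := by rw [pow_succ', Equiv.Perm.mul_apply, pow_one, sp, s17]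
  have s18_18 : (s ^ 18) 18 = q' := by
    have : (s ^ 18) 18 = (s ^ 19) 17 := by rw [pow_succ _ 18, Equiv.Perm.mul_apply, s17]
    rw [this, pow_succ' _ 18, Equiv.Perm.mul_apply, s18_17, sq]
  have up' : u p' = p := by rw [hua, sp', ht_lo p hpa.le]
  have up : u p = 25 := by rw [hua, sp, htr 17 (by norm_num) (by norm_num)]; norm_num
  have u25 : u 25 = 34 := by
    rw [hua, str 25 (by norm_num) (by norm_num), htr _ (by norm_num) (by norm_num)]; norm_num
  have u34 : u 34 = q := by rw [hua, s34, ht_hi q hbq.le]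
  have uq : u q = q' := by rw [hua, sq, ht_hi q' (by linarith)]
  have u4p' : (u ^ 4) p' = q := by
    simp only [pow_succ, pow_zero, one_mul, Equiv.Perm.mul_apply]
    rw [up', up, u25, u34]
  have u4p : (u ^ 4) p = q' := by
    simp only [pow_succ, pow_zero, one_mul, Equiv.Perm.mul_apply]
    rw [up, u25, u34, uq]
  -- kappa0
  set κ0 : Equiv.Perm ℝ := (s ^ 18)⁻¹ * u ^ 4 * (s ^ 2)⁻¹ with hκ0
  have hs2G := G.pow_mem hsG 2
  have hs18G := G.pow_mem hsG 18
  have hu4G := G.pow_mem huG 4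
  have hκ0G : κ0 ∈ G := G.mul_mem (G.mul_mem (G.inv_mem hs18G) hu4G) (G.inv_mem hs2G)
  have hκ0a : ∀ x, κ0 ((s ^ 2) x) = (s ^ 18)⁻¹ ((u ^ 4) x) := by
    intro x
    rw [hκ0, Equiv.Perm.mul_apply, Equiv.Perm.mul_apply, pia]
  have κ17 : κ0 17 = 17 := by
    rw [← s2p', hκ0a, u4p']
    exact pinv_eq (by rw [s2p', s18_17])
  have κ18 : κ0 18 = 18 := by
    rw [← s2p, hκ0a, u4p]
    exact pinv_eq (by rw [s2p, s18_18])
  obtain ⟨κ1, hκ1, c1, c2⟩ := exists_glue G.one_mem hκ0G d17 (by rw [κ17]; rfl)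
  obtain ⟨κ, hκ, c3, c4⟩ := exists_glue hκ1 G.one_mem d18 (by rw [c2 18 (by norm_num), κ18]; rfl)
  have κlo : ∀ x ≤ 17, κ x = x := fun x hx => by rw [c3 x (by linarith), c1 x hx]; rfl
  have κhi : ∀ x, 18 ≤ x → κ x = x := fun x hx => by rw [c4 x hx]; rfl
  have κmid : ∀ x, 17 ≤ x → x ≤ 18 → κ x = κ0 x := fun x hx1 hx2 => by rw [c3 x hx2, c2 x hx1]
  have hκI : κ ∈ GI 17 18 := ⟨hκ, κlo, κhi⟩
  -- local coincidences
  have sc := G.continuous hsG
  have E2 : ∀ᶠ x in 𝓝 p, 33 / 2 < s x ∧ s x < 35 / 2 := by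
    have h1 : Tendsto s (𝓝 p) (𝓝 17) := by rw [← sp]; exact sc.tendsto p
    filter_upwards [h1.eventually (Ioo_mem_nhds (show (33 / 2 : ℝ) < 17 by norm_num) (show (17 : ℝ) < 35 / 2 by norm_num))]
      with x hx using hx
  have E3 : ∀ᶠ x in 𝓝 p, b < s (s x + 17) := by
    have h1 : Tendsto (fun x => s (s x + 17)) (𝓝 p) (𝓝 q) := by
      have : Continuous (fun x => s (s x + 17)) := by fun_prop
      have := this.tendsto p
      simp only [sp] at this
      rw [show (17 : ℝ) + 17 = 34 by norm_num, s34] at this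
      exact this
    exact h1.eventually (Ioi_mem_nhds hbq)
  have E4 : ∀ᶠ x in 𝓝 p, b < s (s (s x + 17)) := by
    have h1 : Tendsto (fun x => s (s (s x + 17))) (𝓝 p) (𝓝 q') := by
      have : Continuous (fun x => s (s (s x + 17))) := by fun_prop
      have := this.tendsto p
      simp only [sp] at this
      rw [show (17 : ℝ) + 17 = 34 by norm_num, s34, sq] at this
      exact this
    exact h1.eventually (Ioi_mem_nhds (hbq.trans hq'1))
  have E5 : ∀ᶠ x in 𝓝 p, (u ^ 3) x = s (s x + 17) ∧ (s ^ 19) x = s (s x + 17) := by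
    filter_upwards [E2, E3] with x hx hx3
    constructor
    · simp only [pow_succ, pow_zero, one_mul, Equiv.Perm.mul_apply]
      have e1 : u x = s x + 8 := by rw [hua, htr _ (by linarith [hx.1]) (by linarith [hx.2])]
      have e2 : u (s x + 8) = s x + 17 := by
        rw [hua, str _ (by linarith [hx.1]) (by linarith [hx.2]), htr _ (by linarith [hx.1]) (by linarith [hx.2])]; ring
      rw [e1, e2, hua, ht_hi _ hx3.le]
    · have e1 : (s ^ 17) (s x) = s x + 17 := by
        have := pshift 17 (s x) hx.1.le (by push_cast; linarith [hx.2])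
        rw [this]; norm_num
      rw [pow_succ', Equiv.Perm.mul_apply, pow_succ, Equiv.Perm.mul_apply, e1]
  have E6 : ∀ᶠ x in 𝓝 p, (u ^ 4) x = (s ^ 20) x := by
    filter_upwards [E5, E4] with x hx hx4
    rw [pow_succ' _ 3, Equiv.Perm.mul_apply, hx.1, hua, ht_hi _ hx4.le, pow_succ' _ 19, Equiv.Perm.mul_apply, hx.2]
  have E7 : ∀ᶠ x in 𝓝 p', (u ^ 4) x = (s ^ 20) x := by
    have h1 : Tendsto s (𝓝 p') (𝓝 p) := by
      have := sc.tendsto p'
      rwa [sp'] at this
    filter_upwards [h1.eventually E5, h1.eventually (Iio_mem_nhds hpa)] with x hx hx2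
    have e1 : u x = s x := by rw [hua, ht_lo _ (le_of_lt hx2)]
    rw [pow_succ _ 3, Equiv.Perm.mul_apply, e1, hx.1, pow_succ _ 19, Equiv.Perm.mul_apply, hx.2]
  have E8 : ∀ x, (u ^ 4) x = (s ^ 20) x → κ0 ((s ^ 2) x) = (s ^ 2) x := by
    intro x hx
    rw [hκ0a, hx]
    apply pinv_eq
    rw [← Equiv.Perm.mul_apply, ← pow_add]
  have s2i := G.continuous (G.inv_mem hs2G)
  have E9 : ∀ᶠ x in 𝓝 (17 : ℝ), κ0 x = x := by
    have h1 : Tendsto (⇑(s ^ 2)⁻¹) (𝓝 17) (𝓝 p') := by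
      have := s2i.tendsto 17
      rwa [pinv_eq s2p'] at this
    filter_upwards [h1.eventually E7] with x hx
    have := E8 _ hx
    rwa [pai] at this
  have E10 : ∀ᶠ x in 𝓝 (18 : ℝ), κ0 x = x := by
    have h1 : Tendsto (⇑(s ^ 2)⁻¹) (𝓝 18) (𝓝 p) := by
      have := s2i.tendsto 18
      rwa [pinv_eq s2p] at this
    filter_upwards [h1.eventually E6] with x hx
    have := E8 _ hx
    rwa [pai] at this
  have hκH : κ ∈ HI 17 18 := by
    rw [Metric.eventually_nhds_iff] at E9 E10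
    obtain ⟨ε1, hε1, h1⟩ := E9
    obtain ⟨ε2, hε2, h2⟩ := E10
    have g1 : 0 < min ε1 (1 / 2) := lt_min hε1 (by norm_num)
    have g2 : 0 < min ε2 (1 / 2) := lt_min hε2 (by norm_num)
    have g3 := min_le_left ε1 (1 / 2)
    have g4 := min_le_right ε1 (1 / 2)
    have g5 := min_le_left ε2 (1 / 2)
    have g6 := min_le_right ε2 (1 / 2)
    refine Or.inl ⟨hκ, 17 + min ε1 (1 / 2) / 2, 18 - min ε2 (1 / 2) / 2, by linarith, by linarith, by linarith, ?_, ?_⟩
    · intro x hx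
      rcases le_total x 17 with h | h
      · exact κlo x h
      · rw [κmid x h (by linarith)]
        apply h1
        rw [Real.dist_eq, abs_lt]
        constructor <;> linarith
    · intro x hx
      rcases le_total x 18 with h | h
      · rw [κmid x (by linarith) h]
        apply h2
        rw [Real.dist_eq, abs_lt]
        constructor <;> linarith
      · exact κhi x h
  -- the conjugation  s κ ~ u
  have hsκ : s * κ ∈ GI 0 64 := (GI 0 64).mul_mem hs (GI.mono (by norm_num) (by norm_num) hκI)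
  have sκ_lo : ∀ x, x ≤ 17 → (s * κ) x = s x := fun x hx => by rw [Equiv.Perm.mul_apply, κlo x hx]
  have sκ_hi : ∀ x, 18 ≤ x → (s * κ) x = s x := fun x hx => by rw [Equiv.Perm.mul_apply, κhi x hx]
  have sκp' : (s * κ) p' = p := by rw [sκ_lo p' (by linarith), sp']
  have hs18le : ∀ x, 18 ≤ x → 18 ≤ s x := by
    intro x hx
    have := (G.le_iff hsG).2 hx
    rw [str 18 (by norm_num) (by norm_num)] at this
    linarith
  have powhi : ∀ (n : ℕ) (x : ℝ), 18 ≤ x → ((s * κ) ^ n) x = (s ^ n) x ∧ 18 ≤ (s ^ n) x := by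
    intro n
    induction n with
    | zero => intro x hx; exact ⟨rfl, hx⟩
    | succ n ih =>
      intro x hx
      obtain ⟨i1, i2⟩ := ih x hx
      rw [pow_succ', Equiv.Perm.mul_apply, i1, sκ_hi _ i2, pow_succ', Equiv.Perm.mul_apply]
      exact ⟨rfl, hs18le _ i2⟩
  have hag : ∀ x, p' ≤ x → x ≤ p → ((s * κ) ^ 20) x = (u ^ 4) x := by
    intro x hx1 hx2
    have y1 : s x ≤ 17 := by rw [← sp]; exact (G.le_iff hsG).2 hx2
    have y2 : 17 ≤ s (s x) := by
      have h1 : p ≤ s x := by rw [← sp']; exact (G.le_iff hsG).2 hx1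
      have h2 := (G.le_iff hsG).2 h1
      rwa [sp] at h2
    have y3 : s (s x) ≤ 18 := by
      have h2 := (G.le_iff hsG).2 y1
      rwa [s17] at h2
    have y4 : κ (s (s x)) = κ0 ((s ^ 2) x) := by
      rw [κmid _ y2 y3]; rfl
    have y5 : 17 ≤ κ (s (s x)) := by
      have := (G.le_iff hκ).2 y2
      rwa [κlo 17 le_rfl] at this
    have y6 : 18 ≤ s (κ (s (s x))) := by
      have := (G.le_iff hsG).2 y5
      rwa [s17] at this
    have y7 : ((s * κ) ^ 20) x = ((s * κ) ^ 17) (s (κ (s (s x)))) := by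
      have : ((s * κ) ^ 20) = ((s * κ) ^ 17) * (s * κ) * (s * κ) * (s * κ) := by
        simp only [← pow_succ]
      rw [this, Equiv.Perm.mul_apply, Equiv.Perm.mul_apply, Equiv.Perm.mul_apply, sκ_lo x (by linarith), sκ_lo _ y1,
        Equiv.Perm.mul_apply]
    rw [y7, (powhi 17 _ y6).1, y4, ← Equiv.Perm.mul_apply, ← pow_succ, hκ0a, pai]
  obtain ⟨y, hy, hyc⟩ := intertwine (s1 := s * κ) (s2 := u) (P := p') (Q := q) hsκ huI hq 20 4 (by norm_num)
    (fun x hx => by
      have h1 : s x ≤ p := by rw [← sp']; exact (G.le_iff hsG).2 hx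
      rw [sκ_lo x (by linarith), hua, ht_lo _ (by linarith)])
    (fun x hx => by
      have h1 : q' ≤ s x := by rw [← sq]; exact (G.le_iff hsG).2 hx
      rw [sκ_hi x (by linarith), hua, ht_hi _ (by linarith)])
    (by rw [sκ_hi q (by linarith), sq]; exact hq'1)
    (by rw [hag p' le_rfl hp'p.le, u4p'])
    (by rw [sκp']; exact hp'p.le)
    (by rw [sκp']; exact hag)
  -- decompose kappa
  obtain ⟨ka, hka, kb, hkb, kc, hkc, kd, hkd, hκeq⟩ := HI_two d17 d18 (by norm_num) hκH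
  have hD : Disp s (GI 17 18) := disp_of_le hsG (by norm_num) (by rw [s17])
  set E := GI 17 18 with hE
  have hEH : E ≤ GI 0 64 := GI.mono (by norm_num) (by norm_num)
  set L : List (Equiv.Perm ℝ) := [kb, ka, (ka * kb)⁻¹, kd, kc, (kc * kd)⁻¹] with hL
  have hLE : ∀ z ∈ L, z ∈ E := by
    intro z hz
    simp only [hL, List.mem_cons, List.not_mem_nil, or_false] at hz
    rcases hz with rfl | rfl | rfl | rfl | rfl | rfl
    · exact hkb
    · exact hka
    · exact E.inv_mem (E.mul_mem hka hkb)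
    · exact hkd
    · exact hkc
    · exact E.inv_mem (E.mul_mem hkc hkd)
  set h : Equiv.Perm ℝ := Pl s 0 L with hh
  have hhI : h ∈ GI 0 64 := Pl_mem hs hEH L 0 hLE
  -- u h⁻¹ u⁻¹ = Pl 9 (L⁻¹)
  have hshift : ∀ (i : ℕ), i ≤ 6 → ∀ z ∈ E, t * fc s i z * t⁻¹ = fc s (i + 8) z := by
    intro i hi z hz
    have h17 : (s ^ i) 17 = 17 + i := pshift i 17 (by norm_num) (by
      have : (i : ℝ) ≤ 6 := by exact_mod_cast hi
      linarith)
    have h18 : (s ^ i) 18 = 18 + i := pshift i 18 (by norm_num) (by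
      have : (i : ℝ) ≤ 6 := by exact_mod_cast hi
      linarith)
    have hz2 := GI.conj (G.pow_mem hsG i) hz
    rw [h17, h18] at hz2
    have hi' : (i : ℝ) ≤ 6 := by exact_mod_cast hi
    have hi0 : (0 : ℝ) ≤ i := Nat.cast_nonneg i
    have h1 := conj_congr htG (G.pow_mem hsG 8) hz2.1 (by linarith) hz2.2 (fun x hx1 hx2 => by
      rw [htr x (by linarith) (by linarith), pshift 8 x (by linarith) (by push_cast; linarith)]
      norm_num)
    have h2 : fc s i z = s ^ i * z * (s ^ i)⁻¹ := rfl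
    rw [h2, h1]
    have h3 : fc s (i + 8) z = s ^ (i + 8) * z * (s ^ (i + 8))⁻¹ := rfl
    rw [h3, add_comm i 8, pow_add]
    group
  have hshiftL : ∀ (l : List (Equiv.Perm ℝ)) (n : ℕ), n + l.length ≤ 7 → (∀ z ∈ l, z ∈ E) →
      t * Pl s n l * t⁻¹ = Pl s (n + 8) l := by
    intro l
    induction l with
    | nil => intro n _ _; simp [Pl]
    | cons z l ih =>
      intro n hn hl
      simp only [List.length_cons] at hn
      simp only [Pl]
      have i1 := ih (n + 1) (by omega) (fun w hw => hl w (by simp [hw]))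
      have i2 := hshift n (by omega) z (hl z (by simp))
      rw [show n + 8 + 1 = n + 1 + 8 by ring, ← i1, ← i2]
      group
  have hinv : h⁻¹ = Pl s 0 (L.map (·⁻¹)) := Pl_inv hD L 0 hLE
  have hLi : ∀ z ∈ L.map (·⁻¹), z ∈ E := by
    intro z hz
    simp only [List.mem_map] at hz
    obtain ⟨w, hw, rfl⟩ := hz
    exact E.inv_mem (hLE w hw)
  have huh : u * h⁻¹ * u⁻¹ = Pl s 9 (L.map (·⁻¹)) := by
    rw [hinv, hu]
    have e1 : Pl s 1 (L.map (·⁻¹)) = s * Pl s 0 (L.map (·⁻¹)) * s⁻¹ := Pl_shift s _ 0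
    have e2 := hshiftL (L.map (·⁻¹)) 1 (by simp [hL]) hLi
    rw [← e2, e1]
    group
  -- the collapsing list
  set M : List (Equiv.Perm ℝ) := [ka, (ka * kb)⁻¹, kd, kc, (kc * kd)⁻¹, 1, 1, 1] ++ L.map (·⁻¹) with hM
  have hME : ∀ z ∈ M, z ∈ E := by
    intro z hz
    rw [hM, List.mem_append] at hz
    rcases hz with hz | hz
    · simp only [List.mem_cons, List.not_mem_nil, or_false] at hz
      rcases hz with rfl | rfl | rfl | rfl | rfl | rfl | rfl | rfl
      · exact hka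
      · exact E.inv_mem (E.mul_mem hka hkb)
      · exact hkd
      · exact hkc
      · exact E.inv_mem (E.mul_mem hkc hkd)
      · exact E.one_mem
      · exact E.one_mem
      · exact E.one_mem
    · exact hLi z hz
  obtain ⟨W1, hW1, hW2⟩ := collapse hs hEH hD M kb hkb hME
  have e1 : s * kb * Pl s 1 M = s * (h * (u * h⁻¹ * u⁻¹)) := by
    rw [huh, hh, hM, hL]
    simp only [Pl, List.map_cons, List.map_nil, List.cons_append, List.nil_append, fc_zero, fc_one]
    simp only [mul_assoc, one_mul, mul_one]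
  have e2 : M.reverse.prod * kb = κ := by
    rw [hκeq, hM, hL]
    simp only [List.map_cons, List.map_nil, List.cons_append, List.nil_append, List.reverse_cons, List.reverse_nil,
      List.prod_cons, List.prod_nil]
    group
  rw [e1, e2] at hW2
  refine ⟨u * h * y * W1, ?_, s * (h * (u * h⁻¹ * u⁻¹)), ?_, assemble hu hW2 hyc⟩
  · exact (GI 0 64).mul_mem ((GI 0 64).mul_mem ((GI 0 64).mul_mem huI hhI) hy) hW1
  · exact (GI 0 64).mul_mem hs ((GI 0 64).mul_mem hhI ((GI 0 64).mul_mem ((GI 0 64).mul_mem huI ((GI 0 64).inv_mem hhI))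
      ((GI 0 64).inv_mem huI)))

end Pool.Agent.Thompson
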