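import Pool.Agent.Thompson.Supp

set_option autoImplicit false

/-!
# The group of compactly supported dyadic PL homeomorphisms is perfect
-/

namespace Pool.Agent.Thompson

open Set Filter Topology

theorem exists_M {p h : ℝ} (hp : Dy p) (hh : Dy h) (hpos : 0 < h) :
    ∃ M ∈ G, ∀ x, M x = x + min (max (x - p) 0) h := by
  obtain ⟨u, hu, hu1, hu2⟩ := exists_glue G.one_mem (aff_mem 1 hp.neg) hp (by simp; ring)
  obtain ⟨v, hv, hv1, hv2⟩ := exists_glue hu (tr_mem hh) (hp.add hh) (by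
    rw [hu2 (p + h) (by linarith)]; simp; ring)
  refine ⟨v, hv, fun x => ?_⟩
  rcases le_total x p with h1 | h1
  · rw [hv1 x (by linarith), hu1 x h1, max_eq_right (by linarith), min_eq_left hpos.le]
    simp
  · rcases le_total x (p + h) with h2 | h2
    · rw [hv1 x h2, hu2 x h1, max_eq_left (by linarith), min_eq_left (by linarith)]
      simp; ring
    · rw [hv2 x h2, max_eq_left (by linarith), min_eq_right (by linarith)]
      simp

open Classical in
/-- the elementary expansion: `x` left of `p`, slope 2 on `[p,p+h]`, `x + h` right of `p + h` -/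
noncomputable def Me (p h : ℝ) : Equiv.Perm ℝ :=
  if H : Dy p ∧ Dy h ∧ 0 < h then (exists_M H.1 H.2.1 H.2.2).choose else 1

theorem Me_apply {p h : ℝ} (hp : Dy p) (hh : Dy h) (hpos : 0 < h) (x : ℝ) :
    Me p h x = x + min (max (x - p) 0) h := by
  unfold Me
  rw [dif_pos ⟨hp, hh, hpos⟩]
  exact (exists_M hp hh hpos).choose_spec.2 x

theorem Me_mem {p h : ℝ} (hp : Dy p) (hh : Dy h) (hpos : 0 < h) : Me p h ∈ G := by
  unfold Me
  rw [dif_pos ⟨hp, hh, hpos⟩]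
  exact (exists_M hp hh hpos).choose_spec.1

theorem Me_left {p h : ℝ} (hp : Dy p) (hh : Dy h) (hpos : 0 < h) {x : ℝ} (hx : x ≤ p) : Me p h x = x := by
  rw [Me_apply hp hh hpos, max_eq_right (by linarith), min_eq_left hpos.le, add_zero]

theorem Me_right {p h : ℝ} (hp : Dy p) (hh : Dy h) (hpos : 0 < h) {x : ℝ} (hx : p + h ≤ x) : Me p h x = x + h := by
  rw [Me_apply hp hh hpos, max_eq_left (by linarith), min_eq_right (by linarith)]

theorem Me_mid {p h : ℝ} (hp : Dy p) (hh : Dy h) (hpos : 0 < h) {x : ℝ} (hx : p ≤ x) (hx2 : x ≤ p + h) :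
    Me p h x = 2 * x - p := by
  rw [Me_apply hp hh hpos, max_eq_left (by linarith), min_eq_left (by linarith)]
  ring

/-- Thompson's relation -/
theorem Me_rel {a q h : ℝ} (ha : Dy a) (hq : Dy q) (hh : Dy h) (hpos : 0 < h) (haq : a + h ≤ q) :
    Me a h * Me q h = Me (q + h) h * Me a h := by
  ext x
  rw [Equiv.Perm.mul_apply, Equiv.Perm.mul_apply]
  rcases le_total x q with hx | hx
  · rw [Me_left hq hh hpos hx]
    have : Me a h x ≤ q + h := by
      have := (G.mono (Me_mem ha hh hpos)) hx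
      rwa [Me_right ha hh hpos haq] at this
    rw [Me_left (hq.add hh) hh hpos this]
  · have h1 : q ≤ Me q h x := by
      have := (G.mono (Me_mem hq hh hpos)) hx
      rwa [Me_left hq hh hpos le_rfl] at this
    rw [Me_right ha hh hpos (haq.trans h1), Me_right ha hh hpos (haq.trans hx), Me_apply hq hh hpos,
      Me_apply (hq.add hh) hh hpos]
    have : x + h - (q + h) = x - q := by ring
    rw [this]; ring

theorem Me_split {p l l' : ℝ} (hp : Dy p) (hl : Dy l) (hl' : Dy l') (hpos : 0 < l) (hpos' : 0 < l') :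
    Me p (l + l') = Me p l * Me (p + l) l' := by
  ext x
  rw [Equiv.Perm.mul_apply]
  rcases le_total x (p + l) with hx | hx
  · rw [Me_left (hp.add hl) hl' hpos' hx, Me_apply hp (hl.add hl') (by linarith), Me_apply hp hl hpos]
    congr 1
    rcases le_total x p with h1 | h1
    · rw [max_eq_right (by linarith), min_eq_left (by linarith), min_eq_left hpos.le]
    · rw [max_eq_left (by linarith), min_eq_left (by linarith), min_eq_left (by linarith)]
  · have h1 : p + l ≤ Me (p + l) l' x := by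
      have := (G.mono (Me_mem (hp.add hl) hl' hpos')) hx
      rwa [Me_left (hp.add hl) hl' hpos' le_rfl] at this
    rw [Me_right hp hl hpos h1, Me_apply hp (hl.add hl') (by linarith), Me_apply (hp.add hl) hl' hpos']
    rw [max_eq_left (by linarith), max_eq_left (by linarith)]
    rcases le_total (x - p) (l + l') with h2 | h2
    · rw [min_eq_left h2, min_eq_left (by linarith)]; ring
    · rw [min_eq_right h2, min_eq_right (by linarith)]; ring

/-- the tent -/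
theorem tent_mem {p h : ℝ} (hp : Dy p) (hh : Dy h) (hpos : 0 < h) :
    Me p h * (Me (p + h) h)⁻¹ ∈ GI p (p + 3 * h) := by
  have m1 := Me_mem hp hh hpos
  have m2 := Me_mem (hp.add hh) hh hpos
  refine ⟨G.mul_mem m1 (G.inv_mem m2), fun x hx => ?_, fun x hx => ?_⟩
  · have : (Me (p + h) h)⁻¹ x = x := pinv_eq (Me_left (hp.add hh) hh hpos (by linarith))
    rw [Equiv.Perm.mul_apply, this, Me_left hp hh hpos hx]
  · have : (Me (p + h) h)⁻¹ x = x - h := pinv_eq (by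
      rw [Me_right (hp.add hh) hh hpos (by linarith)]; ring)
    rw [Equiv.Perm.mul_apply, this, Me_right hp hh hpos (by linarith)]; ring

theorem tent_comm {p h : ℝ} (hp : Dy p) (hh : Dy h) (hpos : 0 < h) :
    Me p h * (Me (p + h) h)⁻¹ ∈ ⁅Gc, Gc⁆ := by
  -- E_p = [M_p, E_{p-h}]
  have hq : Dy (p - h) := hp.sub hh
  have hE : Me (p - h) h * (Me p h)⁻¹ ∈ Gc := by
    have := tent_mem hq hh hpos
    rw [sub_add_cancel] at this
    exact ⟨_, _, this⟩
  have h1 := comm_mem_commutator (Me_mem hp hh hpos) hE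
  have hrel := Me_rel hq hp hh hpos (le_of_eq (by ring))
  -- rewrite
  have : Me p h * (Me (p - h) h * (Me p h)⁻¹) * (Me p h)⁻¹ * (Me (p - h) h * (Me p h)⁻¹)⁻¹ =
      Me p h * (Me (p + h) h)⁻¹ := by
    have e1 : (Me (p + h) h) = Me (p - h) h * Me p h * (Me (p - h) h)⁻¹ := by
      rw [hrel]; group
    rw [e1]
    group
  rw [this] at h1
  exact h1

/-- the class predicate -/
def Cls (N : ℕ) (g : Equiv.Perm ℝ) : Prop := g ∈ G ∧ ∃ m : ℤ, g * (Me 0 (1 / 2 ^ N)) ^ m ∈ ⁅Gc, Gc⁆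

theorem dy_hN (N : ℕ) : Dy (1 / 2 ^ N) := Dy.one.div_pow N

theorem hN_pos (N : ℕ) : (0 : ℝ) < 1 / 2 ^ N := by positivity

theorem Cls.mul {N : ℕ} {g g' : Equiv.Perm ℝ} (hg : Cls N g) (hg' : Cls N g') : Cls N (g * g') := by
  obtain ⟨h1, m, h2⟩ := hg
  obtain ⟨h1', m', h2'⟩ := hg'
  refine ⟨G.mul_mem h1 h1', m' + m, ?_⟩
  have := Subgroup.mul_mem _ (commutator_Gc_conj h1 h2') h2
  rw [zpow_add]
  convert this using 1
  group

theorem Cls.inv {N : ℕ} {g : Equiv.Perm ℝ} (hg : Cls N g) : Cls N g⁻¹ := by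
  obtain ⟨h1, m, h2⟩ := hg
  refine ⟨G.inv_mem h1, -m, ?_⟩
  have := commutator_Gc_conj (G.zpow_mem (Me_mem Dy.zero (dy_hN N) (hN_pos N)) m) (Subgroup.inv_mem _ h2)
  convert this using 1
  group

theorem Cls.one (N : ℕ) : Cls N 1 := ⟨G.one_mem, 0, by simp⟩

theorem Cls.cell {N : ℕ} {p : ℝ} (hp : OnG N p) : Cls N (Me p (1 / 2 ^ N)) := by
  obtain ⟨m, rfl⟩ := hp
  have hG : ∀ m : ℤ, Me ((m : ℝ) / 2 ^ N) (1 / 2 ^ N) ∈ G := fun m =>
    Me_mem ⟨m, N, rfl⟩ (dy_hN N) (hN_pos N)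
  have key : ∀ m : ℤ, Me ((m : ℝ) / 2 ^ N) (1 / 2 ^ N) * (Me (((m + 1 : ℤ) : ℝ) / 2 ^ N) (1 / 2 ^ N))⁻¹ ∈ ⁅Gc, Gc⁆ := by
    intro m
    have := tent_comm (p := (m : ℝ) / 2 ^ N) ⟨m, N, rfl⟩ (dy_hN N) (hN_pos N)
    convert this using 4
    push_cast; ring
  refine ⟨hG m, -1, ?_⟩
  rw [zpow_neg_one]
  induction m using Int.induction_on with
  | zero => simp
  | succ i ih =>
    have h1 := key i
    have := Subgroup.mul_mem _ (Subgroup.inv_mem _ h1) ih
    convert this using 1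
    group
  | pred i ih =>
    have h1 := key (-(i : ℤ) - 1)
    rw [sub_add_cancel] at h1
    have := Subgroup.mul_mem _ h1 ih
    convert this using 1
    group

theorem Cls.block {N : ℕ} {p : ℝ} (hp : OnG N p) (n : ℕ) : Cls N (Me p (((n : ℝ) + 1) / 2 ^ N)) := by
  induction n with
  | zero => simpa using Cls.cell hp
  | succ n ih =>
    have h1 : OnG N (p + ((n : ℝ) + 1) / 2 ^ N) := by
      obtain ⟨m, rfl⟩ := hp
      exact ⟨m + n + 1, by push_cast; ring⟩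
    have h2 : ((((n + 1 : ℕ) : ℝ)) + 1) / 2 ^ N = ((n : ℝ) + 1) / 2 ^ N + 1 / 2 ^ N := by push_cast; ring
    rw [h2, Me_split hp.dy ⟨n + 1, N, by push_cast; rfl⟩ (dy_hN N) (by positivity) (hN_pos N)]
    exact ih.mul (Cls.cell h1)

theorem Cls.two {N : ℕ} {p l : ℝ} (hp : OnG N p) (hl : OnG N l) (hpos : 0 < l) : Cls N (Me p l) := by
  obtain ⟨m, rfl⟩ := hl
  have hm : (0 : ℝ) < m := by
    rcases div_pos_iff.1 hpos with h1 | h1
    · exact h1.1
    · have : (0 : ℝ) < 2 ^ N := by positivity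
      linarith [h1.2]
  have hm' : 0 < m := by exact_mod_cast hm
  obtain ⟨n, hn⟩ := Int.eq_ofNat_of_zero_le (show 0 ≤ m - 1 by omega)
  have : (m : ℝ) = (n : ℝ) + 1 := by
    have : m = n + 1 := by omega
    rw [this]; push_cast; ring
  rw [this]
  exact Cls.block hp n

/-- eventually of class N -/
def Ecl (g : Equiv.Perm ℝ) : Prop := ∃ n, ∀ N ≥ n, Cls N g

theorem Ecl.mul {g g' : Equiv.Perm ℝ} (hg : Ecl g) (hg' : Ecl g') : Ecl (g * g') := by
  obtain ⟨n, h⟩ := hg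
  obtain ⟨n', h'⟩ := hg'
  exact ⟨max n n', fun N hN => (h N (by omega)).mul (h' N (by omega))⟩

theorem Ecl.inv {g : Equiv.Perm ℝ} (hg : Ecl g) : Ecl g⁻¹ := by
  obtain ⟨n, h⟩ := hg
  exact ⟨n, fun N hN => (h N hN).inv⟩

theorem Ecl.two {p l : ℝ} (hp : Dy p) (hl : Dy l) (hpos : 0 < l) : Ecl (Me p l) := by
  obtain ⟨n, h⟩ := hp.onG
  obtain ⟨n', h'⟩ := hl.onG
  exact ⟨max n n', fun N hN => Cls.two (h.mono (by omega)) (h'.mono (by omega)) hpos⟩

/-- general slope: `m(a,l,k)` -/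
theorem Ecl.slope {a l : ℝ} (ha : Dy a) (hl : Dy l) (hpos : 0 < l) (k : ℤ) :
    ∃ m : Equiv.Perm ℝ, Ecl m ∧ m ∈ G ∧ (∀ x ≤ a, m x = x) ∧ (∀ x, a ≤ x → x ≤ a + l → m x = a + (2 : ℝ) ^ k * (x - a)) ∧
      (∀ x, a + l ≤ x → m x = x + ((2 : ℝ) ^ k - 1) * l) := by
  induction k using Int.induction_on with
  | zero =>
    refine ⟨1, ⟨0, fun N _ => Cls.one N⟩, G.one_mem, fun x _ => rfl, fun x _ _ => ?_, fun x _ => ?_⟩ <;> simp
  | succ i ih =>
    obtain ⟨m, hm, hmG, h1, h2, h3⟩ := ih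
    have hk := two_zpow_pos (i : ℤ)
    have hl2 : Dy ((2 : ℝ) ^ (i : ℤ) * l) := (Dy.zpow _).mul hl
    have hpos2 : 0 < (2 : ℝ) ^ (i : ℤ) * l := mul_pos hk hpos
    have e : (2 : ℝ) ^ ((i : ℤ) + 1) = 2 * 2 ^ (i : ℤ) := by rw [zpow_add₀ (by norm_num)]; ring
    refine ⟨Me a ((2 : ℝ) ^ (i : ℤ) * l) * m, (Ecl.two ha hl2 hpos2).mul hm, G.mul_mem (Me_mem ha hl2 hpos2) hmG,
      fun x hx => ?_, fun x hx hx2 => ?_, fun x hx => ?_⟩
    · rw [Equiv.Perm.mul_apply, h1 x hx, Me_left ha hl2 hpos2 hx]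
    · have t1 : 0 ≤ (2 : ℝ) ^ (i : ℤ) * (x - a) := mul_nonneg hk.le (by linarith)
      have t2 : (2 : ℝ) ^ (i : ℤ) * (x - a) ≤ (2 : ℝ) ^ (i : ℤ) * l := mul_le_mul_of_nonneg_left (by linarith) hk.le
      rw [Equiv.Perm.mul_apply, h2 x hx hx2, Me_mid ha hl2 hpos2 (by linarith) (by linarith), e]
      ring
    · rw [Equiv.Perm.mul_apply, h3 x hx, Me_right ha hl2 hpos2 (by
        have : (2 : ℝ) ^ (i : ℤ) * l = ((2 : ℝ) ^ (i : ℤ) - 1) * l + l := by ring
        linarith), e]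
      ring
  | pred i ih =>
    obtain ⟨m, hm, hmG, h1, h2, h3⟩ := ih
    have hk := two_zpow_pos (-(i : ℤ) - 1)
    have hl2 : Dy ((2 : ℝ) ^ (-(i : ℤ) - 1) * l) := (Dy.zpow _).mul hl
    have hpos2 : 0 < (2 : ℝ) ^ (-(i : ℤ) - 1) * l := mul_pos hk hpos
    have e : (2 : ℝ) ^ (-(i : ℤ)) = 2 * 2 ^ (-(i : ℤ) - 1) := by
      have : (-(i : ℤ)) = (-(i : ℤ) - 1) + 1 := by ring
      conv_lhs => rw [this]
      rw [zpow_add₀ (by norm_num)]; ring
    refine ⟨(Me a ((2 : ℝ) ^ (-(i : ℤ) - 1) * l))⁻¹ * m, (Ecl.two ha hl2 hpos2).inv.mul hm,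
      G.mul_mem (G.inv_mem (Me_mem ha hl2 hpos2)) hmG, fun x hx => ?_, fun x hx hx2 => ?_, fun x hx => ?_⟩
    · rw [Equiv.Perm.mul_apply, h1 x hx]
      exact pinv_eq (Me_left ha hl2 hpos2 hx)
    · rw [Equiv.Perm.mul_apply, h2 x hx hx2, e]
      apply pinv_eq
      have t1 : 0 ≤ (2 : ℝ) ^ (-(i : ℤ) - 1) * (x - a) := mul_nonneg hk.le (by linarith)
      have t2 : (2 : ℝ) ^ (-(i : ℤ) - 1) * (x - a) ≤ (2 : ℝ) ^ (-(i : ℤ) - 1) * l :=
        mul_le_mul_of_nonneg_left (by linarith) hk.le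
      rw [Me_mid ha hl2 hpos2 (by linarith) (by linarith)]
      ring
    · rw [Equiv.Perm.mul_apply, h3 x hx, e]
      apply pinv_eq
      rw [Me_right ha hl2 hpos2 (by
        have : ((2 : ℝ) ^ (-(i : ℤ) - 1) - 1) * l = (2 : ℝ) ^ (-(i : ℤ) - 1) * l - l := by ring
        linarith)]
      ring

end Pool.Agent.Thompson
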