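import Pool.Agent.Thompson.Perfect

set_option autoImplicit false

/-!
# The group of compactly supported dyadic PL homeomorphisms is perfect, end of the proof
-/

namespace Pool.Agent.Thompson

open Set Filter Topology

theorem AffOn.closed {f : Equiv.Perm ℝ} (hf : f ∈ G) {u v : ℝ} (huv : u < v) (h : AffOn f u v) :
    ∃ k : ℤ, ∃ c : ℝ, Dy c ∧ ∀ x, u ≤ x → x ≤ v → f x = (2 : ℝ) ^ k * x + c := by
  obtain ⟨k, c, hc, h⟩ := h
  refine ⟨k, c, hc, fun x hx1 hx2 => ?_⟩
  have h1 : Set.EqOn f (fun x => (2 : ℝ) ^ k * x + c) (Ico u v) := fun x hx => h x hx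
  have h2 := h1.closure (G.continuous hf) (by fun_prop)
  rw [closure_Ico huv.ne] at h2
  exact h2 ⟨hx1, hx2⟩

theorem ecl_of_steps (h : ℝ) (hh : Dy h) (hpos : 0 < h) (n : ℕ) : ∀ (g : Equiv.Perm ℝ) (a c : ℝ), g ∈ G → Dy a →
    (∀ x ≤ a, g x = x) →
    (∀ j < n, ∃ k : ℤ, ∃ c' : ℝ, ∀ x, a + j * h ≤ x → x ≤ a + (j + 1) * h → g x = (2 : ℝ) ^ k * x + c') →
    (∀ x, a + n * h ≤ x → g x = x + c) → Ecl g := by
  induction n with
  | zero =>
    intro g a c hg ha h1 h2 h3
    have hc : c = 0 := by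
      have e1 := h1 a le_rfl
      have e2 := h3 a (by simp)
      linarith
    have : g = 1 := by
      ext x
      rcases le_total x a with hx | hx
      · rw [h1 x hx]; rfl
      · rw [h3 x (by simpa using hx), hc]; simp
    rw [this]
    exact ⟨0, fun N _ => Cls.one N⟩
  | succ n ih =>
    intro g a c hg ha h1 h2 h3
    obtain ⟨k, c', hk⟩ := h2 0 (by omega)
    have hga := h1 a le_rfl
    have hk' : ∀ x, a ≤ x → x ≤ a + h → g x = a + (2 : ℝ) ^ k * (x - a) := by
      intro x hx1 hx2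
      have e1 := hk x (by simpa using hx1) (by simpa using hx2)
      have e2 := hk a (by simp) (by simp [hpos.le])
      rw [hga] at e2
      rw [e1]
      linarith
    obtain ⟨m, hm, hmG, m1, m2, m3⟩ := Ecl.slope ha hh hpos k
    have hkpos := two_zpow_pos k
    have ha' : Dy (a + (2 : ℝ) ^ k * h) := ha.add ((Dy.zpow k).mul hh)
    have minv : ∀ x, a + (2 : ℝ) ^ k * h ≤ x → m⁻¹ x = x - ((2 : ℝ) ^ k - 1) * h := by
      intro x hx
      apply pinv_eq
      rw [m3 _ (by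
        have : ((2 : ℝ) ^ k - 1) * h = (2 : ℝ) ^ k * h - h := by ring
        linarith)]
      ring
    have hmain : Ecl (g * m⁻¹) := by
      refine ih (g * m⁻¹) (a + (2 : ℝ) ^ k * h) (c - ((2 : ℝ) ^ k - 1) * h) (G.mul_mem hg (G.inv_mem hmG)) ha' ?_ ?_ ?_
      · intro x hx
        rw [Equiv.Perm.mul_apply]
        have hy : m⁻¹ x ≤ a + h := by
          rw [pinv_le hmG, m2 (a + h) (by linarith) le_rfl]
          have : a + (2 : ℝ) ^ k * (a + h - a) = a + (2 : ℝ) ^ k * h := by ring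
          linarith
        obtain ⟨y, rfl⟩ := m.surjective x
        rw [pia] at hy ⊢
        rcases le_total y a with hya | hya
        · rw [h1 y hya, m1 y hya]
        · rw [hk' y hya hy, m2 y hya hy]
      · intro j hj
        obtain ⟨k2, c2, hk2⟩ := h2 (j + 1) (by omega)
        refine ⟨k2, c2 - (2 : ℝ) ^ k2 * (((2 : ℝ) ^ k - 1) * h), fun x hx1 hx2 => ?_⟩
        have hj0 : (0 : ℝ) ≤ j * h := by positivity
        rw [Equiv.Perm.mul_apply, minv x (by linarith), hk2]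
        · ring
        · push_cast
          have : ((2 : ℝ) ^ k - 1) * h = (2 : ℝ) ^ k * h - h := by ring
          linarith
        · push_cast
          have : ((2 : ℝ) ^ k - 1) * h = (2 : ℝ) ^ k * h - h := by ring
          linarith
      · intro x hx
        have hn0 : (0 : ℝ) ≤ n * h := by positivity
        rw [Equiv.Perm.mul_apply, minv x (by linarith), h3]
        · ring
        · push_cast
          have : ((2 : ℝ) ^ k - 1) * h = (2 : ℝ) ^ k * h - h := by ring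
          linarith
    have := hmain.mul hm
    simpa [mul_assoc] using this

theorem Gc.ecl {f : Equiv.Perm ℝ} (hf : f ∈ Gc) : Ecl f := by
  obtain ⟨a, b, ha, hb, -, -, hab, h⟩ := Gc.exists_bounds hf 0 0
  obtain ⟨N1, hN1⟩ := G.exists_level h.1 a b
  obtain ⟨N2, hN2⟩ := ha.onG
  obtain ⟨N3, hN3⟩ := (hb.sub ha).onG
  obtain ⟨N, e1, e2, e3⟩ : ∃ N, N1 ≤ N ∧ N2 ≤ N ∧ N3 ≤ N := ⟨max N1 (max N2 N3), by omega, by omega, by omega⟩
  obtain ⟨m, hm⟩ := hN3.mono e3
  have hpos2 : (0 : ℝ) < 2 ^ N := by positivity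
  have hm0 : (0 : ℝ) < m := by
    have : 0 < (m : ℝ) / 2 ^ N := by rw [← hm]; linarith
    rcases div_pos_iff.1 this with h1 | h1
    · exact h1.1
    · linarith [h1.2]
  have hm1 : 0 < m := by exact_mod_cast hm0
  obtain ⟨n, hn⟩ := Int.eq_ofNat_of_zero_le hm1.le
  have hn' : (m : ℝ) = n := by rw [hn]; simp
  refine ecl_of_steps (1 / 2 ^ N) (dy_hN N) (hN_pos N) n f a 0 h.1 ha h.2.1 ?_ ?_
  · intro j hj
    have hj' : (j : ℝ) < m := by rw [hn']; exact_mod_cast hj
    have hu : OnG N (a + j * (1 / 2 ^ N)) := by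
      obtain ⟨m', hm'⟩ := hN2.mono e2
      exact ⟨m' + j, by rw [hm']; push_cast; ring⟩
    have h1 := hN1 N e1 _ hu (by
      have : (0 : ℝ) ≤ j * (1 / 2 ^ N) := by positivity
      linarith) (by
      have : (j : ℝ) * (1 / 2 ^ N) < m * (1 / 2 ^ N) := by
        have := hN_pos N
        gcongr
      have e : b - a = m * (1 / 2 ^ N) := by rw [hm]; ring
      linarith)
    obtain ⟨k, c, -, hk⟩ := h1.closed h.1 (by have := hN_pos N; linarith)
    refine ⟨k, c, fun x hx1 hx2 => hk x hx1 ?_⟩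
    have : a + ((j : ℝ) + 1) * (1 / 2 ^ N) = a + j * (1 / 2 ^ N) + 1 / 2 ^ N := by ring
    linarith
  · intro x hx
    rw [add_zero]
    apply h.2.2
    have e : b - a = n * (1 / 2 ^ N) := by rw [hm, hn']; ring
    linarith

theorem commutator_Gc_le : ⁅Gc, Gc⁆ ≤ Gc := Subgroup.commutator_le.2 (fun x hx y hy => by
  rw [commutatorElement_def]
  exact Gc.mul_mem (Gc.mul_mem (Gc.mul_mem hx hy) (Gc.inv_mem hx)) (Gc.inv_mem hy))

/-- **`Gc` is perfect** -/
theorem Gc_perfect : Gc ≤ ⁅Gc, Gc⁆ := by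
  intro f hf
  obtain ⟨N, hN⟩ := Gc.ecl hf
  obtain ⟨-, m, hm⟩ := hN N le_rfl
  -- the power of M is compactly supported, hence trivial
  have h1 : (Me 0 (1 / 2 ^ N)) ^ m ∈ Gc := by
    have := Gc.mul_mem (Gc.inv_mem hf) (commutator_Gc_le hm)
    simpa using this
  have hr : ∀ n : ℕ, ∀ x, 1 / 2 ^ N ≤ x → (Me 0 (1 / 2 ^ N) ^ n) x = x + n * (1 / 2 ^ N) := by
    intro n
    induction n with
    | zero => intro x _; simp
    | succ n ih =>
      intro x hx
      have : (0 : ℝ) ≤ n * (1 / 2 ^ N) := by positivity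
      rw [pow_succ', Equiv.Perm.mul_apply, ih x hx, Me_right Dy.zero (dy_hN N) (hN_pos N) (by linarith)]
      push_cast; ring
  have h2 : m = 0 := by
    by_contra hne
    -- the natural power
    have h3 : (Me 0 (1 / 2 ^ N)) ^ m.natAbs ∈ Gc := by
      rcases Int.natAbs_eq m with h | h
      · rw [← zpow_natCast, ← h]; exact h1
      · have := Gc.inv_mem h1
        rw [← zpow_neg] at this
        rw [← zpow_natCast]
        convert this using 2
        omega
    obtain ⟨a, b, h4⟩ := h3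
    have h5 := h4.2.2 (max b (1 / 2 ^ N)) (le_max_left _ _)
    rw [hr _ _ (le_max_right _ _)] at h5
    have h6 : (0 : ℝ) < (m.natAbs : ℝ) := by
      have : 0 < m.natAbs := Int.natAbs_pos.2 hne
      exact_mod_cast this
    have h7 := hN_pos N
    nlinarith [mul_pos h6 h7]
  rw [h2, zpow_zero, mul_one] at hm
  exact hm

/-- a commutator product lives in a bounded interval -/
theorem commutator_bounded {f : Equiv.Perm ℝ} (hf : f ∈ ⁅Gc, Gc⁆) :
    ∃ L > 0, f ∈ ⁅GI (-L) L, GI (-L) L⁆ := by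
  have mono : ∀ {L L' : ℝ}, L ≤ L' → ⁅GI (-L) L, GI (-L) L⁆ ≤ ⁅GI (-L') L', GI (-L') L'⁆ := by
    intro L L' h
    exact Subgroup.commutator_mono (GI.mono (by linarith) h) (GI.mono (by linarith) h)
  have hb : ∀ {e : Equiv.Perm ℝ}, e ∈ Gc → ∃ L > 0, e ∈ GI (-L) L := by
    rintro e ⟨a, b, h⟩
    refine ⟨max (max (-a) b) 1, by positivity, GI.mono ?_ ?_ h⟩
    · have : -a ≤ max (max (-a) b) 1 := (le_max_left _ _).trans (le_max_left _ _)
      linarith
    · exact (le_max_right _ _).trans (le_max_left _ _)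
  rw [Subgroup.commutator_def] at hf
  induction hf using Subgroup.closure_induction with
  | mem x hx =>
    obtain ⟨g1, h1, g2, h2, rfl⟩ := hx
    obtain ⟨L1, hL1, k1⟩ := hb h1
    obtain ⟨L2, hL2, k2⟩ := hb h2
    refine ⟨max L1 L2, lt_max_of_lt_left hL1, ?_⟩
    apply Subgroup.commutator_mem_commutator
    · exact GI.mono (neg_le_neg (le_max_left _ _)) (le_max_left _ _) k1
    · exact GI.mono (neg_le_neg (le_max_right _ _)) (le_max_right _ _) k2
  | one => exact ⟨1, one_pos, Subgroup.one_mem _⟩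
  | mul x y _ _ hx hy =>
    obtain ⟨L1, hL1, k1⟩ := hx
    obtain ⟨L2, hL2, k2⟩ := hy
    exact ⟨max L1 L2, lt_max_of_lt_left hL1, Subgroup.mul_mem _ (mono (le_max_left _ _) k1) (mono (le_max_right _ _) k2)⟩
  | inv x _ hx =>
    obtain ⟨L, hL, k⟩ := hx
    exact ⟨L, hL, Subgroup.inv_mem _ k⟩

/-- compression: an element of G which is the identity on `[a,b]` and maps `[-L,L]` into `(a',b')` -/
theorem exists_compress {a' a b b' L : ℝ} (ha : Dy a) (hb : Dy b) (hab : a < b) (h1 : a' < a) (h2 : b < b') :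
    ∃ ψ ∈ G, (∀ x, a ≤ x → x ≤ b → ψ x = x) ∧ a' < ψ (-L) ∧ ψ L < b' := by
  obtain ⟨a2, ha2, h3, h4⟩ := exists_dy_btwn h1
  obtain ⟨b2, hb2, h5, h6⟩ := exists_dy_btwn h2
  obtain ⟨l, hl, h7⟩ := exists_dy_lt (min (-L) a)
  obtain ⟨r, hr, h8⟩ := exists_dy_gt (max L b)
  have h7a := h7.trans_le (min_le_left _ _)
  have h7b := h7.trans_le (min_le_right _ _)
  have h8a := lt_of_le_of_lt (le_max_left _ _) h8
  have h8b := lt_of_le_of_lt (le_max_right _ _) h8
  obtain ⟨u, hu, hu1, hu2⟩ := exists_splice (tr_mem (ha2.sub hl)) G.one_mem hl ha h7b (by simpa using h4)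
  obtain ⟨v, hv, hv1, hv2⟩ := exists_splice hu (tr_mem (hb2.sub hr)) hb hr h8b (by
    rw [hu2 b hab.le]; simpa using h5)
  refine ⟨v, hv, fun x hx1 hx2 => ?_, ?_, ?_⟩
  · rw [hv1 x hx2, hu2 x hx1]; rfl
  · have e : v l = a2 := by rw [hv1 l (by linarith), hu1 l le_rfl]; simp
    have := (G.lt_iff hv).2 h7a
    linarith
  · have e : v r = b2 := by rw [hv2 r le_rfl]; simp
    have := (G.lt_iff hv).2 h8a
    linarith

/-- **local perfectness** -/
theorem HI_perfect {a b : ℝ} (hab : a < b) : HI a b ≤ ⁅HI a b, HI a b⁆ := by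
  intro f hf
  obtain ⟨hfG, a1, b1, ha1, hb1, h1, h2, h3, h4⟩ := (mem_HI hab).1 hf
  obtain ⟨L, hL, hfL⟩ := commutator_bounded (Gc_perfect (HI_le_Gc a b hf))
  obtain ⟨ψ, hψ, hψ1, hψ2, hψ3⟩ := exists_compress (L := L) ha1 hb1 h2 h1 h3
  have e : f = ψ * f * ψ⁻¹ := by
    have := conj_congr hψ G.one_mem hfG h2.le h4 (fun x hx1 hx2 => hψ1 x hx1 hx2)
    rw [this]; simp
  rw [e]
  have h5 : MulAut.conj ψ f ∈ (⁅GI (-L) L, GI (-L) L⁆).map (MulAut.conj ψ).toMonoidHom := Subgroup.mem_map_of_mem _ hfL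
  rw [Subgroup.map_commutator] at h5
  have h6 : (GI (-L) L).map (MulAut.conj ψ).toMonoidHom ≤ HI a b := by
    rintro _ ⟨e, he, rfl⟩
    have : GI (ψ (-L)) (ψ L) ≤ HI a b := GI_le_HI hψ2 ((G.lt_iff hψ).2 (by linarith)) hψ3
    exact this (GI.conj hψ he)
  have h7 := Subgroup.commutator_mono h6 h6 h5
  simpa [MulAut.conj_apply] using h7

end Pool.Agent.Thompson
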