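import Pool.Agent.Thompson.FGroup

set_option autoImplicit false

/-!
# Supports, conjugation, compression
-/

namespace Pool.Agent.Thompson

open Set Filter Topology

theorem pinv_lt {g : Equiv.Perm ℝ} (hg : g ∈ G) {x y : ℝ} : g⁻¹ x < y ↔ x < g y := by
  rw [← G.lt_iff hg, pai]

theorem pinv_le {g : Equiv.Perm ℝ} (hg : g ∈ G) {x y : ℝ} : g⁻¹ x ≤ y ↔ x ≤ g y := by
  rw [← G.le_iff hg, pai]

theorem lt_pinv {g : Equiv.Perm ℝ} (hg : g ∈ G) {x y : ℝ} : y < g⁻¹ x ↔ g y < x := by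
  rw [← G.lt_iff hg, pai]

theorem le_pinv {g : Equiv.Perm ℝ} (hg : g ∈ G) {x y : ℝ} : y ≤ g⁻¹ x ↔ g y ≤ x := by
  rw [← G.le_iff hg, pai]

theorem Sp.conj {g e : Equiv.Perm ℝ} (hg : g ∈ G) {a b : ℝ} (he : Sp e a b) : Sp (g * e * g⁻¹) (g a) (g b) := by
  constructor
  · intro x hx
    rw [Equiv.Perm.mul_apply, Equiv.Perm.mul_apply, he.1 _ ((pinv_le hg).2 hx), pai]
  · intro x hx
    rw [Equiv.Perm.mul_apply, Equiv.Perm.mul_apply, he.2 _ ((le_pinv hg).2 hx), pai]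

theorem GI.conj {g e : Equiv.Perm ℝ} (hg : g ∈ G) {a b : ℝ} (he : e ∈ GI a b) : g * e * g⁻¹ ∈ GI (g a) (g b) :=
  ⟨G.mul_mem (G.mul_mem hg he.1) (G.inv_mem hg), he.2.conj hg⟩

theorem commute_of_sp {e e' : Equiv.Perm ℝ} (he : e ∈ G) (he' : e' ∈ G) {a b c d : ℝ} (h : Sp e a b) (h' : Sp e' c d)
    (hbc : b ≤ c) : e * e' = e' * e := by
  ext x
  rw [Equiv.Perm.mul_apply, Equiv.Perm.mul_apply]
  rcases le_total x c with hx | hx
  · rw [h'.1 x hx]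
    rcases le_total x b with hxb | hxb
    · -- e x ≤ e b = b ≤ c
      have : e x ≤ b := by
        have := (G.mono he) hxb
        rwa [h.2 b le_rfl] at this
      rw [h'.1 _ (this.trans hbc)]
    · rw [h.2 x hxb, h'.1 x hx]
  · have h1 : c ≤ e' x := by
      have := (G.mono he') hx
      rwa [h'.1 c le_rfl] at this
    rw [h.2 x (hbc.trans hx), h.2 _ (hbc.trans h1)]

theorem conj_congr {g g' e : Equiv.Perm ℝ} (hg : g ∈ G) (hg' : g' ∈ G) (he : e ∈ G) {a b : ℝ} (hab : a ≤ b)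
    (hs : Sp e a b) (h : ∀ x, a ≤ x → x ≤ b → g x = g' x) : g * e * g⁻¹ = g' * e * g'⁻¹ := by
  ext y
  simp only [Equiv.Perm.mul_apply]
  rcases lt_or_ge (g⁻¹ y) a with hx | hx
  · have h1 : g'⁻¹ y < a := by
      rw [pinv_lt hg', ← h a le_rfl hab, ← pinv_lt hg]; exact hx
    rw [hs.1 _ hx.le, hs.1 _ h1.le, pai, pai]
  · rcases le_or_gt (g⁻¹ y) b with hx2 | hx2
    · have h1 : g'⁻¹ y = g⁻¹ y := by
        apply pinv_eq
        rw [← h _ hx hx2, pai]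
      rw [h1]
      apply h
      · have := (G.mono he) hx
        rwa [hs.1 a le_rfl] at this
      · have := (G.mono he) hx2
        rwa [hs.2 b le_rfl] at this
    · have h1 : b < g'⁻¹ y := by
        rw [lt_pinv hg', ← h b hab le_rfl, ← lt_pinv hg]; exact hx2
      rw [hs.2 _ hx2.le, hs.2 _ h1.le, pai, pai]

/-- replace an element by a compactly supported one -/
theorem exists_local {g : Equiv.Perm ℝ} (hg : g ∈ G) {a b a' b' : ℝ} (ha : Dy a) (hb : Dy b) (ha' : Dy a') (hb' : Dy b')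
    (hab : a ≤ b) (h1 : a' < a) (h2 : b < b') (h3 : a' < g a) (h4 : g b < b') :
    ∃ g' ∈ GI a' b', ∀ x, a ≤ x → x ≤ b → g' x = g x := by
  obtain ⟨u, hu, hu1, hu2⟩ := exists_splice G.one_mem hg ha' ha h1 (by simpa using h3)
  obtain ⟨v, hv, hv1, hv2⟩ := exists_splice hu G.one_mem hb hb' h2 (by rw [hu2 b hab]; simpa using h4)
  refine ⟨v, ⟨hv, fun x hx => ?_, fun x hx => ?_⟩, fun x hx1 hx2 => ?_⟩
  · rw [hv1 x (by linarith), hu1 x hx]; rfl
  · rw [hv2 x hx]; rfl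
  · rw [hv1 x hx2, hu2 x hx1]

theorem exists_dy_lt (a : ℝ) : ∃ d, Dy d ∧ d < a := by
  obtain ⟨d, hd, h1, h2⟩ := exists_dy_btwn (show a - 1 < a by linarith)
  exact ⟨d, hd, h2⟩

theorem exists_dy_gt (a : ℝ) : ∃ d, Dy d ∧ a < d := by
  obtain ⟨d, hd, h1, h2⟩ := exists_dy_btwn (show a < a + 1 by linarith)
  exact ⟨d, hd, h1⟩

/-- compactly supported dyadic PL homeomorphisms -/
def Gc : Subgroup (Equiv.Perm ℝ) where
  carrier := {f | ∃ a b, f ∈ GI a b}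
  one_mem' := ⟨0, 0, (GI 0 0).one_mem⟩
  mul_mem' := by
    rintro f g ⟨a, b, h⟩ ⟨a', b', h'⟩
    exact ⟨min a a', max b b', G.mul_mem h.1 h'.1, (h.2.mono (min_le_left _ _) (le_max_left _ _)).mul
      (h'.2.mono (min_le_right _ _) (le_max_right _ _))⟩
  inv_mem' := by
    rintro f ⟨a, b, h⟩
    exact ⟨a, b, (GI a b).inv_mem h⟩

theorem mem_Gc {f : Equiv.Perm ℝ} : f ∈ Gc ↔ ∃ a b, f ∈ GI a b := Iff.rfl

theorem GI_le_Gc (a b : ℝ) : GI a b ≤ Gc := fun _ h => ⟨a, b, h⟩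

theorem HI_le_Gc (a b : ℝ) : HI a b ≤ Gc := (HI_le_GI a b).trans (GI_le_Gc a b)

theorem Gc_le_G : Gc ≤ G := fun _ ⟨_, _, h⟩ => h.1

theorem Gc.conj {g e : Equiv.Perm ℝ} (hg : g ∈ G) (he : e ∈ Gc) : g * e * g⁻¹ ∈ Gc := by
  obtain ⟨a, b, h⟩ := he
  exact ⟨_, _, GI.conj hg h⟩

theorem GI.mono {a b a' b' : ℝ} (ha : a' ≤ a) (hb : b ≤ b') : GI a b ≤ GI a' b' :=
  fun _ h => ⟨h.1, h.2.mono ha hb⟩

/-- dyadic support bounds, as large as we like -/
theorem Gc.exists_bounds {e : Equiv.Perm ℝ} (he : e ∈ Gc) (x y : ℝ) :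
    ∃ a b, Dy a ∧ Dy b ∧ a < x ∧ y < b ∧ a < b ∧ e ∈ GI a b := by
  obtain ⟨a, b, h⟩ := he
  obtain ⟨a', ha', h1⟩ := exists_dy_lt (min (min a x) y)
  obtain ⟨b', hb', h2⟩ := exists_dy_gt (max (max b y) x)
  have e1 : a' < a := h1.trans_le ((min_le_left _ _).trans (min_le_left _ _))
  have e2 : a' < x := h1.trans_le ((min_le_left _ _).trans (min_le_right _ _))
  have e3 : a' < y := h1.trans_le (min_le_right _ _)
  have e4 : b < b' := lt_of_le_of_lt ((le_max_left _ _).trans (le_max_left _ _)) h2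
  have e5 : y < b' := lt_of_le_of_lt ((le_max_right _ _).trans (le_max_left _ _)) h2
  exact ⟨a', b', ha', hb', e2, e5, by linarith, GI.mono e1.le e4.le h⟩

/-- in a commutator one factor may be replaced by a compactly supported one -/
theorem comm_mem_commutator {g e : Equiv.Perm ℝ} (hg : g ∈ G) (he : e ∈ Gc) : g * e * g⁻¹ * e⁻¹ ∈ ⁅Gc, Gc⁆ := by
  obtain ⟨a, b, ha, hb, -, -, hab, h⟩ := Gc.exists_bounds he 0 0
  obtain ⟨a', ha', h1⟩ := exists_dy_lt (min a (g a))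
  obtain ⟨b', hb', h2⟩ := exists_dy_gt (max b (g b))
  obtain ⟨g', hg', h3⟩ := exists_local hg ha hb ha' hb' hab.le (h1.trans_le (min_le_left _ _))
    (lt_of_le_of_lt (le_max_left _ _) h2) (h1.trans_le (min_le_right _ _)) (lt_of_le_of_lt (le_max_right _ _) h2)
  rw [conj_congr hg hg'.1 h.1 hab.le h.2 (fun x hx1 hx2 => (h3 x hx1 hx2).symm)]
  exact Subgroup.commutator_mem_commutator (GI_le_Gc _ _ hg') he

theorem commutator_Gc_conj {g e : Equiv.Perm ℝ} (hg : g ∈ G) (he : e ∈ ⁅Gc, Gc⁆) : g * e * g⁻¹ ∈ ⁅Gc, Gc⁆ := by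
  have he' : e ∈ Gc := by
    have : ⁅Gc, Gc⁆ ≤ Gc := Subgroup.commutator_le.2 (fun x hx y hy => by
      rw [commutatorElement_def]
      exact Gc.mul_mem (Gc.mul_mem (Gc.mul_mem hx hy) (Gc.inv_mem hx)) (Gc.inv_mem hy))
    exact this he
  have h := comm_mem_commutator hg he'
  have := Subgroup.mul_mem _ h he
  simpa [mul_assoc] using this

end Pool.Agent.Thompson
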