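import Pool.Agent.Thompson.VLoc

set_option autoImplicit false

/-!
# Conjugacy of elements of finite order of V
-/

namespace Pool.Agent.Thompson.VC

open Set Filter Topology Function
open Pool.Agent.ThompsonV

theorem germ_len {g : Equiv.Perm Om} {m : ℕ} (hm : 0 < m) (hg : g ^ m = 1) {a c : List Bool}
    (h : ∀ y, g (app a y) = app (a ++ c) y) : c = [] := by
  have key : ∀ n : ℕ, ∀ y, (g ^ n) (app a y) = app a ((app c)^[n] y) := by
    intro n
    induction n with
    | zero => intro y; simp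
    | succ n ih =>
      intro y
      rw [pow_succ', Equiv.Perm.mul_apply, ih, h, app_append, Function.iterate_succ_apply']
  by_contra hc
  obtain ⟨b, c', rfl⟩ := List.exists_cons_of_ne_nil hc
  obtain ⟨k, rfl⟩ : ∃ k, m = k + 1 := ⟨m - 1, by omega⟩
  have h1 := key (k + 1) (cst (!b))
  rw [hg, Equiv.Perm.one_apply, Function.iterate_succ_apply'] at h1
  have h2 := app_inj a h1
  have h3 := congrFun h2 0
  simp at h3

theorem fix_open {g : Equiv.Perm Om} (hl : Loc g) {m : ℕ} (hm : 0 < m) (hg : g ^ m = 1) :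
    IsOpen {x | g x = x} := by
  rw [isOpen_iff_mem_nhds]
  intro x hx
  obtain ⟨u, v, hu, hf⟩ := hl x
  obtain ⟨w, rfl⟩ := (pre_iff _ _).1 hu
  have hx' : g (app u w) = app u w := hx
  rw [hf] at hx'
  have huv : v = u := by
    rcases le_total u.length v.length with hle | hle
    · obtain ⟨c, rfl⟩ := pre_split u v w (by rw [hx']; exact (pre_iff _ _).2 ⟨w, rfl⟩) hle
      have := germ_len hm hg hf
      rw [this, List.append_nil]
    · obtain ⟨c, rfl⟩ := pre_split v u w (by rw [← hx']; exact (pre_iff _ _).2 ⟨w, rfl⟩) hle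
      have hg' : g⁻¹ ^ m = 1 := by rw [inv_pow, hg, inv_one]
      have := germ_len hm hg' (a := v) (c := c) (fun y => by rw [← hf y]; simp)
      rw [this, List.append_nil]
  subst huv
  exact mem_of_superset ((isOpen_pre v).mem_nhds hu) (fun y hy => by
    obtain ⟨w', rfl⟩ := (pre_iff _ _).1 hy
    exact hf w')

theorem per_iff {g : Equiv.Perm Om} (n : ℕ) (x : Om) : IsPeriodicPt g n x ↔ (g ^ n) x = x := by
  rw [IsPeriodicPt, IsFixedPt, Equiv.Perm.iterate_eq_pow]

theorem per_mod {g : Equiv.Perm Om} {m : ℕ} (hg : g ^ m = 1) (n : ℕ) : g ^ n = g ^ (n % m) := by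
  conv_lhs => rw [← Nat.mod_add_div n m, pow_add, pow_mul, hg, one_pow, mul_one]

theorem minPer_pos {g : Equiv.Perm Om} {m : ℕ} (hm : 0 < m) (hg : g ^ m = 1) (x : Om) : 0 < minimalPeriod g x :=
  IsPeriodicPt.minimalPeriod_pos hm ((per_iff m x).2 (by rw [hg]; rfl))

theorem mem_per {g : Equiv.Perm Om} {m : ℕ} (hm : 0 < m) (hg : g ^ m = 1) (x : Om) : x ∈ periodicPts g :=
  ⟨m, hm, (per_iff m x).2 (by rw [hg]; rfl)⟩

theorem minPer_pow {g : Equiv.Perm Om} {m : ℕ} (hm : 0 < m) (hg : g ^ m = 1) (n : ℕ) (x : Om) :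
    minimalPeriod g ((g ^ n) x) = minimalPeriod g x := by
  rw [← Equiv.Perm.iterate_eq_pow]
  exact minimalPeriod_apply_iterate (mem_per hm hg x) n

theorem minPer_ev {g : Equiv.Perm Om} (hl : Loc g) {m : ℕ} (hm : 0 < m) (hg : g ^ m = 1) (x : Om) :
    ∀ᶠ y in 𝓝 x, minimalPeriod g y = minimalPeriod g x := by
  have h : ∀ᶠ y in 𝓝 x, ∀ n ∈ Finset.range m, ((g ^ n) y = y ↔ (g ^ n) x = x) := by
    rw [Filter.eventually_all_finset]
    intro n _
    have ho : IsOpen {y | (g ^ n) y = y} := fix_open (Loc.pow hl n) hm (by rw [← pow_mul, mul_comm, pow_mul, hg, one_pow])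
    have hc : IsClosed {y | (g ^ n) y = y} := isClosed_eq (Loc.continuous (Loc.pow hl n)) continuous_id
    by_cases hx : (g ^ n) x = x
    · filter_upwards [ho.mem_nhds hx] with y hy
      exact iff_of_true hy hx
    · filter_upwards [hc.isOpen_compl.mem_nhds hx] with y hy
      exact iff_of_false hy hx
  filter_upwards [h] with y hy
  rw [minimalPeriod_eq_minimalPeriod_iff]
  intro n
  rw [per_iff, per_iff, per_mod hg n]
  exact hy _ (Finset.mem_range.2 (Nat.mod_lt _ hm))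

theorem minPer_clopen {g : Equiv.Perm Om} (hl : Loc g) {m : ℕ} (hm : 0 < m) (hg : g ^ m = 1) (l : ℕ) :
    IsClopen {x | minimalPeriod g x = l} := by
  refine ⟨⟨?_⟩, ?_⟩
  · rw [isOpen_iff_mem_nhds]
    intro x hx
    filter_upwards [minPer_ev hl hm hg x] with y hy
    exact fun hy2 => hx (hy.symm.trans hy2)
  · rw [isOpen_iff_mem_nhds]
    intro x hx
    filter_upwards [minPer_ev hl hm hg x] with y hy
    exact hy.trans hx

theorem lt_open {f g : Om → Om} (hf : Continuous f) (hg : Continuous g) :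
    IsOpen {w | toLex (f w) < toLex (g w)} := by
  rw [isOpen_iff_mem_nhds]
  rintro w ⟨n, hn1, hn2⟩
  have h1 : ∀ᶠ z in 𝓝 w, ∀ i < n + 1, f z i = f w i :=
    (hf.tendsto w).eventually (ev_iff.2 ⟨n + 1, fun x hx => hx⟩)
  have h2 : ∀ᶠ z in 𝓝 w, ∀ i < n + 1, g z i = g w i :=
    (hg.tendsto w).eventually (ev_iff.2 ⟨n + 1, fun x hx => hx⟩)
  filter_upwards [h1, h2] with z hz1 hz2
  refine ⟨n, fun j hj => ?_, ?_⟩
  · have h3 : f w j = g w j := hn1 j hj
    have hj' : j < n := hj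
    have h4 : f z j = g z j := by rw [hz1 j (by omega), hz2 j (by omega)]; exact h3
    exact h4
  · have h3 : f w n < g w n := hn2
    have h4 : f z n < g z n := by rw [hz1 n (by omega), hz2 n (by omega)]; exact h3
    exact h4

/-- lexicographically minimal points of the orbits -/
def D (g : Equiv.Perm Om) (m : ℕ) : Set Om := {x | ∀ i < m, toLex x ≤ toLex ((g ^ i) x)}

theorem D_clopen {g : Equiv.Perm Om} (hl : Loc g) {m : ℕ} (hm : 0 < m) (hg : g ^ m = 1) : IsClopen (D g m) := by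
  have h : D g m = ⋂ i ∈ Finset.range m, {x | toLex x ≤ toLex ((g ^ i) x)} := by
    ext x; simp [D]
  rw [h]
  refine isClopen_biInter_finset fun i _ => ⟨⟨?_⟩, ?_⟩
  · have : {x | toLex x ≤ toLex ((g ^ i) x)}ᶜ = {x | toLex ((g ^ i) x) < toLex x} := by
      ext x
      constructor
      · intro h; exact (not_le (a := toLex x) (b := toLex ((g ^ i) x))).1 h
      · intro h; exact (not_le (a := toLex x) (b := toLex ((g ^ i) x))).2 h
    rw [this]
    exact lt_open (Loc.continuous (Loc.pow hl i)) continuous_id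
  · have : {x | toLex x ≤ toLex ((g ^ i) x)} = {x | toLex x < toLex ((g ^ i) x)} ∪ {x | (g ^ i) x = x} := by
      ext x
      constructor
      · intro h
        have h : toLex x ≤ toLex ((g ^ i) x) := h
        rcases le_iff_lt_or_eq.1 h with h | h
        · exact Or.inl h
        · exact Or.inr (toLex.injective h).symm
      · rintro (h | h)
        · have h : toLex x < toLex ((g ^ i) x) := h
          exact le_of_lt h
        · have h' : (g ^ i) x = x := h
          show toLex x ≤ toLex ((g ^ i) x)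
          rw [h']
    rw [this]
    exact (lt_open continuous_id (Loc.continuous (Loc.pow hl i))).union
      (fix_open (Loc.pow hl i) hm (by rw [← pow_mul, mul_comm, pow_mul, hg, one_pow]))

theorem D_le {g : Equiv.Perm Om} {m : ℕ} (hm : 0 < m) (hg : g ^ m = 1) {x : Om} (hx : x ∈ D g m) (i : ℕ) :
    toLex x ≤ toLex ((g ^ i) x) := by
  rw [per_mod hg]
  exact hx _ (Nat.mod_lt _ hm)

theorem D_exists {g : Equiv.Perm Om} {m : ℕ} (hm : 0 < m) (hg : g ^ m = 1) (x : Om) :
    ∃ i : ℕ, ∃ z ∈ D g m, x = (g ^ i) z := by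
  obtain ⟨i, hi, hmin⟩ := Finset.exists_min_image (Finset.range m) (fun i => toLex ((g ^ i) x)) ⟨0, Finset.mem_range.2 hm⟩
  rw [Finset.mem_range] at hi
  refine ⟨m - i, (g ^ i) x, fun j _ => ?_, ?_⟩
  · rw [← Equiv.Perm.mul_apply, ← pow_add, per_mod hg (j + i)]
    exact hmin _ (Finset.mem_range.2 (Nat.mod_lt _ hm))
  · rw [← Equiv.Perm.mul_apply, ← pow_add, Nat.sub_add_cancel hi.le, hg]; rfl

theorem D_unique {g : Equiv.Perm Om} {m : ℕ} (hm : 0 < m) (hg : g ^ m = 1) {z z' : Om} (hz : z ∈ D g m)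
    (hz' : z' ∈ D g m) {i j : ℕ} (h : (g ^ i) z = (g ^ j) z') : z = z' := by
  have key : ∀ {z z' : Om}, z ∈ D g m → z' ∈ D g m → ∀ {i j : ℕ}, (g ^ i) z = (g ^ j) z' → toLex z ≤ toLex z' := by
    intro z z' hz hz' i j h
    have h1 : z' = (g ^ ((m - 1) * j + i)) z := by
      rw [pow_add, Equiv.Perm.mul_apply, h, ← Equiv.Perm.mul_apply, ← pow_add]
      have : (m - 1) * j + j = m * j := by
        obtain ⟨k, rfl⟩ : ∃ k, m = k + 1 := ⟨m - 1, by omega⟩
        rw [Nat.add_sub_cancel]; ring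
      rw [this, pow_mul, hg, one_pow]; rfl
    rw [h1]
    exact D_le hm hg hz _
  exact toLex.injective (le_antisymm (key hz hz' h) (key hz' hz h.symm))

theorem pow_eq_of_dvd {u s : Equiv.Perm Om} {z z' : Om} (h : minimalPeriod s z' ∣ minimalPeriod u z) {i j : ℕ}
    (hij : (u ^ i) z = (u ^ j) z) : (s ^ i) z' = (s ^ j) z' := by
  have key : ∀ {i j : ℕ}, i ≤ j → (u ^ i) z = (u ^ j) z → (s ^ i) z' = (s ^ j) z' := by
    intro i j hle hij
    obtain ⟨k, rfl⟩ := Nat.exists_eq_add_of_le hle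
    rw [pow_add, Equiv.Perm.mul_apply] at hij
    have h1 := (u ^ i).injective hij
    have h2 : IsPeriodicPt u k z := (per_iff k z).2 h1.symm
    have h3 : IsPeriodicPt s k z' := isPeriodicPt_iff_minimalPeriod_dvd.2 (h.trans h2.minimalPeriod_dvd)
    rw [pow_add, Equiv.Perm.mul_apply, (per_iff k z').1 h3]
  rcases le_total i j with hle | hle
  · exact key hle hij
  · exact (key hle hij.symm).symm

theorem exists_conjMap {u s : Equiv.Perm Om} (hu : Loc u) (hs : Loc s) {m : ℕ} (hm : 0 < m) (hum : u ^ m = 1)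
    (β : Om → Om) (hβ : ∀ z ∈ D u m, LA β z)
    (hper : ∀ z ∈ D u m, minimalPeriod s (β z) ∣ minimalPeriod u z) :
    ∃ Y : Om → Om, (∀ x, LA Y x) ∧ ∀ i : ℕ, ∀ z ∈ D u m, Y ((u ^ i) z) = (s ^ i) (β z) := by
  choose i z hz hx using D_exists hm hum
  have hform : ∀ j : ℕ, ∀ z₁ ∈ D u m, (s ^ (i ((u ^ j) z₁))) (β (z ((u ^ j) z₁))) = (s ^ j) (β z₁) := by
    intro j z₁ hz₁
    have h1 := hx ((u ^ j) z₁)
    have h2 := D_unique hm hum hz₁ (hz ((u ^ j) z₁)) h1
    rw [← h2] at h1 ⊢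
    exact pow_eq_of_dvd (hper z₁ hz₁) h1.symm
  refine ⟨fun x => (s ^ (i x)) (β (z x)), fun x => ?_, hform⟩
  have hinv : (u ^ i x)⁻¹ x = z x := by
    rw [Equiv.Perm.inv_eq_iff_eq]; exact hx x
  have hc : Continuous ((u ^ i x)⁻¹ : Equiv.Perm Om) := Loc.continuous (Loc.inv (Loc.pow hu _))
  have hev : ∀ᶠ y in 𝓝 x, (u ^ i x)⁻¹ y ∈ D u m := by
    apply (hc.tendsto x).eventually
    rw [hinv]
    exact (D_clopen hu hm hum).isOpen.mem_nhds (hz x)
  refine LA.congr (f := fun y => (s ^ i x) (β ((u ^ i x)⁻¹ y))) ?_ ?_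
  · refine LA.comp (f := ⇑(s ^ i x)) (g := fun y => β ((u ^ i x)⁻¹ y)) (Loc.pow hs _ _) ?_
    refine LA.comp (f := β) (g := ⇑(u ^ i x)⁻¹) ?_ (Loc.inv (Loc.pow hu _) _)
    rw [hinv]
    exact hβ _ (hz x)
  · filter_upwards [hev] with y hy
    have := hform (i x) _ hy
    rw [show (u ^ i x) ((u ^ i x)⁻¹ y) = y by simp] at this
    exact this

/-- **Conjugacy criterion**: elements of finite order of `V` with the same set of orbit sizes are conjugate. -/
theorem conj_of_periods {u s : Equiv.Perm Om} (hu : Loc u) (hs : Loc s) {m : ℕ} (hm : 0 < m) (hum : u ^ m = 1)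
    (hsm : s ^ m = 1) (h : ∀ l, (∃ x, minimalPeriod u x = l) ↔ (∃ x, minimalPeriod s x = l)) :
    ∃ y : Equiv.Perm Om, Loc y ∧ y * u = s * y := by
  have hne : ∀ {u : Equiv.Perm Om}, u ^ m = 1 → ∀ l, (D u m ∩ {x | minimalPeriod u x = l}).Nonempty ↔ ∃ x, minimalPeriod u x = l := by
    intro u hum l
    constructor
    · rintro ⟨x, -, hx⟩; exact ⟨x, hx⟩
    · rintro ⟨x, hx⟩
      obtain ⟨i, z, hz, rfl⟩ := D_exists hm hum x
      refine ⟨z, hz, ?_⟩
      rw [minPer_pow hm hum] at hx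
      exact hx
  have hbij := fun l => exists_bij (A := D u m ∩ {x | minimalPeriod u x = l}) (B := D s m ∩ {x | minimalPeriod s x = l})
    ((D_clopen hu hm hum).inter (minPer_clopen hu hm hum l)) ((D_clopen hs hm hsm).inter (minPer_clopen hs hm hsm l))
    (by rw [hne hum, hne hsm]; exact h l)
  choose f g hf hg using hbij
  obtain ⟨Y, hY, hY'⟩ := exists_conjMap hu hs hm hum (fun z => f (minimalPeriod u z) z) (fun z hz => by
      refine LA.congr (f := f (minimalPeriod u z)) (hf _ z ⟨hz, rfl⟩).1 ?_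
      filter_upwards [minPer_ev hu hm hum z] with y hy
      rw [hy]) (fun z hz => by
      have := (hf _ z ⟨hz, rfl⟩).2.1.2
      exact dvd_of_eq this)
  obtain ⟨Z, hZ, hZ'⟩ := exists_conjMap hs hu hm hsm (fun z => g (minimalPeriod s z) z) (fun z hz => by
      refine LA.congr (f := g (minimalPeriod s z)) (hg _ z ⟨hz, rfl⟩).1 ?_
      filter_upwards [minPer_ev hs hm hsm z] with y hy
      rw [hy]) (fun z hz => by
      have := (hg _ z ⟨hz, rfl⟩).2.1.2
      exact dvd_of_eq this)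
  refine ⟨⟨Y, Z, fun x => ?_, fun x => ?_⟩, hY, ?_⟩
  · obtain ⟨i, z, hz, rfl⟩ := D_exists hm hum x
    obtain ⟨-, ⟨h1, h2⟩, h3⟩ := hf (minimalPeriod u z) z ⟨hz, rfl⟩
    rw [hY' i z hz, hZ' i _ h1]
    have h2' : _ = _ := h2
    rw [h2', h3]
  · obtain ⟨i, z, hz, rfl⟩ := D_exists hm hsm x
    obtain ⟨-, ⟨h1, h2⟩, h3⟩ := hg (minimalPeriod s z) z ⟨hz, rfl⟩
    rw [hZ' i z hz, hY' i _ h1]
    have h2' : _ = _ := h2
    rw [h2', h3]
  · ext1 x
    obtain ⟨i, z, hz, rfl⟩ := D_exists hm hum x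
    show Y (u ((u ^ i) z)) = s (Y ((u ^ i) z))
    rw [← Equiv.Perm.mul_apply, ← pow_succ', hY' _ z hz, hY' _ z hz, ← Equiv.Perm.mul_apply, ← pow_succ']

end Pool.Agent.Thompson.VC
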