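import Pool.Agent.Thompson.VConj

set_option autoImplicit false

/-!
# Elements of V permuting cones; elements of finite order with prescribed periods
-/

namespace Pool.Agent.Thompson.VC

open Set Filter Topology Function
open Pool.Agent.ThompsonV

/-- pairwise disjoint cones -/
def Dis {ι : Type} (w : ι → List Bool) : Prop := ∀ i j z, Pre (w i) z → Pre (w j) z → i = j

theorem pre_app (u : List Bool) (x : Om) : Pre u (app u x) := (pre_iff _ _).2 ⟨x, rfl⟩

theorem Dis.inj {ι : Type} {w : ι → List Bool} (hw : Dis w) :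
    Function.Injective (fun p : ι × Om => app (w p.1) p.2) := by
  rintro ⟨i, x⟩ ⟨j, y⟩ h
  have h' : app (w i) x = app (w j) y := h
  have hij : i = j := hw i j (app (w i) x) (pre_app _ _) (h' ▸ pre_app _ _)
  subst hij
  rw [app_inj _ h']

/-- lift of permutations of `ι × Om` to `Om` along disjoint cones -/
noncomputable def Lw {ι : Type} (w : ι → List Bool) (hw : Dis w) : Equiv.Perm (ι × Om) →* Equiv.Perm Om :=
  Equiv.Perm.viaEmbeddingHom ⟨fun p : ι × Om => app (w p.1) p.2, hw.inj⟩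

theorem Lw_app {ι : Type} {w : ι → List Bool} (hw : Dis w) (ρ : Equiv.Perm (ι × Om)) (i : ι) (y : Om) :
    Lw w hw ρ (app (w i) y) = app (w (ρ (i, y)).1) (ρ (i, y)).2 :=
  Equiv.Perm.viaEmbedding_apply ρ (⟨fun p : ι × Om => app (w p.1) p.2, hw.inj⟩ : ι × Om ↪ Om) (i, y)

theorem Lw_out {ι : Type} {w : ι → List Bool} (hw : Dis w) (ρ : Equiv.Perm (ι × Om)) {x : Om}
    (hx : ∀ i, ¬ Pre (w i) x) : Lw w hw ρ x = x := by
  apply Equiv.Perm.viaEmbedding_apply_of_notMem
  rintro ⟨⟨i, y⟩, h⟩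
  apply hx i
  rw [← h]
  exact pre_app _ _

theorem Lw_loc {ι : Type} [Finite ι] {w : ι → List Bool} (hw : Dis w) (ρ : Equiv.Perm (ι × Om))
    (h : ∀ i y, ∃ a j b, Pre a y ∧ ∀ x, ρ (i, app a x) = (j, app b x)) : Loc (Lw w hw ρ) := by
  intro z
  by_cases hz : ∃ i, Pre (w i) z
  · obtain ⟨i, hi⟩ := hz
    obtain ⟨y, rfl⟩ := (pre_iff _ _).1 hi
    obtain ⟨a, j, b, ha, hab⟩ := h i y
    obtain ⟨y', rfl⟩ := (pre_iff _ _).1 ha
    refine ⟨w i ++ a, w j ++ b, ?_, fun x => ?_⟩
    · rw [← app_append]; exact pre_app _ _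
    · rw [app_append, Lw_app, hab, app_append]
  · push Not at hz
    refine LA.congr (LA.id z) ?_
    have h1 : IsOpen {x : Om | ∀ i, ¬ Pre (w i) x} := by
      have : {x : Om | ∀ i, ¬ Pre (w i) x} = ⋂ i, {x | Pre (w i) x}ᶜ := by
        ext x; simp
      rw [this]
      exact isOpen_iInter_of_finite fun i => (pre_isClopen (w i)).compl.isOpen
    filter_upwards [h1.mem_nhds hz] with x hx
    exact Lw_out hw ρ hx

/-- the standard form: permute the cones by `π`, acting by `g i` on the `i`-th cone -/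
noncomputable def W {ι : Type} (w : ι → List Bool) (hw : Dis w) (π : Equiv.Perm ι) (g : ι → Equiv.Perm Om) :
    Equiv.Perm Om := Lw w hw (Equiv.prodShear π g)

theorem W_app {ι : Type} {w : ι → List Bool} (hw : Dis w) (π : Equiv.Perm ι) (g : ι → Equiv.Perm Om) (i : ι)
    (y : Om) : W w hw π g (app (w i) y) = app (w (π i)) (g i y) := Lw_app hw _ i y

theorem W_out {ι : Type} {w : ι → List Bool} (hw : Dis w) (π : Equiv.Perm ι) (g : ι → Equiv.Perm Om) {x : Om}
    (hx : ∀ i, ¬ Pre (w i) x) : W w hw π g x = x := Lw_out hw _ hx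

theorem W_loc {ι : Type} [Finite ι] {w : ι → List Bool} (hw : Dis w) (π : Equiv.Perm ι) {g : ι → Equiv.Perm Om}
    (hg : ∀ i, Loc (g i)) : Loc (W w hw π g) := by
  refine Lw_loc hw _ fun i y => ?_
  obtain ⟨a, b, ha, hab⟩ := hg i y
  refine ⟨a, π i, b, ha, fun x => ?_⟩
  show (π i, g i (app a x)) = _
  rw [hab]

/-- swap of two disjoint cones -/
theorem dis_two {r d : List Bool} (h : ∀ z, Pre r z → ¬ Pre d z) : Dis (fun b : Bool => cond b r d) := by
  intro i j z hi hj
  cases i <;> cases j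
  · rfl
  · exact absurd hi (h z hj)
  · exact absurd hj (h z hi)
  · rfl

theorem exists_swap {r d : List Bool} (h : ∀ z, Pre r z → ¬ Pre d z) :
    ∃ τ : Equiv.Perm Om, Loc τ ∧ (∀ y, τ (app r y) = app d y) ∧ (∀ y, τ (app d y) = app r y) ∧
      (∀ x, ¬ Pre r x → ¬ Pre d x → τ x = x) ∧ τ * τ = 1 := by
  have h1 := fun y => W_app (dis_two h) (Equiv.swap true false) (fun _ => 1) true y
  have h2 := fun y => W_app (dis_two h) (Equiv.swap true false) (fun _ => 1) false y
  simp only [Equiv.swap_apply_left, Equiv.swap_apply_right, cond_true, cond_false, Equiv.Perm.one_apply] at h1 h2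
  have h3 : ∀ x, ¬ Pre r x → ¬ Pre d x →
      W (fun b : Bool => cond b r d) (dis_two h) (Equiv.swap true false) (fun _ => 1) x = x := by
    intro x hr hd
    apply W_out
    intro i
    cases i
    · exact hd
    · exact hr
  refine ⟨W (fun b : Bool => cond b r d) (dis_two h) (Equiv.swap true false) (fun _ => 1),
    W_loc _ _ (fun _ => Loc.one), h1, h2, h3, ?_⟩
  ext1 x
  rw [Equiv.Perm.mul_apply, Equiv.Perm.one_apply]
  by_cases hr : Pre r x
  · obtain ⟨y, rfl⟩ := (pre_iff _ _).1 hr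
    rw [h1, h2]
  · by_cases hd : Pre d x
    · obtain ⟨y, rfl⟩ := (pre_iff _ _).1 hd
      rw [h2, h1]
    · rw [h3 x hr hd, h3 x hr hd]

/-! ### powers and periods along embeddings -/

theorem pow_semiconj {u σ : Equiv.Perm Om} {f : Om → Om} (h : ∀ y, u (f y) = f (σ y)) (n : ℕ) (y : Om) :
    (u ^ n) (f y) = f ((σ ^ n) y) := by
  induction n with
  | zero => simp
  | succ n ih => rw [pow_succ', Equiv.Perm.mul_apply, ih, h, pow_succ', Equiv.Perm.mul_apply]

theorem minPer_semiconj {u σ : Equiv.Perm Om} {f : Om → Om} (hf : Function.Injective f) (h : ∀ y, u (f y) = f (σ y))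
    (y : Om) : minimalPeriod u (f y) = minimalPeriod σ y := by
  rw [minimalPeriod_eq_minimalPeriod_iff]
  intro n
  rw [per_iff, per_iff, pow_semiconj h, hf.eq_iff]

theorem inj_app (u : List Bool) : Function.Injective (app u) := fun _ _ h => app_inj u h

theorem minPer_inv (σ : Equiv.Perm Om) (y : Om) : minimalPeriod (σ⁻¹ : Equiv.Perm Om) y = minimalPeriod σ y := by
  rw [minimalPeriod_eq_minimalPeriod_iff]
  intro n
  rw [per_iff, per_iff, inv_pow, Equiv.Perm.inv_eq_iff_eq]
  exact eq_comm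

/-! ### diagonal elements -/

theorem dis_letters : Dis (fun b : Bool => [b]) := by
  intro i j z hi hj
  rw [pre_cons] at hi hj
  rw [← hi.1, ← hj.1]

/-- act by `σ` behind the letter `false` and by `τ` behind the letter `true` -/
noncomputable def diag (σ τ : Equiv.Perm Om) : Equiv.Perm Om :=
  W (fun b : Bool => [b]) dis_letters 1 (fun b => cond b τ σ)

theorem diag_false (σ τ : Equiv.Perm Om) (y : Om) : diag σ τ (cons false y) = cons false (σ y) := by
  have := W_app dis_letters 1 (fun b => cond b τ σ) false y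
  simp only [Equiv.Perm.one_apply, app_cons, app_nil, cond_false] at this
  exact this

theorem diag_true (σ τ : Equiv.Perm Om) (y : Om) : diag σ τ (cons true y) = cons true (τ y) := by
  have := W_app dis_letters 1 (fun b => cond b τ σ) true y
  simp only [Equiv.Perm.one_apply, app_cons, app_nil, cond_true] at this
  exact this

theorem diag_loc {σ τ : Equiv.Perm Om} (hσ : Loc σ) (hτ : Loc τ) : Loc (diag σ τ) :=
  W_loc _ _ (fun b => by cases b; exacts [hσ, hτ])

theorem inj_cons (b : Bool) : Function.Injective (cons b) := fun _ _ h => (cons_inj h).2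

theorem diag_pow {σ τ : Equiv.Perm Om} {m : ℕ} (hσ : σ ^ m = 1) (hτ : τ ^ m = 1) : diag σ τ ^ m = 1 := by
  ext1 x
  obtain ⟨b, x, rfl⟩ := exists_cons x
  cases b
  · rw [pow_semiconj (f := cons false) (diag_false σ τ), hσ]; rfl
  · rw [pow_semiconj (f := cons true) (diag_true σ τ), hτ]; rfl

/-! ### elements with prescribed periods -/

theorem dis_comb {l : ℕ} [NeZero l] : Dis (fun i : ZMod l => List.replicate i.val true ++ [false]) := by
  have key : ∀ (a b : ℕ) (z : Om), a < b → Pre (List.replicate a true ++ [false]) z →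
      Pre (List.replicate b true ++ [false]) z → False := by
    intro a b z hab ha hb
    have h1 := ha a (by simp)
    have h2 := hb a (by simp; omega)
    rw [h2] at h1
    simp [hab] at h1
  intro i j z hi hj
  apply ZMod.val_injective l
  rcases lt_trichotomy i.val j.val with h | h | h
  · exact (key _ _ z h hi hj).elim
  · exact h
  · exact (key _ _ z h hj hi).elim

/-- an element of order `l` with a point of period `l` -/
theorem exists_cycle (l : ℕ) (hl : 0 < l) : ∃ c : Equiv.Perm Om, Loc c ∧ c ^ l = 1 ∧ ∃ y, minimalPeriod c y = l := by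
  have : NeZero l := ⟨hl.ne'⟩
  let w : ZMod l → List Bool := fun i => List.replicate i.val true ++ [false]
  have hw : Dis w := dis_comb
  let c := W w hw (Equiv.addRight 1) (fun _ => 1)
  have h1 : ∀ i y, c (app (w i) y) = app (w (i + 1)) y := fun i y => W_app hw _ _ i y
  have h2 : ∀ (n : ℕ) i y, (c ^ n) (app (w i) y) = app (w (i + n)) y := by
    intro n
    induction n with
    | zero => intro i y; simp
    | succ n ih =>
      intro i y
      rw [pow_succ', Equiv.Perm.mul_apply, ih, h1]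
      congr 2
      push_cast; ring
  have h3 : c ^ l = 1 := by
    ext1 x
    by_cases hx : ∃ i, Pre (w i) x
    · obtain ⟨i, hi⟩ := hx
      obtain ⟨y, rfl⟩ := (pre_iff _ _).1 hi
      rw [h2]
      simp
    · push Not at hx
      have h4 : c x = x := W_out hw _ _ hx
      have h5 : ∀ n : ℕ, (c ^ n) x = x := by
        intro n
        induction n with
        | zero => rfl
        | succ n ih => rw [pow_succ', Equiv.Perm.mul_apply, ih, h4]
      rw [h5]; rfl
  refine ⟨c, W_loc _ _ (fun _ => Loc.one), h3, app (w 0) (cst false), ?_⟩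
  apply Nat.dvd_antisymm
  · exact IsPeriodicPt.minimalPeriod_dvd ((per_iff _ _).2 (by rw [h3]; rfl))
  · have h4 := (per_iff _ _).1 (isPeriodicPt_minimalPeriod (⇑c) (app (w 0) (cst false)))
    obtain ⟨n, hn⟩ : ∃ n, minimalPeriod (⇑c) (app (w 0) (cst false)) = n := ⟨_, rfl⟩
    rw [hn] at h4 ⊢
    rw [h2, zero_add] at h4
    have h5 : (n : ZMod l) = 0 :=
      hw _ _ (app (w 0) (cst false)) (by rw [← h4]; exact pre_app _ _) (pre_app _ _)
    exact (ZMod.natCast_eq_zero_iff _ _).1 h5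

theorem exists_periods (Q : ℕ) (L : List ℕ) (hL : ∀ l ∈ L, l ∣ Q ∧ 0 < l) :
    ∃ σ : Equiv.Perm Om, Loc σ ∧ σ ^ Q = 1 ∧ ∀ l ∈ L, ∃ y, minimalPeriod σ y = l := by
  induction L with
  | nil => exact ⟨1, Loc.one, one_pow _, fun l hl => absurd hl (by simp)⟩
  | cons a L ih =>
    obtain ⟨σ, h1, h2, h3⟩ := ih (fun l hl => hL l (List.mem_cons_of_mem _ hl))
    obtain ⟨⟨k, hk⟩, h0⟩ := hL a (by simp)
    obtain ⟨c, h4, h5, y, h6⟩ := exists_cycle a h0
    refine ⟨diag c σ, diag_loc h4 h1, diag_pow (by rw [hk, pow_mul, h5, one_pow]) h2, ?_⟩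
    intro l hl
    rcases List.mem_cons.1 hl with rfl | hl
    · exact ⟨cons false y, by rw [minPer_semiconj (inj_cons false) (diag_false c σ), h6]⟩
    · obtain ⟨y', hy'⟩ := h3 l hl
      exact ⟨cons true y', by rw [minPer_semiconj (inj_cons true) (diag_true c σ), hy']⟩

/-- for every `Q > 0` there is an element of `V` of exponent `Q` realising all divisors of `Q` as orbit sizes -/
theorem exists_universal (Q : ℕ) (hQ : 0 < Q) :
    ∃ σ : Equiv.Perm Om, Loc σ ∧ σ ^ Q = 1 ∧ ∀ l, l ∣ Q → ∃ y, minimalPeriod σ y = l := by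
  obtain ⟨σ, h1, h2, h3⟩ := exists_periods Q Q.divisors.toList (fun l hl => by
    rw [Finset.mem_toList, Nat.mem_divisors] at hl
    exact ⟨hl.1, Nat.pos_of_dvd_of_pos hl.1 hQ⟩)
  refine ⟨σ, h1, h2, fun l hl => h3 l ?_⟩
  rw [Finset.mem_toList, Nat.mem_divisors]
  exact ⟨hl, hQ.ne'⟩

/-! ### elements of finite order are commutators -/

theorem tor_commutator {v : Equiv.Perm Om} (hv : Loc v) {m : ℕ} (hm : 0 < m) (hvm : v ^ m = 1) :
    ∃ a b : Equiv.Perm Om, Loc a ∧ Loc b ∧ v = a * b * a⁻¹ * b⁻¹ := by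
  have hdis : ∀ z : Om, Pre [false] z → ¬ Pre [true] z := by
    intro z h1 h2
    rw [pre_cons] at h1 h2
    rw [h1.1] at h2
    exact absurd h2.1 (by simp)
  obtain ⟨τ, hτ, hτ1, hτ2, -, hττ⟩ := exists_swap hdis
  simp only [app_cons, app_nil] at hτ1 hτ2
  have hvi : v⁻¹ ^ m = 1 := by rw [inv_pow, hvm, inv_one]
  obtain ⟨y, hy, hyv⟩ := conj_of_periods hv (diag_loc hv (Loc.inv hv)) hm hvm (diag_pow hvm hvi) (by
    intro l
    constructor
    · rintro ⟨x, hx⟩
      exact ⟨cons false x, by rw [minPer_semiconj (inj_cons false) (diag_false v v⁻¹), hx]⟩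
    · rintro ⟨x, hx⟩
      obtain ⟨b, x, rfl⟩ := exists_cons x
      cases b
      · rw [minPer_semiconj (inj_cons false) (diag_false v v⁻¹)] at hx
        exact ⟨x, hx⟩
      · rw [minPer_semiconj (inj_cons true) (diag_true v v⁻¹), minPer_inv] at hx
        exact ⟨x, hx⟩)
  have hτi : τ⁻¹ = τ := inv_eq_of_mul_eq_one_left hττ
  have hdi : ∀ x, (diag v 1)⁻¹ x = diag v⁻¹ 1 x := by
    intro x
    rw [Equiv.Perm.inv_eq_iff_eq]
    obtain ⟨b, x, rfl⟩ := exists_cons x
    cases b
    · rw [diag_false, diag_false]; simp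
    · rw [diag_true, diag_true]; simp
  have hcomm : diag v v⁻¹ = diag v 1 * τ * (diag v 1)⁻¹ * τ⁻¹ := by
    ext1 x
    rw [hτi]
    simp only [Equiv.Perm.mul_apply]
    rw [hdi]
    obtain ⟨b, x, rfl⟩ := exists_cons x
    cases b
    · rw [hτ1, diag_true, diag_false, Equiv.Perm.one_apply, hτ2, diag_false]
    · rw [hτ2, diag_false, diag_true, hτ1, diag_true, Equiv.Perm.one_apply]
  have hveq : v = y⁻¹ * diag v v⁻¹ * y := by
    rw [mul_assoc, ← hyv]; group
  refine ⟨y⁻¹ * diag v 1 * y, y⁻¹ * τ * y, Loc.mul (Loc.mul (Loc.inv hy) (diag_loc hv Loc.one)) hy,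
    Loc.mul (Loc.mul (Loc.inv hy) hτ) hy, ?_⟩
  conv_lhs => rw [hveq, hcomm]
  group

end Pool.Agent.Thompson.VC
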