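import Pool.Agent.ThompsonV.Basic

set_option autoImplicit false

/-!
# Locally affine maps of the Cantor space
-/

namespace Pool.Agent.Thompson.VC

open Set Filter Topology
open Pool.Agent.ThompsonV

/-- `f` is locally a prefix replacement near `w`. -/
def LA (f : Om → Om) (w : Om) : Prop := ∃ u v : List Bool, Pre u w ∧ ∀ x, f (app u x) = app v x

theorem ev_iff {w : Om} {P : Om → Prop} :
    (∀ᶠ x in 𝓝 w, P x) ↔ ∃ n, ∀ x : Om, (∀ i < n, x i = w i) → P x := by
  have hb := PiNat.isTopologicalBasis_cylinders (fun _ : ℕ => Bool)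
  constructor
  · intro h
    obtain ⟨t, ⟨y, n, rfl⟩, h1, h2⟩ := hb.mem_nhds_iff.1 h
    refine ⟨n, fun x hx => h2 ?_⟩
    rw [PiNat.mem_cylinder_iff] at *
    intro i hi
    rw [hx i hi, h1 i hi]
  · rintro ⟨n, hn⟩
    refine hb.mem_nhds_iff.2 ⟨PiNat.cylinder w n, ⟨w, n, rfl⟩, PiNat.self_mem_cylinder _ _, ?_⟩
    intro x hx
    exact hn x (PiNat.mem_cylinder_iff.1 hx)

theorem app_lt {u : List Bool} {x : Om} {i : ℕ} (h : i < u.length) : app u x i = u.get ⟨i, h⟩ := by
  simp [app, h]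

theorem app_ge {u : List Bool} {x : Om} (i : ℕ) : app u x (u.length + i) = x i := by
  simp [app]

theorem app_agree {u : List Bool} {x y : Om} {i : ℕ} (h : i < u.length) : app u x i = app u y i := by
  rw [app_lt h, app_lt h]

/-- refinement of a local prefix replacement to long prefixes -/
theorem LA.refine {f : Om → Om} {w : Om} (h : LA f w) (n : ℕ) :
    ∃ u v : List Bool, ∃ w', n ≤ u.length ∧ w = app u w' ∧ ∀ x, f (app u x) = app v x := by
  obtain ⟨u, v, hu, hf⟩ := h
  obtain ⟨w', rfl⟩ := (pre_iff _ _).1 hu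
  obtain ⟨s, w'', rfl, hs⟩ := exists_long w' n
  refine ⟨u ++ s, v ++ s, w'', by simp [hs], by rw [app_append], fun x => ?_⟩
  rw [app_append, hf, app_append]

theorem LA.congr {f g : Om → Om} {w : Om} (h : LA f w) (hg : ∀ᶠ x in 𝓝 w, g x = f x) : LA g w := by
  obtain ⟨n, hn⟩ := ev_iff.1 hg
  obtain ⟨u, v, w', hl, rfl, hf⟩ := h.refine n
  refine ⟨u, v, (pre_iff _ _).2 ⟨w', rfl⟩, fun x => ?_⟩
  rw [hn (app u x) (fun i hi => app_agree (hi.trans_le hl)), hf]

theorem LA.ev {f : Om → Om} {w : Om} (h : LA f w) : ∀ᶠ x in 𝓝 w, LA f x := by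
  obtain ⟨u, v, hu, hf⟩ := h
  exact ev_iff.2 ⟨u.length, fun x hx => ⟨u, v, fun i hi => by rw [hx i hi, hu i hi], hf⟩⟩

theorem LA.cont {f : Om → Om} {w : Om} (h : LA f w) : ContinuousAt f w := by
  obtain ⟨u, v, hu, hf⟩ := h
  obtain ⟨w', rfl⟩ := (pre_iff _ _).1 hu
  intro s hs
  obtain ⟨n, hn⟩ := ev_iff.1 (show ∀ᶠ x in 𝓝 (f (app u w')), x ∈ s from hs)
  refine ev_iff.2 ⟨u.length + n, fun x hx => ?_⟩
  have hx1 : Pre u x := fun i hi => by rw [hx i (by omega), app_lt hi]
  obtain ⟨x', rfl⟩ := (pre_iff _ _).1 hx1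
  apply hn
  intro i hi
  rw [hf, hf]
  by_cases h1 : i < v.length
  · exact app_agree h1
  · obtain ⟨j, rfl⟩ := Nat.exists_eq_add_of_le (not_lt.1 h1)
    rw [app_ge, app_ge]
    have := hx (u.length + j) (by omega)
    rwa [app_ge, app_ge] at this

theorem LA.id (w : Om) : LA (fun x => x) w := ⟨[], [], pre_nil w, fun _ => rfl⟩

theorem LA.comp {f g : Om → Om} {w : Om} (hf : LA f (g w)) (hg : LA g w) : LA (fun x => f (g x)) w := by
  obtain ⟨p, p', hp, hp'⟩ := hg
  obtain ⟨w', rfl⟩ := (pre_iff _ _).1 hp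
  obtain ⟨r, r', hr, hr'⟩ := hf
  rw [hp'] at hr
  obtain ⟨s, w'', rfl, hs⟩ := exists_long w' r.length
  rw [← app_append] at hr
  obtain ⟨t, ht⟩ := pre_split r (p' ++ s) w'' hr (by simp [hs])
  refine ⟨p ++ s, r' ++ t, ?_, ?_⟩
  · rw [pre_iff]; exact ⟨w'', by rw [app_append]⟩
  · intro x
    show f (g (ThompsonV.app (p ++ s) x)) = _
    rw [app_append, hp', ← app_append, ht, app_append, hr', app_append]

theorem LA.symm {f g : Om → Om} {w : Om} (hf : LA f w) (hg : ∀ᶠ x in 𝓝 w, g (f x) = x) : LA g (f w) := by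
  obtain ⟨n, hn⟩ := ev_iff.1 hg
  obtain ⟨u, v, w', hl, rfl, hf2⟩ := hf.refine n
  refine ⟨v, u, (pre_iff _ _).2 ⟨w', hf2 w'⟩, fun x => ?_⟩
  rw [← hf2]
  exact hn _ (fun i hi => app_agree (hi.trans_le hl))

theorem LA.app (u : List Bool) (w : Om) : LA (app u) w := ⟨[], u, pre_nil w, fun _ => rfl⟩

/-- remove the first `n` letters -/
def drp (n : ℕ) (x : Om) : Om := fun i => x (n + i)

@[simp] theorem drp_app (u : List Bool) (x : Om) : drp u.length (ThompsonV.app u x) = x := by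
  funext i; exact app_ge i

theorem app_drp {u : List Bool} {x : Om} (h : Pre u x) : ThompsonV.app u (drp u.length x) = x := by
  obtain ⟨w', rfl⟩ := (pre_iff _ _).1 h
  rw [drp_app]

theorem LA.drp (n : ℕ) (w : Om) : LA (drp n) w := by
  obtain ⟨s, w', rfl, hs⟩ := exists_long w n
  subst hs
  exact ⟨s, [], (pre_iff _ _).2 ⟨w', rfl⟩, fun x => by rw [drp_app, app_nil]⟩

theorem Loc.la {σ : Equiv.Perm Om} (h : Loc σ) (w : Om) : LA σ w := h w

theorem Loc.la_inv {σ : Equiv.Perm Om} (h : Loc σ) (w : Om) : LA (σ⁻¹ : Equiv.Perm Om) w := Loc.inv h w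

theorem Loc.pow {σ : Equiv.Perm Om} (h : Loc σ) (n : ℕ) : Loc (σ ^ n) := by
  induction n with
  | zero => rw [pow_zero]; exact Loc.one
  | succ n ih => rw [pow_succ]; exact Loc.mul ih h

theorem Loc.continuous {σ : Equiv.Perm Om} (h : Loc σ) : Continuous σ :=
  continuous_iff_continuousAt.2 fun w => LA.cont (h w)

theorem pre_isClopen (u : List Bool) : IsClopen {x : Om | Pre u x} := by
  refine ⟨?_, isOpen_pre u⟩
  have h : {x : Om | Pre u x} = ⋂ i : ℕ, ⋂ h : i < u.length, {x : Om | x i = u.get ⟨i, h⟩} := by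
    ext x; simp [Pre]
  rw [h]
  exact isClosed_iInter fun i => isClosed_iInter fun h => isClosed_eq (continuous_apply i) continuous_const

/-- a clopen set depends on finitely many letters only -/
theorem clopen_level {A : Set Om} (hA : IsClopen A) : ∃ N, ∀ x y : Om, (∀ i < N, x i = y i) → (x ∈ A ↔ y ∈ A) := by
  have h : ∀ w : Om, ∃ n, ∀ x y : Om, (∀ i < n, x i = w i) → (∀ i < n, y i = w i) → (x ∈ A ↔ y ∈ A) := by
    intro w
    by_cases hw : w ∈ A
    · obtain ⟨n, hn⟩ := ev_iff.1 (show ∀ᶠ x in 𝓝 w, x ∈ A from hA.isOpen.mem_nhds hw)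
      exact ⟨n, fun x y hx hy => iff_of_true (hn x hx) (hn y hy)⟩
    · obtain ⟨n, hn⟩ := ev_iff.1 (show ∀ᶠ x in 𝓝 w, x ∈ Aᶜ from hA.compl.isOpen.mem_nhds hw)
      exact ⟨n, fun x y hx hy => iff_of_false (hn x hx) (hn y hy)⟩
  choose n hn using h
  obtain ⟨t, ht⟩ := (isCompact_univ : IsCompact (Set.univ : Set Om)).elim_nhds_subcover
    (fun w => {x : Om | ∀ i < n w, x i = w i}) (fun w _ => ev_iff.2 ⟨n w, fun x hx => hx⟩)
  refine ⟨t.sup n, fun x y hxy => ?_⟩
  obtain ⟨w, hw, hx⟩ := Set.mem_iUnion₂.1 (ht.2 (Set.mem_univ x))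
  have hle : n w ≤ t.sup n := Finset.le_sup hw
  exact hn w x y hx (fun i hi => by rw [← hxy i (by omega), hx i hi])

/-- uniform level of a locally affine map -/
theorem LA.level {f : Om → Om} (hf : ∀ w, LA f w) :
    ∃ N, ∀ u : List Bool, N ≤ u.length → ∃ v, ∀ x, f (ThompsonV.app u x) = ThompsonV.app v x := by
  choose u v hu hf using hf
  obtain ⟨t, ht⟩ := (isCompact_univ : IsCompact (Set.univ : Set Om)).elim_nhds_subcover
    (fun w => {x : Om | Pre (u w) x}) (fun w _ => (isOpen_pre (u w)).mem_nhds (hu w))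
  refine ⟨t.sup fun w => (u w).length, fun a ha => ?_⟩
  obtain ⟨w, hw, hx⟩ := Set.mem_iUnion₂.1 (ht.2 (Set.mem_univ (ThompsonV.app a (cst false))))
  have hle : (u w).length ≤ t.sup fun w => (u w).length := Finset.le_sup (f := fun w => (u w).length) hw
  obtain ⟨s, hs⟩ := pre_split (u w) a _ hx (by omega)
  refine ⟨v w ++ s, fun x => ?_⟩
  rw [hs, app_append, hf, app_append]

/-! ### Standard embeddings: all nonempty clopen sets look alike -/

/-- `A` is the image of `Om` under a locally affine embedding. -/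
def Emb (A : Set Om) : Prop := ∃ f g : Om → Om, (∀ y, LA f y ∧ f y ∈ A ∧ g (f y) = y) ∧ (∀ x ∈ A, LA g x ∧ f (g x) = x)

theorem LA.cons (b : Bool) (w : Om) : LA (cons b) w :=
  ⟨[], [b], pre_nil w, fun x => by simp⟩

theorem LA.tl (w : Om) : LA tl w := by
  obtain ⟨b, w', rfl⟩ := exists_cons w
  exact ⟨[b], [], (pre_iff _ _).2 ⟨w', by simp⟩, fun x => by simp⟩

theorem ev_head (w : Om) : ∀ᶠ x in 𝓝 w, x 0 = w 0 := ev_iff.2 ⟨1, fun x hx => hx 0 (by omega)⟩

theorem ev_head' {w : Om} {b : Bool} (h : w 0 = b) : ∀ᶠ x in 𝓝 w, x 0 = b := by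
  subst h; exact ev_head w

theorem emb_of_level (N : ℕ) : ∀ A : Set Om, A.Nonempty → (∀ x y : Om, (∀ i < N, x i = y i) → (x ∈ A ↔ y ∈ A)) → Emb A := by
  induction N with
  | zero =>
    rintro A ⟨a, ha⟩ h
    have hA : ∀ x, x ∈ A := fun x => (h x a (fun i hi => absurd hi (by omega))).2 ha
    exact ⟨fun x => x, fun x => x, fun y => ⟨LA.id y, hA y, rfl⟩, fun x _ => ⟨LA.id x, rfl⟩⟩
  | succ N ih =>
    rintro A ⟨a, ha⟩ h
    have hB : ∀ b : Bool, {x | cons b x ∈ A}.Nonempty → Emb {x | cons b x ∈ A} := by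
      intro b hb
      refine ih _ hb fun x y hxy => ?_
      refine h _ _ fun i hi => ?_
      cases i with
      | zero => rfl
      | succ i => exact hxy i (by omega)
    by_cases hne : ∀ b : Bool, {x | cons b x ∈ A}.Nonempty
    · choose f g hf hg using fun b => hB b (hne b)
      refine ⟨fun x => cons (x 0) (f (x 0) (tl x)), fun x => cons (x 0) (g (x 0) (tl x)), fun y => ?_, fun x hx => ?_⟩
      · obtain ⟨b, y, rfl⟩ := exists_cons y
        refine ⟨?_, (hf b y).2.1, ?_⟩
        · refine LA.congr (f := fun x => cons b (f b (tl x))) ((LA.cons b _).comp (LA.comp (f := f b) ?_ (LA.tl _))) ?_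
          · exact (hf b y).1
          · filter_upwards [ev_head (cons b y)] with x hx
            rw [hx]; rfl
        · simp only [cons_zero, tl_cons, (hf b y).2.2]
      · obtain ⟨b, x, rfl⟩ := exists_cons x
        refine ⟨?_, ?_⟩
        · refine LA.congr (f := fun x => cons b (g b (tl x))) ((LA.cons b _).comp (LA.comp (f := g b) ?_ (LA.tl _))) ?_
          · exact (hg b x hx).1
          · filter_upwards [ev_head (cons b x)] with z hz
            rw [hz]; rfl
        · simp only [cons_zero, tl_cons, (hg b x hx).2]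
    · push Not at hne
      obtain ⟨b, hb⟩ := hne
      have hb' : ∀ x, cons b x ∉ A := fun x hx => by
        have : x ∈ {x | cons b x ∈ A} := hx
        rw [hb] at this
        exact this
      have hne' : {x | cons (!b) x ∈ A}.Nonempty := by
        obtain ⟨c, a, rfl⟩ := exists_cons a
        have hcb : c = !b := by
          by_contra hc
          have : c = b := by cases c <;> cases b <;> simp_all
          rw [this] at ha
          exact hb' _ ha
        subst hcb
        exact ⟨a, ha⟩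
      obtain ⟨f, g, hf, hg⟩ := hB _ hne'
      refine ⟨fun x => cons (!b) (f x), fun x => g (tl x), fun y => ⟨(LA.cons _ _).comp (hf y).1, (hf y).2.1, ?_⟩, ?_⟩
      · simp only [tl_cons, (hf y).2.2]
      · intro x hx
        obtain ⟨c, x, rfl⟩ := exists_cons x
        have hcb : c = !b := by
          by_contra hc
          have : c = b := by cases c <;> cases b <;> simp_all
          rw [this] at hx
          exact hb' _ hx
        subst hcb
        refine ⟨LA.comp (f := g) ?_ (LA.tl _), ?_⟩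
        · exact (hg x hx).1
        · simp only [tl_cons, (hg x hx).2]

theorem emb_of_clopen {A : Set Om} (hA : IsClopen A) (hne : A.Nonempty) : Emb A := by
  obtain ⟨N, hN⟩ := clopen_level hA
  exact emb_of_level N A hne hN

/-- any two nonempty clopen sets are equivalent -/
theorem exists_bij {A B : Set Om} (hA : IsClopen A) (hB : IsClopen B) (h : A.Nonempty ↔ B.Nonempty) :
    ∃ f g : Om → Om, (∀ x ∈ A, LA f x ∧ f x ∈ B ∧ g (f x) = x) ∧ (∀ x ∈ B, LA g x ∧ g x ∈ A ∧ f (g x) = x) := by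
  by_cases hne : A.Nonempty
  · obtain ⟨f, g, hf, hg⟩ := emb_of_clopen hA hne
    obtain ⟨f', g', hf', hg'⟩ := emb_of_clopen hB (h.1 hne)
    refine ⟨fun x => f' (g x), fun x => f (g' x), fun x hx => ⟨?_, (hf' _).2.1, ?_⟩, fun x hx => ⟨?_, (hf _).2.1, ?_⟩⟩
    · exact (hf' _).1.comp (hg x hx).1
    · simp only [(hf' _).2.2, (hg x hx).2]
    · exact (hf _).1.comp (hg' x hx).1
    · simp only [(hf _).2.2, (hg' x hx).2]
  · have hne' : ¬ B.Nonempty := fun h' => hne (h.2 h')
    exact ⟨fun x => x, fun x => x, fun x hx => absurd ⟨x, hx⟩ hne, fun x hx => absurd ⟨x, hx⟩ hne'⟩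

end Pool.Agent.Thompson.VC
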