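import Pool.Agent.Thompson.VLift

set_option autoImplicit false

/-!
# Every element of V is a product of two elements of finite order
-/

namespace Pool.Agent.Thompson.VC

open Set Filter Topology Function
open Pool.Agent.ThompsonV

/-- suspension of an element of finite order: bounded returns -/
theorem susp_return {b τ : Equiv.Perm Om} {r d : Set Om} (hb : ∀ x ∈ d, b x = x)
    (hτ1 : ∀ x ∈ r, τ x ∈ d) (hτ3 : ∀ x, x ∉ r → x ∉ d → τ x = x)
    (hττ : ∀ x, τ (τ x) = x) (n : ℕ) (x : Om) (hx : x ∉ d) :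
    ∃ k, n ≤ k ∧ k ≤ 2 * n ∧ ((b * τ) ^ k) x = (b ^ n) x ∧ (b ^ n) x ∉ d := by
  induction n with
  | zero => exact ⟨0, le_rfl, le_rfl, rfl, hx⟩
  | succ n ih =>
    obtain ⟨k, hk1, hk2, hk3, hk4⟩ := ih
    have hnd : (b ^ (n + 1)) x ∉ d := by
      rw [pow_succ', Equiv.Perm.mul_apply]
      intro h
      have h1 := hb _ h
      have h2 := b.injective h1
      rw [h2] at h
      exact hk4 h
    by_cases hr : (b ^ n) x ∈ r
    · refine ⟨k + 2, by omega, by omega, ?_, hnd⟩
      have h1 : ((b * τ) ^ (k + 1)) x = τ ((b ^ n) x) := by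
        rw [pow_succ', Equiv.Perm.mul_apply (b * τ), hk3, Equiv.Perm.mul_apply, hb _ (hτ1 _ hr)]
      rw [pow_succ' (b * τ) (k + 1), Equiv.Perm.mul_apply (b * τ), h1, Equiv.Perm.mul_apply, hττ, pow_succ',
        Equiv.Perm.mul_apply]
    · refine ⟨k + 1, by omega, by omega, ?_, hnd⟩
      rw [pow_succ', Equiv.Perm.mul_apply, hk3, Equiv.Perm.mul_apply, hτ3 _ hr hk4, pow_succ', Equiv.Perm.mul_apply]

theorem susp_bdd {b τ : Equiv.Perm Om} {r d : Set Om} (hrd : ∀ x ∈ r, x ∉ d) (hb : ∀ x ∈ d, b x = x)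
    (hτ1 : ∀ x ∈ r, τ x ∈ d) (hτ2 : ∀ x ∈ d, τ x ∈ r) (hτ3 : ∀ x, x ∉ r → x ∉ d → τ x = x)
    (hττ : ∀ x, τ (τ x) = x) {m : ℕ} (hm : 0 < m) (hbm : b ^ m = 1) (x : Om) :
    ∃ k, 0 < k ∧ k ≤ 2 * m ∧ ((b * τ) ^ k) x = x := by
  by_cases hx : x ∈ d
  · have hy : τ x ∉ d := hrd _ (hτ2 x hx)
    obtain ⟨k, hk1, hk2, hk3, -⟩ := susp_return hb hτ1 hτ3 hττ m (τ x) hy
    refine ⟨k, by omega, hk2, ?_⟩
    rw [hbm, Equiv.Perm.one_apply] at hk3
    have h1 : (b * τ) (τ x) = x := by rw [Equiv.Perm.mul_apply, hττ, hb x hx]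
    have h2 : ((b * τ) ^ k) ((b * τ) (τ x)) = (b * τ) (((b * τ) ^ k) (τ x)) :=
      congrArg (fun f : Equiv.Perm Om => f (τ x)) ((Commute.refl (b * τ)).pow_left k).eq
    rw [hk3, h1] at h2
    exact h2
  · obtain ⟨k, hk1, hk2, hk3, -⟩ := susp_return hb hτ1 hτ3 hττ m x hx
    refine ⟨k, by omega, hk2, ?_⟩
    rw [hk3, hbm]; rfl

theorem pow_of_bdd {g : Equiv.Perm Om} {K : ℕ} (h : ∀ x, ∃ k, 0 < k ∧ k ≤ K ∧ (g ^ k) x = x) : g ^ K.factorial = 1 := by
  ext1 x
  obtain ⟨k, h1, h2, h3⟩ := h x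
  obtain ⟨j, hj⟩ := Nat.dvd_factorial h1 h2
  rw [hj, pow_mul]
  have : ∀ j : ℕ, ((g ^ k) ^ j) x = x := by
    intro j
    induction j with
    | zero => rfl
    | succ j ih => rw [pow_succ', Equiv.Perm.mul_apply, ih, h3]
  rw [this]; rfl

/-- finite order -/
def Tor (g : Equiv.Perm Om) : Prop := ∃ m, 0 < m ∧ g ^ m = 1

theorem tor_of_bdd {g : Equiv.Perm Om} {K : ℕ} (h : ∀ x, ∃ k, 0 < k ∧ k ≤ K ∧ (g ^ k) x = x) : Tor g :=
  ⟨_, Nat.factorial_pos K, pow_of_bdd h⟩

theorem pre_append {u c : List Bool} {x : Om} : Pre (u ++ c) (app u x) ↔ Pre c x := by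
  constructor
  · intro h
    obtain ⟨w, hw⟩ := (pre_iff _ _).1 h
    rw [app_append] at hw
    rw [app_inj u hw]
    exact pre_app _ _
  · intro h
    obtain ⟨w, rfl⟩ := (pre_iff _ _).1 h
    rw [← app_append]
    exact pre_app _ _

theorem pre_of_pre_append {u c : List Bool} {x : Om} (h : Pre (u ++ c) x) : Pre u x := by
  obtain ⟨w, rfl⟩ := (pre_iff _ _).1 h
  rw [app_append]
  exact pre_app _ _

theorem pre_comparable {u v : List Bool} {x : Om} (hu : Pre u x) (hv : Pre v x) :
    (∃ c, v = u ++ c) ∨ (∃ c, u = v ++ c) := by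
  obtain ⟨w, rfl⟩ := (pre_iff _ _).1 hu
  obtain ⟨w', hw'⟩ := (pre_iff _ _).1 hv
  rcases le_total u.length v.length with h | h
  · left
    rw [hw'] at hu
    exact pre_split u v w' hu h
  · right
    exact pre_split v u w hv h

theorem pre_cst {c : List Bool} (h0 : Pre c (cst false)) (h1 : Pre c (cst true)) : c = [] := by
  cases c with
  | nil => rfl
  | cons b c =>
    rw [pre_cons] at h0 h1
    have := h0.1
    rw [← h1.1] at this
    exact absurd this (by simp)

theorem ne_subtype_card {ι : Type} [Fintype ι] [DecidableEq ι] {n : ℕ} (h : Fintype.card ι = n + 1) (i : ι) :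
    Fintype.card {j : ι // j ≠ i} = n := by
  rw [Fintype.card_subtype_compl (fun j => j = i), Fintype.card_subtype_eq, h]
  rfl

theorem torsion_matching : ∀ n : ℕ, ∀ (ι κ : Type) [Fintype ι] [Fintype κ], Fintype.card ι = n → Fintype.card κ = n →
    ∀ (R : ι → List Bool) (T : κ → List Bool) (X : Set Om), Dis R → Dis T → (∀ x, x ∈ X ↔ ∃ i, Pre (R i) x) →
      (∀ x, x ∈ X ↔ ∃ k, Pre (T k) x) →
    ∃ β : Equiv.Perm Om, Loc β ∧ Tor β ∧ (∀ x, x ∉ X → β x = x) ∧
      ∃ e : ι ≃ κ, ∀ i y, β (app (R i) y) = app (T (e i)) y := by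
  intro n
  induction n with
  | zero =>
    intro ι κ _ _ hι hκ R T X _ _ _ _
    have h1 : IsEmpty ι := Fintype.card_eq_zero_iff.1 hι
    have h2 : IsEmpty κ := Fintype.card_eq_zero_iff.1 hκ
    exact ⟨1, Loc.one, ⟨1, one_pos, one_pow _⟩, fun x _ => rfl, Equiv.equivOfIsEmpty ι κ, fun i => h1.elim i⟩
  | succ n ih =>
    intro ι κ _ _ hι hκ R T X hR hT hRX hTX
    classical
    -- choose a leaf of `T` which is not strictly below a leaf of `R`
    obtain ⟨k0, hk0⟩ : ∃ k0, ∀ i c, T k0 = R i ++ c → c = [] := by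
      by_contra hcon
      push Not at hcon
      have hφ : ∀ p : ι × Bool, ∃ k c, T k = R p.1 ++ c ∧ c ≠ [] ∧ Pre c (cst p.2) := by
        rintro ⟨i, b⟩
        obtain ⟨k, hk⟩ := (hTX _).1 ((hRX (app (R i) (cst b))).2 ⟨i, pre_app _ _⟩)
        obtain ⟨i', c, hc, hc'⟩ := hcon k
        rw [hc] at hk
        have hii : i' = i := hR i' i _ (pre_of_pre_append hk) (pre_app _ _)
        subst hii
        exact ⟨k, c, hc, hc', pre_append.1 hk⟩
      choose φ c hφ1 hφ2 hφ3 using hφ
      have hinj : Function.Injective φ := by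
        rintro ⟨i, b⟩ ⟨i', b'⟩ h
        have h1 := hφ1 (i, b)
        have h1' := hφ1 (i', b')
        rw [h, h1'] at h1
        have h2 : i' = i := by
          refine hR i' i (app (R i' ++ c (i', b')) (cst false)) (pre_of_pre_append (pre_app _ _)) ?_
          have h1 : R i' ++ c (i', b') = R i ++ c (i, b) := h1
          rw [h1]
          exact pre_of_pre_append (pre_app _ _)
        subst h2
        have h3 : c (i', b') = c (i', b) := List.append_cancel_left h1
        have h4 := hφ3 (i', b)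
        have h5 := hφ3 (i', b')
        rw [h3] at h5
        obtain ⟨a, c', hc'⟩ := List.exists_cons_of_ne_nil (hφ2 (i', b))
        rw [hc', pre_cons] at h4 h5
        have h6 := h4.1
        rw [← h5.1] at h6
        simp only [cst_apply] at h6
        rw [h6]
      have h1 := Fintype.card_le_of_injective φ hinj
      rw [Fintype.card_prod, hι, hκ, Fintype.card_bool] at h1
      omega
    by_cases hi0 : ∃ i0, ∀ a, R i0 ≠ T k0 ++ a
    · obtain ⟨i0, hi0⟩ := hi0
      have hcmp : ∀ i z, Pre (R i) z → Pre (T k0) z → ∃ a, R i = T k0 ++ a := by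
        intro i z h1 h2
        rcases pre_comparable h1 h2 with ⟨c, hc⟩ | h
        · have := hk0 i c hc
          subst this
          exact ⟨[], by rw [hc]; simp⟩
        · exact h
      have hinc : ∀ z, Pre (R i0) z → ¬ Pre (T k0) z := by
        intro z h1 h2
        obtain ⟨a, ha⟩ := hcmp i0 z h1 h2
        exact hi0 a ha
      obtain ⟨τ, hτ, hτ1, hτ2, hτ3, hττ⟩ := exists_swap hinc
      -- the new data
      have hRd : ∀ i : {i : ι // i ≠ i0}, ∃ w : List Bool, (∃ a, R i = T k0 ++ a ∧ w = R i0 ++ a) ∨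
          ((∀ a, R i ≠ T k0 ++ a) ∧ w = R i) := by
        intro i
        by_cases h : ∃ a, R i = T k0 ++ a
        · obtain ⟨a, ha⟩ := h
          exact ⟨_, Or.inl ⟨a, ha, rfl⟩⟩
        · push Not at h
          exact ⟨_, Or.inr ⟨h, rfl⟩⟩
      choose R' hR' using hRd
      have hX1 : ∀ x, x ∈ X \ {x | Pre (T k0) x} ↔ ∃ i, Pre (R' i) x := by
        intro x
        constructor
        · rintro ⟨hx1, hx2⟩
          have hx2 : ¬ Pre (T k0) x := hx2
          obtain ⟨i, hi⟩ := (hRX x).1 hx1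
          by_cases hii : i = i0
          · subst hii
            obtain ⟨y, rfl⟩ := (pre_iff _ _).1 hi
            obtain ⟨j, hj⟩ := (hRX (app (T k0) y)).1 ((hTX _).2 ⟨k0, pre_app _ _⟩)
            obtain ⟨a, ha⟩ := hcmp j _ hj (pre_app _ _)
            have hji : j ≠ i := by rintro rfl; exact hi0 a ha
            refine ⟨⟨j, hji⟩, ?_⟩
            rcases hR' ⟨j, hji⟩ with ⟨a', ha', hw⟩ | ⟨h, -⟩
            · rw [hw]
              rw [pre_append]
              rw [ha'] at hj
              exact pre_append.1 hj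
            · exact absurd ha (h a)
          · refine ⟨⟨i, hii⟩, ?_⟩
            rcases hR' ⟨i, hii⟩ with ⟨a', ha', hw⟩ | ⟨h, hw⟩
            · exfalso
              apply hx2
              have ha' : R i = T k0 ++ a' := ha'
              rw [ha'] at hi
              exact pre_of_pre_append hi
            · rw [hw]; exact hi
        · rintro ⟨⟨i, hii⟩, hi⟩
          rcases hR' ⟨i, hii⟩ with ⟨a', ha', hw⟩ | ⟨h, hw⟩
          · rw [hw] at hi
            have h1 := pre_of_pre_append hi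
            exact ⟨(hRX x).2 ⟨i0, h1⟩, hinc x h1⟩
          · rw [hw] at hi
            refine ⟨(hRX x).2 ⟨i, hi⟩, fun h2 => ?_⟩
            obtain ⟨a, ha⟩ := hcmp i x hi h2
            exact h a ha
      have hX2 : ∀ x, x ∈ X \ {x | Pre (T k0) x} ↔ ∃ k : {k : κ // k ≠ k0}, Pre (T k) x := by
        intro x
        constructor
        · rintro ⟨hx1, hx2⟩
          obtain ⟨k, hk⟩ := (hTX x).1 hx1
          exact ⟨⟨k, by rintro rfl; exact hx2 hk⟩, hk⟩
        · rintro ⟨⟨k, hkk⟩, hk⟩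
          exact ⟨(hTX x).2 ⟨k, hk⟩, fun h2 => hkk (hT k k0 x hk h2)⟩
      have hR'dis : Dis R' := by
        rintro ⟨i, hi⟩ ⟨j, hj⟩ z h1 h2
        rcases hR' ⟨i, hi⟩ with ⟨a, ha, hw⟩ | ⟨h, hw⟩ <;> rcases hR' ⟨j, hj⟩ with ⟨a', ha', hw'⟩ | ⟨h', hw'⟩
        · rw [hw] at h1
          rw [hw'] at h2
          obtain ⟨y, rfl⟩ := (pre_iff _ _).1 (pre_of_pre_append h1)
          rw [pre_append] at h1 h2
          apply Subtype.ext
          refine hR i j (app (T k0) y) ?_ ?_
          · have ha : R i = T k0 ++ a := ha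
            rw [ha, pre_append]; exact h1
          · have ha' : R j = T k0 ++ a' := ha'
            rw [ha', pre_append]; exact h2
        · rw [hw] at h1
          rw [hw'] at h2
          exact absurd (hR i0 j z (pre_of_pre_append h1) h2).symm hj
        · rw [hw] at h1
          rw [hw'] at h2
          exact absurd (hR i0 i z (pre_of_pre_append h2) h1).symm hi
        · rw [hw] at h1
          rw [hw'] at h2
          exact Subtype.ext (hR i j z h1 h2)
      obtain ⟨β, hβ, ⟨m, hm, hβm⟩, hβ3, e, he⟩ := ih {i : ι // i ≠ i0} {k : κ // k ≠ k0} (ne_subtype_card hι i0)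
        (ne_subtype_card hκ k0) R' (fun k => T k) (X \ {x | Pre (T k0) x}) hR'dis
        (fun i j z h1 h2 => Subtype.ext (hT i j z h1 h2)) hX1 hX2
      have hβd : ∀ y, β (app (T k0) y) = app (T k0) y := fun y => hβ3 _ (fun h => h.2 (pre_app _ _))
      refine ⟨β * τ, Loc.mul hβ hτ, ?_, ?_, (Equiv.optionSubtypeNe i0).symm.trans (e.optionCongr.trans (Equiv.optionSubtypeNe k0)), ?_⟩
      · refine tor_of_bdd (K := 2 * m) (susp_bdd (r := {x | Pre (R i0) x}) (d := {x | Pre (T k0) x}) ?_ ?_ ?_ ?_ ?_ ?_ hm hβm)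
        · intro x hx; exact hinc x hx
        · intro x hx
          obtain ⟨y, rfl⟩ := (pre_iff _ _).1 hx
          exact hβd y
        · intro x hx
          obtain ⟨y, rfl⟩ := (pre_iff _ _).1 hx
          rw [hτ1]; exact pre_app _ _
        · intro x hx
          obtain ⟨y, rfl⟩ := (pre_iff _ _).1 hx
          rw [hτ2]; exact pre_app _ _
        · intro x h1 h2
          exact hτ3 x h1 h2
        · intro x
          rw [← Equiv.Perm.mul_apply, hττ]; rfl
      · intro x hx
        rw [Equiv.Perm.mul_apply, hτ3 x (fun h => hx ((hRX x).2 ⟨i0, h⟩)) (fun h => hx ((hTX x).2 ⟨k0, h⟩))]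
        exact hβ3 x (fun h => hx h.1)
      · intro i y
        by_cases hii : i = i0
        · subst hii
          rw [Equiv.Perm.mul_apply, hτ1, hβd, Equiv.trans_apply, Equiv.trans_apply, Equiv.optionSubtypeNe_symm_self]
          simp
        · rw [Equiv.Perm.mul_apply, Equiv.trans_apply, Equiv.trans_apply, Equiv.optionSubtypeNe_symm_of_ne hii]
          simp only [Equiv.optionCongr_apply, Option.map_some, Equiv.optionSubtypeNe_some]
          rcases hR' ⟨i, hii⟩ with ⟨a, ha, hw⟩ | ⟨h, hw⟩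
          · have ha : R i = T k0 ++ a := ha
            rw [ha, app_append, hτ2, ← app_append, ← hw, he]
          · rw [hτ3 _ (fun h => hii (hR i i0 _ (pre_app _ _) h)) (fun h' => by
              obtain ⟨a, ha⟩ := hcmp i _ (pre_app _ _) h'
              exact h a ha)]
            have hw : R' ⟨i, hii⟩ = R i := hw
            rw [← hw, he]
    · push Not at hi0
      -- now X is the cone of T k0 and n = 0
      have hκ1 : ∀ k, k = k0 := by
        intro k
        obtain ⟨i, hi⟩ := (hRX _).1 ((hTX (app (T k) (cst false))).2 ⟨k, pre_app _ _⟩)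
        obtain ⟨a, ha⟩ := hi0 i
        rw [ha] at hi
        exact hT k k0 _ (pre_app _ _) (pre_of_pre_append hi)
      have hn : n = 0 := by
        have : Fintype.card κ = 1 := Fintype.card_eq_one_iff.2 ⟨k0, hκ1⟩
        omega
      subst hn
      obtain ⟨i0, hi1⟩ := Fintype.card_eq_one_iff.1 hι
      obtain ⟨a, ha⟩ := hi0 i0
      have hpre : ∀ y, Pre a y := by
        intro y
        obtain ⟨i, hi⟩ := (hRX _).1 ((hTX (app (T k0) y)).2 ⟨k0, pre_app _ _⟩)
        rw [hi1 i, ha] at hi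
        exact pre_append.1 hi
      have ha0 : a = [] := pre_cst (hpre _) (hpre _)
      subst ha0
      rw [List.append_nil] at ha
      refine ⟨1, Loc.one, ⟨1, one_pos, one_pow _⟩, fun x _ => rfl, Fintype.equivOfCardEq (by rw [hι, hκ]), fun i y => ?_⟩
      rw [hκ1 (Fintype.equivOfCardEq _ i), hi1 i, ha]
      rfl

/-- **Every element of `V` supported in `X` is a product of two elements of finite order supported in `X`.** -/
theorem two_torsion {g : Equiv.Perm Om} (hg : Loc g) {X : Set Om} (hX : IsClopen X) (hfix : ∀ x, x ∉ X → g x = x) :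
    ∃ a b : Equiv.Perm Om, Loc a ∧ Loc b ∧ Tor a ∧ Tor b ∧ (∀ x, x ∉ X → a x = x) ∧ (∀ x, x ∉ X → b x = x) ∧
      g = a * b⁻¹ := by
  classical
  obtain ⟨N1, hN1⟩ := clopen_level hX
  obtain ⟨N2, hN2⟩ := LA.level (f := ⇑g) hg
  obtain ⟨N, hN1', hN2'⟩ : ∃ N, N1 ≤ N ∧ N2 ≤ N := ⟨max N1 N2, le_max_left _ _, le_max_right _ _⟩
  let ι := {f : Fin N → Bool // app (List.ofFn f) (cst false) ∈ X}
  let R : ι → List Bool := fun f => List.ofFn f.1
  have hlen : ∀ i : ι, (R i).length = N := fun i => by simp [R]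
  have hXc : ∀ (i : ι) y, app (R i) y ∈ X := by
    intro i y
    rw [hN1 (app (R i) y) (app (R i) (cst false)) (fun j hj => app_agree (by rw [hlen]; omega))]
    exact i.2
  have hRX : ∀ x, x ∈ X ↔ ∃ i, Pre (R i) x := by
    intro x
    constructor
    · intro hx
      have hp : Pre (List.ofFn (fun j : Fin N => x j)) x := fun i hi => by simp
      refine ⟨⟨fun j : Fin N => x j, ?_⟩, hp⟩
      rw [← hN1 x _ ?_]
      · exact hx
      · intro i hi
        rw [app_lt (show i < (List.ofFn (fun j : Fin N => x j)).length by simp; omega)]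
        simp
    · rintro ⟨i, hi⟩
      obtain ⟨y, rfl⟩ := (pre_iff _ _).1 hi
      exact hXc i y
  have hRdis : Dis R := by
    intro i j z hi hj
    apply Subtype.ext
    funext k
    have h1 := hi k (by rw [hlen]; exact k.2)
    have h2 := hj k (by rw [hlen]; exact k.2)
    rw [h1] at h2
    simpa [R] using h2
  choose T hT using fun i : ι => hN2 (R i) (by rw [hlen]; exact hN2')
  have hTdis : Dis T := by
    intro i j z hi hj
    obtain ⟨y, rfl⟩ := (pre_iff _ _).1 hi
    obtain ⟨y', hy'⟩ := (pre_iff _ _).1 hj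
    rw [← hT, ← hT] at hy'
    have := g.injective hy'
    exact hRdis i j (app (R i) y) (pre_app _ _) (by rw [this]; exact pre_app _ _)
  have hgX : ∀ x, g x ∈ X ↔ x ∈ X := by
    intro x
    constructor
    · intro h
      by_contra hx
      rw [hfix x hx] at h
      exact hx h
    · intro h
      by_contra hx
      have := g.injective (hfix _ hx)
      rw [this] at hx
      exact hx h
  have hTX : ∀ x, x ∈ X ↔ ∃ k, Pre (T k) x := by
    intro x
    constructor
    · intro hx
      obtain ⟨z, rfl⟩ := g.surjective x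
      rw [hgX] at hx
      obtain ⟨i, hi⟩ := (hRX z).1 hx
      obtain ⟨y, rfl⟩ := (pre_iff _ _).1 hi
      exact ⟨i, by rw [hT]; exact pre_app _ _⟩
    · rintro ⟨i, hi⟩
      obtain ⟨y, rfl⟩ := (pre_iff _ _).1 hi
      rw [← hT, hgX]
      exact hXc i y
  obtain ⟨β, hβ, ⟨m, hm, hβm⟩, hβ3, e, he⟩ := torsion_matching (Fintype.card ι) ι ι rfl rfl R T X hRdis hTdis hRX hTX
  have hβi : ∀ x, x ∉ X → β⁻¹ x = x := fun x hx => by
    rw [Equiv.Perm.inv_eq_iff_eq, hβ3 x hx]
  have ha : ∀ i y, (g * β⁻¹) (app (T i) y) = app (T (e⁻¹ i)) y := by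
    intro i y
    rw [Equiv.Perm.mul_apply]
    have : β⁻¹ (app (T i) y) = app (R (e⁻¹ i)) y := by
      rw [Equiv.Perm.inv_eq_iff_eq, he]
      congr 2
      exact (e.apply_symm_apply i).symm
    rw [this, hT]
  have han : ∀ (n : ℕ) i y, ((g * β⁻¹) ^ n) (app (T i) y) = app (T (((e : Equiv.Perm ι)⁻¹ ^ n) i)) y := by
    intro n
    induction n with
    | zero => intro i y; rfl
    | succ n ih =>
      intro i y
      rw [pow_succ', Equiv.Perm.mul_apply, ih, ha, pow_succ', Equiv.Perm.mul_apply]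
  have haX : ∀ x, x ∉ X → (g * β⁻¹) x = x := fun x hx => by
    rw [Equiv.Perm.mul_apply, hβi x hx, hfix x hx]
  refine ⟨g * β⁻¹, β⁻¹, Loc.mul hg (Loc.inv hβ), Loc.inv hβ, ⟨orderOf ((e : Equiv.Perm ι)⁻¹), orderOf_pos _, ?_⟩,
    ⟨m, hm, by rw [inv_pow, hβm, inv_one]⟩, haX, hβi, by group⟩
  ext1 x
  by_cases hx : x ∈ X
  · obtain ⟨i, hi⟩ := (hTX x).1 hx
    obtain ⟨y, rfl⟩ := (pre_iff _ _).1 hi
    rw [han, pow_orderOf_eq_one]; rfl
  · have : ∀ n : ℕ, ((g * β⁻¹) ^ n) x = x := by
      intro n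
      induction n with
      | zero => rfl
      | succ n ih => rw [pow_succ', Equiv.Perm.mul_apply, ih, haX x hx]
    rw [this]; rfl

end Pool.Agent.Thompson.VC
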